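import Pool.Agent.H33.G.R_seed8.W38.AFb

/-! Affine neighbours: almost all `n` have merged with all their affine neighbours. -/

set_option autoImplicit false

namespace Pool.Agent.W38.AF

open Finset Filter Topology Pool.Agent.H499R2.CO Pool.Agent.W38.CR

/-- the size of the exponents -/
noncomputable def kap (n : ℕ) : ℝ := √ (Real.log n) / (Real.log (Real.log n)) ^ 16

/-- `s n` has merged with all its affine neighbours -/
def Nbr (s : ℤ) (n : ℕ) : Prop := ∃ t : ℕ, 4 ^ t ≤ n ∧ ∀ a a' b b' : ℕ,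
  (a : ℝ) ≤ kap n → (a' : ℝ) ≤ kap n → (b : ℝ) ≤ kap n → (b' : ℝ) ≤ kap n → ∀ m : ℤ,
  |((2 ^ a * 3 ^ b * m - 2 ^ a' * 3 ^ b' * (s * n) : ℤ) : ℝ)| ≤ Real.exp (kap n) →
  (Tz 1)^[t + a'] m = (Tz 1)^[t + a] (s * n)

theorem fwdN {s : ℤ} (hs : s = 1 ∨ s = -1) : HD (Nbr s) 1 := by
  classical
  rw [HD_iff]
  apply density_one
  intro ε hε
  obtain ⟨m0, hm0⟩ := phaseG (show 0 < ε / 4 by positivity)
  have hev : ∀ᶠ N : ℕ in atTop, (∃ m ≥ max m0 8, 2 * (4 ^ m * m ^ 30) ≤ Nat.log 2 N / 4 ∧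
    ∀ z w : ℝ, 0 ≤ z → z ≤ Nat.log 2 N → 0.3 * Nat.log 2 N ≤ w →
      √ z / (Real.log w) ^ 16 ≤ 2 ^ m / 128) ∧ 100 ≤ Nat.log 2 N ∧
      (2 : ℝ) ^ (Nat.log 2 N / 2) ≤ ε / 4 * N := by
    have h1 := tendsto_natlog.eventually (choose_m2 (max m0 8))
    have h2 := tendsto_natlog.eventually (eventually_ge_atTop 100)
    have h3 : ∀ᶠ s : ℕ in atTop, 4 / ε ≤ (2 : ℝ) ^ (s / 2) := by
      have h4 : Tendsto (fun s : ℕ => (2 : ℝ) ^ (s / 2)) atTop atTop := by
        apply (tendsto_pow_atTop_atTop_of_one_lt (by norm_num : (1 : ℝ) < 2)).comp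
        rw [tendsto_atTop]
        intro b
        filter_upwards [eventually_ge_atTop (2 * b)] with s hs
        omega
      exact h4.eventually_ge_atTop _
    have h4 := tendsto_natlog.eventually h3
    filter_upwards [h1, h2, h4, eventually_ge_atTop 1] with N h1 h2 h4 h5
    refine ⟨h1, h2, ?_⟩
    set s := Nat.log 2 N with hs
    have h6 : 2 ^ s ≤ N := Nat.pow_log_le_self 2 (by omega)
    have h7 : 2 ^ (s / 2) * 2 ^ (s / 2) ≤ N := by
      rw [← pow_add]
      exact (Nat.pow_le_pow_right (by norm_num) (by omega)).trans h6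
    have h8 : (2 : ℝ) ^ (s / 2) * 2 ^ (s / 2) ≤ N := by exact_mod_cast h7
    have h9 : (0 : ℝ) < 2 ^ (s / 2) := by positivity
    rw [div_le_iff₀ hε] at h4
    have h10 : 4 * (2 : ℝ) ^ (s / 2) ≤ (2 ^ (s / 2) * ε) * 2 ^ (s / 2) :=
      mul_le_mul_of_nonneg_right h4 h9.le
    nlinarith
  obtain ⟨N0, hN0⟩ := eventually_atTop.1 hev
  refine ⟨N0, fun N => ?_⟩
  have htriv : (#((Icc 1 N).filter (fun n => ¬ Nbr s n)) : ℝ) ≤ N := by
    have := card_filter_le (Icc 1 N) (fun n => ¬ Nbr s n)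
    rw [Nat.card_Icc, Nat.add_sub_cancel] at this
    exact_mod_cast this
  rcases Nat.lt_or_ge N N0 with h | h
  · have h2 : (N : ℝ) ≤ N0 := by exact_mod_cast h.le
    have h3 : 0 ≤ ε * N := by positivity
    linarith
  · obtain ⟨⟨m, hm, hmT, hmG⟩, hs100, hsm⟩ := hN0 N h
    obtain ⟨T, hT, hav⟩ := hm0 m (le_trans (le_max_left _ _) hm)
    have hm8 : 8 ≤ m := le_trans (le_max_right _ _) hm
    set B := 2 ^ (m - 7) with hB
    set v := 2 ^ (m - 3) with hv
    have hvB : v = 16 * B := by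
      rw [hv, hB, show (16 : ℕ) = 2 ^ 4 by norm_num, ← pow_add]
      congr 1
      omega
    have hB1 : 1 ≤ B := Nat.one_le_two_pow
    have h2B : 2 * B ≤ 2 ^ m := by
      rw [hB, ← pow_succ']
      exact Nat.pow_le_pow_right (by norm_num) (by omega)
    have hBr : (B : ℝ) = 2 ^ m / 128 := by
      have h1 : (2 : ℕ) ^ m = 128 * B := by
        rw [hB, show (128 : ℕ) = 2 ^ 7 by norm_num, ← pow_add]
        congr 1
        omega
      have h2 : (2 : ℝ) ^ m = 128 * B := by exact_mod_cast h1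
      rw [h2]; ring
    have hc := count_MA' hs T v (Pw := 3 ^ B) (Nat.one_le_pow _ _ (by norm_num)) N
    have hav' : av T (FB v) ≤ ε / 4 := hav
    have hav0 : 0 ≤ av T (FB v) := av_nonneg fun l _ => FB_nonneg v l
    set k := Nat.log 2 N with hk
    have hNpos : N ≠ 0 := by
      rintro rfl
      simp at hk
      omega
    have hTs : T ≤ k / 4 := hT.trans hmT
    have h2s : 2 ^ k ≤ N := Nat.pow_log_le_self 2 hNpos
    have hN2s : N < 2 ^ (k + 1) := Nat.lt_pow_succ_log_self (by norm_num) N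
    have h2m : 2 ^ m ≤ k / 4 := by
      refine le_trans ?_ hmT
      calc 2 ^ m ≤ 4 ^ m := Nat.pow_le_pow_left (by norm_num) m
        _ ≤ 4 ^ m * m ^ 30 := Nat.le_mul_of_pos_right _ (by positivity)
        _ ≤ _ := by omega
    have h3B : 3 ^ B ≤ 2 ^ (k / 4) := by
      calc 3 ^ B ≤ 4 ^ B := Nat.pow_le_pow_left (by norm_num) B
        _ = 2 ^ (2 * B) := by rw [pow_mul]; norm_num
        _ ≤ _ := Nat.pow_le_pow_right (by norm_num) (by omega)
    have h3T : (3 : ℝ) ^ B * 2 ^ T ≤ N := by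
      have : 3 ^ B * 2 ^ T ≤ N := by
        calc 3 ^ B * 2 ^ T ≤ 2 ^ (k / 4) * 2 ^ (k / 4) :=
              Nat.mul_le_mul h3B (Nat.pow_le_pow_right (by norm_num) hTs)
          _ = 2 ^ (k / 4 + k / 4) := by rw [pow_add]
          _ ≤ 2 ^ k := Nat.pow_le_pow_right (by norm_num) (by omega)
          _ ≤ N := h2s
      exact_mod_cast this
    have h3s : (3 : ℝ) ^ B ≤ 2 ^ (k / 2) := by
      have : 3 ^ B ≤ 2 ^ (k / 2) := h3B.trans (Nat.pow_le_pow_right (by norm_num) (by omega))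
      exact_mod_cast this
    have hsub : (Icc 1 N).filter (fun n => ¬ Nbr s n) ⊆ range (2 ^ (k / 2)) ∪
        (Icc 1 N).filter (fun n : ℕ => ¬ MA T v (s * ((n / 3 ^ B : ℕ) : ℤ))) := by
      intro n hn
      rw [mem_filter, mem_Icc] at hn
      rw [mem_union, mem_range]
      by_contra hcon
      rw [not_or, not_lt] at hcon
      obtain ⟨hn1, hn2⟩ := hcon
      rw [mem_filter, not_and, not_not, mem_Icc] at hn2
      have hn3 := hn2 hn.1
      apply hn.2
      have hn0 : (0 : ℝ) < n := by exact_mod_cast (by omega : 0 < n)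
      have hkap : kap n ≤ B := by
        have hsr : (100 : ℝ) ≤ k := by exact_mod_cast hs100
        have l2 := Real.log_two_gt_d9
        have l2' := Real.log_two_lt_d9
        have hlogn : Real.log n ≤ k := by
          have h1 : (n : ℝ) ≤ 2 ^ (k + 1) := by exact_mod_cast (by omega : n ≤ 2 ^ (k + 1))
          have h2 := Real.log_le_log hn0 h1
          rw [Real.log_pow] at h2
          push_cast at h2
          nlinarith
        have hlogn2 : 0.3 * k ≤ Real.log n := by
          have h1 : (2 : ℝ) ^ (k / 2) ≤ n := by exact_mod_cast hn1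
          have h2 := Real.log_le_log (by positivity) h1
          rw [Real.log_pow] at h2
          have h3 : ((k : ℝ) - 1) / 2 ≤ ((k / 2 : ℕ) : ℝ) := by
            have : k ≤ 2 * (k / 2) + 1 := by omega
            have : (k : ℝ) ≤ 2 * ((k / 2 : ℕ) : ℝ) + 1 := by exact_mod_cast this
            linarith
          nlinarith
        have h5 := hmG (Real.log n) (Real.log n) (by linarith) hlogn hlogn2
        unfold kap
        rw [hBr]
        exact h5
      refine ⟨T, ?_, fun a a' b b' ha ha' hb hb' m' hm' => ?_⟩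
      · calc 4 ^ T = 2 ^ (2 * T) := by rw [pow_mul]; norm_num
          _ ≤ 2 ^ (k / 2) := Nat.pow_le_pow_right (by norm_num) (by omega)
          _ ≤ n := hn1
      · have ha2 : a' ≤ B := by exact_mod_cast ha'.trans hkap
        have hb2 : b ≤ B := by exact_mod_cast hb.trans hkap
        have hb2' : b' ≤ B := by exact_mod_cast hb'.trans hkap
        have hx : s * (n : ℤ) = 3 ^ B * (s * ((n / 3 ^ B : ℕ) : ℤ)) + s * ((n % 3 ^ B : ℕ) : ℤ) := by
          have h1 := Nat.div_add_mod n (3 ^ B)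
          generalize n / 3 ^ B = q at h1 ⊢
          generalize n % 3 ^ B = r at h1 ⊢
          have h2 : (n : ℤ) = 3 ^ B * (q : ℤ) + (r : ℤ) := by exact_mod_cast h1.symm
          rw [h2]
          ring
        have hρ : |s * ((n % 3 ^ B : ℕ) : ℤ)| ≤ 3 ^ B := by
          have h1 : n % 3 ^ B ≤ 3 ^ B := (Nat.mod_lt n (by positivity)).le
          have h2 : ((n % 3 ^ B : ℕ) : ℤ) ≤ 3 ^ B := by exact_mod_cast h1
          have h3 : |s| = 1 := by rcases hs with rfl | rfl <;> simp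
          rw [abs_mul, h3, one_mul, abs_of_nonneg (by positivity)]
          exact h2
        have hexp : Real.exp (kap n) ≤ 4 ^ B := by
          have h1 : Real.exp 1 ≤ 4 := by have := Real.exp_one_lt_d9; linarith
          calc Real.exp (kap n) ≤ Real.exp B := Real.exp_le_exp.2 hkap
            _ = Real.exp 1 ^ B := by rw [← Real.exp_nat_mul, mul_one]
            _ ≤ 4 ^ B := pow_le_pow_left₀ (Real.exp_pos _).le h1 _
        have h6 : |2 ^ a * 3 ^ b * m' - 2 ^ a' * 3 ^ b' * (s * (n : ℤ))| ≤ 4 ^ B := by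
          have h7 := hm'.trans hexp
          exact_mod_cast h7
        rw [hx] at h6 ⊢
        exact nbr_of_MA (v := v) (by omega) hρ hn3 ha2 hb2 hb2' h6
    have h1 : (#((Icc 1 N).filter (fun n => ¬ Nbr s n)) : ℝ) ≤ 2 ^ (k / 2) +
        (#((Icc 1 N).filter (fun n : ℕ => ¬ MA T v (s * ((n / 3 ^ B : ℕ) : ℤ)))) : ℝ) := by
      have h2 := (card_le_card hsub).trans (card_union_le _ _)
      rw [card_range] at h2
      exact_mod_cast h2
    have h0 : (0 : ℝ) ≤ N0 := by positivity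
    have hNr : (0 : ℝ) ≤ N := by positivity
    have e3 : ((3 ^ B : ℕ) : ℝ) = 3 ^ B := by push_cast; rfl
    rw [e3] at hc
    have h4 : ((N : ℝ) + 3 ^ B * 2 ^ T) * av T (FB v) ≤ (2 * N) * (ε / 4) :=
      mul_le_mul (by linarith) hav' hav0 (by positivity)
    linarith

end Pool.Agent.W38.AF
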