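import Pool.Agent.H33.G.R_seed8.W38.CRe

/-! Affine neighbours: the forms `(b, r)` with `b` and `log |r|` bounded by `2 ^ (m - 3)`. -/

set_option autoImplicit false

namespace Pool.Agent.W38.AF

open Finset Filter Pool.Agent.H499R2.CO Pool.Agent.W38.CR

/-- the initial forms -/
noncomputable def Qg (v : ℕ) : Finset (ℕ × ℤ) := (range (v + 1)) ×ˢ (Icc (-(2 : ℤ) ^ v) (2 ^ v))

theorem mem_Qg {v : ℕ} {A : ℕ × ℤ} : A ∈ Qg v ↔ A.1 ≤ v ∧ |A.2| ≤ 2 ^ v := by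
  unfold Qg
  rw [mem_product, mem_range, mem_Icc, abs_le]
  constructor
  · rintro ⟨h1, h2⟩; exact ⟨by omega, h2⟩
  · rintro ⟨h1, h2⟩; exact ⟨by omega, h2⟩

theorem zero_mem_Qg (v : ℕ) : ((0 : ℕ), (0 : ℤ)) ∈ Qg v := by
  rw [mem_Qg]
  simp

theorem Qg_level {v : ℕ} : ∀ A ∈ Qg v, A.1 ≤ v := fun A hA => (mem_Qg.1 hA).1

theorem card_Qg (v : ℕ) : (#(Qg v) : ℝ) ≤ 4 * 4 ^ v := by
  have h1 : #(Qg v) = (v + 1) * (2 * 2 ^ v + 1) := by
    unfold Qg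
    rw [card_product, card_range, Int.card_Icc]
    congr 1
    have h2 : (0 : ℤ) < 2 ^ v := by positivity
    have h3 : ((2 : ℤ) ^ v + 1 - -2 ^ v) = ((2 * 2 ^ v + 1 : ℕ) : ℤ) := by push_cast; ring
    rw [h3, Int.toNat_natCast]
  have h2 : v + 1 ≤ 2 ^ v := Nat.lt_two_pow_self
  have h3 : (v + 1) * (2 * 2 ^ v + 1) ≤ 4 * 4 ^ v := by
    have h4 : (4 : ℕ) ^ v = 2 ^ v * 2 ^ v := by rw [← mul_pow]; norm_num
    have h5 : 1 ≤ 2 ^ v := Nat.one_le_two_pow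
    rw [h4]
    calc (v + 1) * (2 * 2 ^ v + 1) ≤ 2 ^ v * (4 * 2 ^ v) := Nat.mul_le_mul h2 (by omega)
      _ = _ := by ring
  rw [h1]
  exact_mod_cast h3

theorem pw_st_le {v : ℕ} {A B : ℕ × ℤ} (hA : A ∈ Qg v) (hB : B ∈ Qg v) : pw (st A B) ≤ 2 * 2 ^ v := by
  -- the ordered case
  have key : ∀ (i : ℕ) (x y : ℤ), |x| ≤ 2 ^ v → |y| ≤ 2 ^ v → pw (i, y - 3 ^ i * x) ≤ 2 * 2 ^ v := by
    intro i x y hx hy
    have hxr : |(x : ℝ)| ≤ 2 ^ v := by exact_mod_cast hx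
    have hyr : |(y : ℝ)| ≤ 2 ^ v := by exact_mod_cast hy
    unfold pw w
    simp only
    have h1 : |((y - 3 ^ i * x : ℤ) : ℝ)| ≤ (2 * 2 ^ v * (√ 3) ^ i) ^ 2 := by
      have e : (2 * 2 ^ v * (√ 3) ^ i) ^ 2 = 4 * (2 ^ v) ^ 2 * (3 : ℝ) ^ i := by
        rw [mul_pow, mul_pow, ← pow_mul (√ 3), mul_comm i 2, pow_mul (√ 3),
          Real.sq_sqrt (by norm_num)]
        ring
      rw [e]
      push_cast
      have h2 : |(y : ℝ) - 3 ^ i * x| ≤ |(y : ℝ)| + |3 ^ i * (x : ℝ)| := abs_sub _ _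
      have h3 : |3 ^ i * (x : ℝ)| = 3 ^ i * |(x : ℝ)| := by
        rw [abs_mul, abs_of_pos (by positivity)]
      have h4 : (1 : ℝ) ≤ 3 ^ i := one_le_pow₀ (by norm_num)
      have h5 : (1 : ℝ) ≤ 2 ^ v := one_le_pow₀ (by norm_num)
      have h6 : 3 ^ i * |(x : ℝ)| ≤ 3 ^ i * 2 ^ v := mul_le_mul_of_nonneg_left hxr (by positivity)
      have h7 : (2 : ℝ) ^ v ≤ 3 ^ i * 2 ^ v := by nlinarith
      have h8 : (3 : ℝ) ^ i * 2 ^ v ≤ 3 ^ i * (2 ^ v) ^ 2 := by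
        apply mul_le_mul_of_nonneg_left _ (by positivity)
        nlinarith
      nlinarith
    have h2 : √ |((y - 3 ^ i * x : ℤ) : ℝ)| ≤ 2 * 2 ^ v * (√ 3) ^ i := by
      rw [Real.sqrt_le_left (by positivity)]
      exact h1
    calc (11 / 20 : ℝ) ^ i * √ |((y - 3 ^ i * x : ℤ) : ℝ)|
        ≤ (11 / 20 : ℝ) ^ i * (2 * 2 ^ v * (√ 3) ^ i) := mul_le_mul_of_nonneg_left h2 (by positivity)
      _ = (11 / 20 * √ 3) ^ i * (2 * 2 ^ v) := by rw [mul_pow]; ring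
      _ ≤ 1 * (2 * 2 ^ v) := by
          apply mul_le_mul_of_nonneg_right _ (by positivity)
          apply pow_le_one₀ (by positivity)
          have h3 : √ 3 ≤ 20 / 11 := by
            rw [Real.sqrt_le_left (by norm_num)]
            norm_num
          linarith
      _ = _ := one_mul _
  rw [mem_Qg] at hA hB
  unfold st
  split_ifs with h
  · exact key _ _ _ hA.2 hB.2
  · exact key _ _ _ hB.2 hA.2

theorem Lam_Qg {u v : ℕ} (hu : u = 8 * v) (hv : 1 ≤ v) : Lam (Qg v) ≤ 2 * 8 ^ u := by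
  have hc := card_Qg v
  have hc0 : (0 : ℝ) ≤ #(Qg v) := by positivity
  have h2 : Phi (Qg v) ≤ (#(Qg v) : ℝ) ^ 2 * (2 * 2 ^ v) := by
    unfold Phi
    calc ∑ A ∈ Qg v, ∑ B ∈ Qg v, pw (st A B) ≤ ∑ A ∈ Qg v, ∑ B ∈ Qg v, (2 * (2 : ℝ) ^ v) :=
          sum_le_sum fun A hA => sum_le_sum fun B hB => pw_st_le hA hB
      _ = _ := by
          rw [sum_const, sum_const, nsmul_eq_mul, nsmul_eq_mul]
          ring
  have h3 : (#(Qg v) : ℝ) ^ 2 ≤ (4 * 4 ^ v) ^ 2 := pow_le_pow_left₀ hc0 hc 2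
  have e1 : (4 * (4 : ℝ) ^ v) ^ 2 = 16 * 16 ^ v := by
    rw [mul_pow, ← pow_mul, mul_comm v 2, pow_mul]; norm_num
  rw [e1] at h3
  have e2 : (16 : ℝ) ^ v * 2 ^ v = 32 ^ v := by rw [← mul_pow]; norm_num
  have h4 : (16 : ℝ) ^ v ≤ 32 ^ v := pow_le_pow_left₀ (by norm_num) (by norm_num) v
  have h5 : Phi (Qg v) ≤ 32 * 32 ^ v := by
    refine h2.trans ?_
    have : (#(Qg v) : ℝ) ^ 2 * (2 * 2 ^ v) ≤ (16 * 16 ^ v) * (2 * 2 ^ v) :=
      mul_le_mul_of_nonneg_right h3 (by positivity)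
    linarith
  have h6 : (8 : ℝ) ^ u = (8 ^ 8) ^ v := by rw [hu, pow_mul]
  have h7 : (17 : ℝ) * 32 ^ v ≤ 2 * 8 ^ u := by
    rw [h6]
    have h8 : (544 : ℝ) ^ v ≤ (8 ^ 8) ^ v := pow_le_pow_left₀ (by norm_num) (by norm_num) v
    have h9 : (17 : ℝ) ≤ 17 ^ v := le_self_pow₀ (by norm_num) (by omega)
    have h10 : (17 : ℝ) ^ v * 32 ^ v = 544 ^ v := by rw [← mul_pow]; norm_num
    have h11 : (0 : ℝ) < 32 ^ v := by positivity
    nlinarith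
  unfold Lam
  have h12 : (0 : ℝ) < 32 ^ v := by positivity
  linarith

/-- All the forms `(b, r)`, `b ≤ 2 ^ (m - 3)`, `|r| ≤ 2 ^ (2 ^ (m - 3))`, merge within
`2 * 4 ^ m * m ^ 30` steps, for most bits. -/
theorem phaseG {ε : ℝ} (hε : 0 < ε) : ∃ m0 : ℕ, ∀ m ≥ m0, ∃ T : ℕ,
    T ≤ 2 * (4 ^ m * m ^ 30) ∧ av T (fun l => bad (fl l (0, 0)) (im l (Qg (2 ^ (m - 3))))) ≤ ε := by
  obtain ⟨C, hC, hrate⟩ := q_rate
  have hev : ∀ᶠ m : ℕ in atTop, 20 ≤ m ∧ 132 * C ^ 2 ≤ m ∧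
      1488 * C ^ 2 * Real.log m ≤ m ∧ (0.98 : ℝ) ^ (m ^ 2) ≤ 0.01 ∧
      6000 * (4 ^ m * (m : ℝ) ^ 4) *
    (1 / ((m : ℝ) ^ 2) ^ 4 * (1 / ((m : ℝ) ^ 2)) ^ m + 3 * (16 * Real.exp (-((m ^ 2 : ℕ) : ℝ))) +
      3113 / 2 ^ (m ^ 2)) + 2 * (1 / ((m : ℝ) ^ 2) ^ 4) * (2 * ((m : ℝ) ^ 2) ^ 3 + 2) ≤ ε := by
    have h98 : Tendsto (fun M : ℕ => (0.98 : ℝ) ^ M) atTop (nhds 0) :=
      tendsto_pow_atTop_nhds_zero_of_lt_one (by norm_num) (by norm_num)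
    have h98' := h98.comp (tendsto_pow_atTop (α := ℕ) (n := 2) (by norm_num))
    filter_upwards [eventually_ge_atTop 20, tendsto_natCast_atTop_atTop.eventually_ge_atTop (132 * C ^ 2),
      tendsto_log_lin (1488 * C ^ 2),
      h98'.eventually (gt_mem_nhds (show (0 : ℝ) < 0.01 by norm_num)),
      err_tendsto.eventually (gt_mem_nhds hε)] with M h1 h2 h3 h4 h5
    exact ⟨h1, h2, h3, h4.le, h5.le⟩
  obtain ⟨m0, hm0⟩ := eventually_atTop.1 hev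
  refine ⟨m0, fun m hm => ?_⟩
  obtain ⟨hm20, hmC, hlog, h98, herr⟩ := hm0 m hm
  clear hev hm0
  have hmr : (20 : ℝ) ≤ m := by exact_mod_cast hm20
  have hmp : (0 : ℝ) < m := by linarith
  set u := 2 ^ m with hu
  set M := m ^ 2 with hMdef
  have hM400 : 400 ≤ M := by rw [hMdef]; nlinarith
  have hupos : 1 ≤ u := Nat.one_le_two_pow
  have hu2 : u ^ 2 = 4 ^ m := by rw [hu, ← pow_mul, mul_comm, pow_mul]; norm_num
  have hmu : m ≤ u := (Nat.lt_two_pow_self (n := m)).le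
  have hMu : M ≤ u := by
    rw [hMdef, hu]
    have : ∀ k : ℕ, 4 ≤ k → k ^ 2 ≤ 2 ^ k := by
      intro k hk
      induction k, hk using Nat.le_induction with
      | base => norm_num
      | succ k hk ih =>
        rw [pow_succ 2 k]
        nlinarith
    exact this m (by omega)
  set v := 2 ^ (m - 3) with hv
  have hvu : u = 8 * v := by
    rw [hu, hv, show (8 : ℕ) = 2 ^ 3 by norm_num, ← pow_add]
    congr 1
    omega
  have hv1 : 1 ≤ v := Nat.one_le_two_pow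
  set L := 12 * u * M + v + 1 with hLdef
  have hL13 : (L : ℝ) ≤ 13 * (u : ℝ) * M := by
    have : L ≤ 13 * u * M := by
      have h1 : u * 1 ≤ u * M := Nat.mul_le_mul_left u (by omega)
      rw [hLdef]
      have h2 : 13 * u * M = 12 * u * M + u * M := by ring
      omega
    exact_mod_cast this
  have hlogk : ∀ k : ℕ, k ≤ 4 ^ m * m ^ 30 → 4 * C ^ 2 * Real.log ((k : ℝ) + 1) ≤ (M : ℝ) := by
    intro k hk
    have h1 := log_k (m := m) (by omega) hk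
    have h2 : 4 * C ^ 2 * Real.log ((k : ℝ) + 1) ≤ 4 * C ^ 2 * (33 * m) :=
      mul_le_mul_of_nonneg_left h1 (by positivity)
    rw [hMdef]
    push_cast
    nlinarith
  have hq1 : ∀ r : ℤ, w r ≤ 64000 * (L : ℝ) ^ 2 → q step (0, 0) M (0, r) ≤ 1 / 4 := by
    intro r hr
    apply q_first hC hrate (by omega) _ hlog r hr
    refine hL13.trans (le_of_eq ?_)
    rw [hu, hMdef]
    push_cast
    ring
  have hk1 : u ^ 2 * M ^ 3 ≤ 4 ^ m * m ^ 30 := by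
    rw [hu2, hMdef, ← pow_mul]
    exact Nat.mul_le_mul_left _ (Nat.pow_le_pow_right (by omega) (by norm_num))
  have hk2 : (u * M ^ 3) ^ 2 * M ^ 9 = 4 ^ m * m ^ 30 := by
    rw [← hu2, hMdef]; ring
  have hq : ∀ s : ℕ × ℤ, s.1 ≤ u → pw s ≤ 2 ^ M → q step (0, 0) (u ^ 2 * M ^ 3) s ≤ 1 / (M : ℝ) := by
    intro s hs hpw
    refine (q_close hC hrate hupos hMu (Nat.mul_pos (by positivity) (by positivity)) s hs hpw).trans ?_
    have := rho_pow hC (M := M) (b := u) (t := 1) (k := u ^ 2 * M ^ 3) (by omega) hupos (by norm_num)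
      (hlogk _ hk1)
    rwa [pow_one] at this
  have hqf : ∀ s : ℕ × ℤ, s.1 ≤ u * M ^ 3 → pw s ≤ 2 ^ M →
      q step (0, 0) ((u * M ^ 3) ^ 2 * M ^ 9) s ≤ 1 / (M : ℝ) ^ 4 := by
    intro s hs hpw
    have ha1 : 1 ≤ u * M ^ 3 := Nat.mul_pos (by omega) (by positivity)
    have ha2 : M ≤ u * M ^ 3 := by
      have : M ≤ M ^ 3 := Nat.le_self_pow (by norm_num) M
      nlinarith
    refine (q_close hC hrate (a := u * M ^ 3) ha1 ha2 (Nat.mul_pos (by positivity) (by positivity))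
      s hs hpw).trans ?_
    exact rho_pow hC (M := M) (b := u * M ^ 3) (t := 4) (by omega) ha1 (by norm_num)
      (hlogk _ hk2.le)
  have hMr : (400 : ℝ) ≤ M := by exact_mod_cast hM400
  have hMp : (0 : ℝ) < M := by linarith
  have hp2 : 1 / (M : ℝ) ≤ 1 / 2 := by
    apply div_le_div_of_nonneg_left (by norm_num) (by norm_num) (by linarith)
  have hpf1 : 1 / (M : ℝ) ^ 4 ≤ 1 := by
    rw [div_le_one (by positivity)]
    exact one_le_pow₀ (by linarith)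
  have hlam0 : (0 : ℝ) ≤ 1 / ((u : ℝ) * (M : ℝ) ^ 2) := by positivity
  have htot := total (L := L) (k1 := M) (s1 := 12 * u) (a := u * M ^ 3) (g := u)
    (k := u ^ 2 * M ^ 3) (kf := (u * M ^ 3) ^ 2 * M ^ 9) (S := m) (p := 1 / (M : ℝ))
    (pf := 1 / (M : ℝ) ^ 4) (lam := 1 / ((u : ℝ) * (M : ℝ) ^ 2)) (Pm := 2 ^ M)
    (by omega) h98 hq1 hupos (by positivity) hp2 (by positivity) hpf1 (by positivity) hlam0 hq hqf
    (zero_mem_Qg v) (fun A hA => by have := Qg_level A hA; omega)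
  refine ⟨12 * u * M + (m * (u ^ 2 * M ^ 3) + (u * M ^ 3) ^ 2 * M ^ 9), ?_, htot.trans ?_⟩
  · rw [hk2]
    have h1 : u * M ≤ u ^ 2 * M ^ 3 := by
      have h2 : u ≤ u ^ 2 := Nat.le_self_pow (by norm_num) u
      have h3 : M ≤ M ^ 3 := Nat.le_self_pow (by norm_num) M
      exact Nat.mul_le_mul h2 h3
    have h2 : (12 + m) * (u ^ 2 * M ^ 3) ≤ 4 ^ m * m ^ 30 := by
      rw [hu2, hMdef, ← pow_mul]
      calc (12 + m) * (4 ^ m * m ^ (2 * 3)) ≤ m ^ 2 * (4 ^ m * m ^ (2 * 3)) :=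
            Nat.mul_le_mul_right _ (by nlinarith)
        _ = 4 ^ m * m ^ 8 := by ring
        _ ≤ _ := Nat.mul_le_mul_left _ (Nat.pow_le_pow_right (by omega) (by norm_num))
    have h3 : 12 * u * M = 12 * (u * M) := by ring
    have h4 : (12 + m) * (u ^ 2 * M ^ 3) = m * (u ^ 2 * M ^ 3) + 12 * (u ^ 2 * M ^ 3) := by
      ring
    omega
  · have hMm : (M : ℝ) = (m : ℝ) ^ 2 := by rw [hMdef]; push_cast; rfl
    rw [← hMm] at herr
    refine le_trans ?_ herr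
    have hcosh := cosh_bound (u := u) (M := M) (S := m) (k := u ^ 2 * M ^ 3) (L := L)
      (a := u * M ^ 3) hupos (by omega) (by rw [hMdef]; nlinarith) rfl hL13 rfl
    have hdiv : 2 * (u * M ^ 3) / u = 2 * M ^ 3 := by
      have : 2 * (u * M ^ 3) = u * (2 * M ^ 3) := by ring
      rw [this, Nat.mul_div_cancel_left _ (by omega)]
    have hum : (u : ℝ) ^ 2 = 4 ^ m := by exact_mod_cast hu2
    have hA : (0.84 : ℝ) ^ (12 * u) * Lam (Qg v) + 31.25 * (L : ℝ) ^ 2 ≤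
        6000 * (4 ^ m * (m : ℝ) ^ 4) := by
      have h1 : (0.84 : ℝ) ^ (12 * u) * Lam (Qg v) ≤ 2 :=
        (mul_le_mul_of_nonneg_left (Lam_Qg hvu hv1) (by positivity)).trans (pow_084 _)
      have h2 : (L : ℝ) ^ 2 ≤ (13 * (u : ℝ) * M) ^ 2 :=
        pow_le_pow_left₀ (by positivity) hL13 2
      have h3 : (13 * (u : ℝ) * M) ^ 2 = 169 * (4 ^ m * (m : ℝ) ^ 4) := by
        rw [mul_pow, mul_pow, hum, hMm]; ring
      have h4 : (1 : ℝ) ≤ 4 ^ m * (m : ℝ) ^ 4 :=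
        one_le_mul_of_one_le_of_one_le (one_le_pow₀ (by norm_num)) (one_le_pow₀ (by linarith))
      rw [h3] at h2
      linarith
    have hZ : 1 / (M : ℝ) ^ 4 * (1 / (M : ℝ)) ^ m +
        3 * (Real.cosh (1 / ((u : ℝ) * (M : ℝ) ^ 2)) ^ (m * (u ^ 2 * M ^ 3)) *
          Real.cosh (1 / ((u : ℝ) * (M : ℝ) ^ 2) * L) /
          Real.cosh (1 / ((u : ℝ) * (M : ℝ) ^ 2) * ((u * M ^ 3 : ℕ) : ℝ))) + 3113 / 2 ^ M ≤
        1 / (M : ℝ) ^ 4 * (1 / (M : ℝ)) ^ m + 3 * (16 * Real.exp (-(M : ℝ))) +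
          3113 / 2 ^ M := by
      linarith
    have hZ0 : 0 ≤ 1 / (M : ℝ) ^ 4 * (1 / (M : ℝ)) ^ m +
        3 * (Real.cosh (1 / ((u : ℝ) * (M : ℝ) ^ 2)) ^ (m * (u ^ 2 * M ^ 3)) *
          Real.cosh (1 / ((u : ℝ) * (M : ℝ) ^ 2) * L) /
          Real.cosh (1 / ((u : ℝ) * (M : ℝ) ^ 2) * ((u * M ^ 3 : ℕ) : ℝ))) + 3113 / 2 ^ M := by
      have := Real.cosh_pos (1 / ((u : ℝ) * (M : ℝ) ^ 2))
      have := Real.cosh_pos (1 / ((u : ℝ) * (M : ℝ) ^ 2) * L)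
      have := Real.cosh_pos (1 / ((u : ℝ) * (M : ℝ) ^ 2) * ((u * M ^ 3 : ℕ) : ℝ))
      positivity
    have hprod := mul_le_mul hA hZ hZ0 (by positivity)
    have hlast : 2 * (1 / (M : ℝ) ^ 4) * ((2 * (u * M ^ 3) / u + 2 : ℕ) : ℝ) =
        2 * (1 / (M : ℝ) ^ 4) * (2 * (M : ℝ) ^ 3 + 2) := by
      rw [hdiv]
      push_cast
      ring
    rw [hlast]
    linarith

end Pool.Agent.W38.AF
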