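import Pool.Agent.H33.G.R_seed8.W38.AFa
import Pool.Agent.H33.G.R_seed8.W38.CRh

/-! Affine neighbours: from the forms to the integers, both signs. -/

set_option autoImplicit false

namespace Pool.Agent.W38.AF

open Finset Filter Topology Pool.Agent.H499R2.CO Pool.Agent.W38.CR

theorem bv_map_not (l : List Bool) : bv (l.map not) = 2 ^ l.length - 1 - bv l := by
  induction l with
  | nil => simp [bv]
  | cons b l ih =>
    simp only [List.map_cons, bv, List.length_cons, pow_succ, ih]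
    have : bz (!b) = 1 - bz b := by cases b <;> simp [bz]
    rw [this]; ring

theorem iter_pos (k n : ℕ) (A : ℕ × ℤ) : (Tz 1)^[k] (ev A (n : ℤ)) =
    ev (fl (bits k n) A) ((n / 2 ^ k : ℕ) : ℤ) := by
  have h1 := Tz_ev_iter (bits k n) A ((n / 2 ^ k : ℕ) : ℤ)
  rw [length_bits, bv_bits] at h1
  exact h1

theorem iter_neg (k z : ℕ) (A : ℕ × ℤ) : (Tz 1)^[k] (ev A (-1 - (z : ℤ))) =
    ev (fl ((bits k z).map not) A) (-1 - ((z / 2 ^ k : ℕ) : ℤ)) := by
  have h1 := Tz_ev_iter ((bits k z).map not) A (-1 - ((z / 2 ^ k : ℕ) : ℤ))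
  rw [List.length_map, length_bits, bv_map_not, length_bits] at h1
  have h2 := bv_bits k z
  rw [← h1]
  congr 2
  linear_combination h2

theorem av_map_not (k : ℕ) : ∀ F : List Bool → ℝ, av k (fun l => F (l.map not)) = av k F := by
  induction k with
  | zero => intro F; rfl
  | succ k ih =>
    intro F
    simp only [av, List.map_cons]
    rw [ih (fun l => F ((!false) :: l)), ih (fun l => F ((!true) :: l))]
    simp only [Bool.not_false, Bool.not_true]
    ring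

theorem sum_range_bits {F : List Bool → ℝ} (hF : ∀ l, 0 ≤ F l) (k N : ℕ) :
    ∑ n ∈ range N, F (bits k n) ≤ (N + 2 ^ k) * av k F := by
  have hav : 0 ≤ av k F := av_nonneg fun l _ => hF l
  have h1 : range N ⊆ range (2 ^ k * (N / 2 ^ k + 1)) := by
    intro n hn
    rw [mem_range] at hn ⊢
    have h := Nat.lt_mul_div_succ N (show 0 < 2 ^ k by positivity)
    omega
  have h2 := sum_le_sum_of_subset_of_nonneg h1 (f := fun n => F (bits k n)) (fun _ _ _ => hF _)
  refine h2.trans ?_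
  rw [sum_bits_mul]
  have h3 : ((N / 2 ^ k + 1 : ℕ) : ℝ) * 2 ^ k ≤ N + 2 ^ k := by
    have h4 : (N / 2 ^ k + 1) * 2 ^ k ≤ N + 2 ^ k := by
      have := Nat.div_mul_le_self N (2 ^ k)
      rw [add_mul, one_mul]
      omega
    exact_mod_cast h4
  calc ((N / 2 ^ k + 1 : ℕ) : ℝ) * (2 ^ k * av k F) = (((N / 2 ^ k + 1 : ℕ) : ℝ) * 2 ^ k) * av k F := by ring
    _ ≤ _ := mul_le_mul_of_nonneg_right h3 hav

/-- all the forms of `Qg v` have merged with `y` after `T` steps -/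
def MA (T v : ℕ) (y : ℤ) : Prop := ∀ A ∈ Qg v, (Tz 1)^[T] (ev A y) = (Tz 1)^[T] y

/-- the indicator of the bad lists -/
noncomputable def FB (v : ℕ) (l : List Bool) : ℝ := bad (fl l (0, 0)) (im l (Qg v))

theorem FB_nonneg (v : ℕ) (l : List Bool) : 0 ≤ FB v l := bad_nonneg _ _

theorem ev_zero (y : ℤ) : ev ((0 : ℕ), (0 : ℤ)) y = y := by unfold ev; simp

theorem MA_pos {T v n : ℕ} (h : ¬ MA T v (n : ℤ)) : FB v (bits T n) = 1 := by
  refine bad_one (fun hall => h ?_)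
  intro A hA
  have e1 := iter_pos T n (0, 0)
  rw [ev_zero] at e1
  rw [e1, iter_pos, hall (fl (bits T n) A) (mem_image_of_mem _ hA)]

theorem MA_neg {T v z : ℕ} (h : ¬ MA T v (-1 - (z : ℤ))) : FB v ((bits T z).map not) = 1 := by
  refine bad_one (fun hall => h ?_)
  intro A hA
  have e1 := iter_neg T z (0, 0)
  rw [ev_zero] at e1
  rw [e1, iter_neg, hall (fl ((bits T z).map not) A) (mem_image_of_mem _ hA)]

open Classical in
/-- the number of the bad `j` -/
theorem count_MA {s : ℤ} (hs : s = 1 ∨ s = -1) (T v M : ℕ) :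
    (#((Icc 1 M).filter (fun j : ℕ => ¬ MA T v (s * (j : ℤ)))) : ℝ) ≤ (M + 2 ^ T) * av T (FB v) := by
  rw [card_filter]
  push_cast
  rcases hs with rfl | rfl
  · refine le_trans ?_ (sum_Icc_bits (FB_nonneg v) T M)
    apply sum_le_sum
    intro n _
    rw [one_mul]
    by_cases hn : MA T v (n : ℤ)
    · rw [if_neg (not_not.2 hn)]; exact FB_nonneg _ _
    · rw [if_pos hn, MA_pos hn]
  · have h1 : ∑ j ∈ Icc 1 M, (if ¬ MA T v (-1 * (j : ℤ)) then (1 : ℝ) else 0) ≤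
        ∑ z ∈ range M, FB v ((bits T z).map not) := by
      have e : ∑ z ∈ range M, FB v ((bits T z).map not) =
          ∑ j ∈ Icc 1 M, FB v ((bits T (j - 1)).map not) := by
        rw [← Nat.Ico_zero_eq_range]
        have := sum_Ico_add' (fun j => FB v ((bits T (j - 1)).map not)) 0 M 1
        simp only [Nat.add_sub_cancel, zero_add] at this
        rw [this]
        rfl
      rw [e]
      apply sum_le_sum
      intro j hj
      rw [mem_Icc] at hj
      by_cases hn : MA T v (-1 * (j : ℤ))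
      · rw [if_neg (not_not.2 hn)]; exact FB_nonneg _ _
      · rw [if_pos hn, MA_neg (T := T) (v := v) (z := j - 1)]
        have e2 : (-1 : ℤ) - ((j - 1 : ℕ) : ℤ) = -1 * (j : ℤ) := by
          rw [Nat.cast_sub hj.1]; push_cast; ring
        rw [e2]; exact hn
    refine h1.trans ?_
    have h2 := sum_range_bits (F := fun l => FB v (l.map not)) (fun l => FB_nonneg v _) T M
    rw [av_map_not T (FB v)] at h2
    exact h2

open Classical in
/-- the number of the bad `n` -/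
theorem count_MA' {s : ℤ} (hs : s = 1 ∨ s = -1) (T v : ℕ) {Pw : ℕ} (hP : 1 ≤ Pw) (N : ℕ) :
    (#((Icc 1 N).filter (fun n : ℕ => ¬ MA T v (s * ((n / Pw : ℕ) : ℤ)))) : ℝ) ≤
      Pw + (N + Pw * 2 ^ T) * av T (FB v) := by
  have hav : 0 ≤ av T (FB v) := av_nonneg fun l _ => FB_nonneg v l
  set Bd := (Icc 1 (N / Pw)).filter (fun j : ℕ => ¬ MA T v (s * (j : ℤ))) with hBd
  have hsub : (Icc 1 N).filter (fun n : ℕ => ¬ MA T v (s * ((n / Pw : ℕ) : ℤ))) ⊆
      range Pw ∪ Bd.biUnion (fun j => Ico (Pw * j) (Pw * j + Pw)) := by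
    intro n hn
    rw [mem_filter, mem_Icc] at hn
    rw [mem_union, mem_range, mem_biUnion]
    by_cases h : n < Pw
    · left; exact h
    · right
      push Not at h
      refine ⟨n / Pw, ?_, ?_⟩
      · rw [hBd, mem_filter, mem_Icc]
        exact ⟨⟨(Nat.one_le_div_iff (by omega)).2 h, Nat.div_le_div_right hn.1.2⟩, hn.2⟩
      · rw [mem_Ico]
        have h1 := Nat.div_add_mod n Pw
        have h2 := Nat.mod_lt n (show Pw > 0 by omega)
        constructor <;> omega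
  have h1 := (card_le_card hsub).trans (card_union_le _ _)
  rw [card_range] at h1
  have h2 : #(Bd.biUnion (fun j => Ico (Pw * j) (Pw * j + Pw))) ≤ #Bd * Pw := by
    apply card_biUnion_le_card_mul
    intro j _
    rw [Nat.card_Ico]
    omega
  have h3 := count_MA hs T v (N / Pw)
  rw [← hBd] at h3
  have h4 : (#((Icc 1 N).filter (fun n : ℕ => ¬ MA T v (s * ((n / Pw : ℕ) : ℤ)))) : ℝ) ≤
      Pw + #Bd * Pw := by exact_mod_cast h1.trans (Nat.add_le_add_left h2 _)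
  refine h4.trans ?_
  have h5 : (((N / Pw : ℕ) : ℝ) + 2 ^ T) * Pw ≤ N + Pw * 2 ^ T := by
    have : (N / Pw + 2 ^ T) * Pw ≤ N + Pw * 2 ^ T := by
      have := Nat.div_mul_le_self N Pw
      rw [add_mul, mul_comm (2 ^ T) Pw]
      omega
    exact_mod_cast this
  have hP0 : (0 : ℝ) ≤ Pw := by positivity
  have h6 : (#Bd : ℝ) * Pw ≤ (((N / Pw : ℕ) : ℝ) + 2 ^ T) * av T (FB v) * Pw :=
    mul_le_mul_of_nonneg_right h3 hP0
  have h7 : (((N / Pw : ℕ) : ℝ) + 2 ^ T) * av T (FB v) * Pw =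
      ((((N / Pw : ℕ) : ℝ) + 2 ^ T) * Pw) * av T (FB v) := by ring
  have h8 := mul_le_mul_of_nonneg_right h5 hav
  linarith

/-- `T ^ a (2 ^ a z + c) = 3 ^ o z + T ^ a c` -/
theorem shift (a : ℕ) : ∀ c : ℤ, (∃ o : ℕ, o ≤ a ∧ ∀ z : ℤ,
    (Tz 1)^[a] (2 ^ a * z + c) = 3 ^ o * z + (Tz 1)^[a] c) ∧ |(Tz 1)^[a] c| ≤ 2 ^ a * |c| := by
  induction a with
  | zero => intro c; exact ⟨⟨0, le_rfl, fun z => by simp⟩, by simp⟩
  | succ a ih =>
    intro c
    rcases Int.emod_two_eq_zero_or_one c with h | h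
    · have hc : Tz 1 c = c / 2 := by unfold Tz; rw [if_pos h]
      obtain ⟨⟨o, ho, h1⟩, h2⟩ := ih (c / 2)
      refine ⟨⟨o, by omega, fun z => ?_⟩, ?_⟩
      · rw [Function.iterate_succ_apply, Function.iterate_succ_apply, hc, ← h1 z]
        congr 1
        unfold Tz
        have e : (2 : ℤ) ^ (a + 1) * z + c = 2 * (2 ^ a * z) + c := by ring
        rw [e, if_pos (by omega)]
        omega
      · rw [Function.iterate_succ_apply, hc]
        refine h2.trans ?_
        have h3 : |c / 2| ≤ |c| := by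
          rcases abs_cases c with h4 | h4 <;> rcases abs_cases (c / 2) with h5 | h5 <;> omega
        have h4 : (0 : ℤ) < 2 ^ a := by positivity
        have h5 : (2 : ℤ) ^ a * |c / 2| ≤ 2 ^ a * |c| := mul_le_mul_of_nonneg_left h3 h4.le
        have h6 : 0 ≤ (2 : ℤ) ^ a * |c| := by positivity
        rw [pow_succ]
        linarith
    · have hc : Tz 1 c = (3 * c + 1) / 2 := by unfold Tz; rw [if_neg (by omega)]
      obtain ⟨⟨o, ho, h1⟩, h2⟩ := ih ((3 * c + 1) / 2)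
      refine ⟨⟨o + 1, by omega, fun z => ?_⟩, ?_⟩
      · have e3 : (3 : ℤ) ^ (o + 1) * z = 3 ^ o * (3 * z) := by ring
        rw [Function.iterate_succ_apply, Function.iterate_succ_apply, hc, e3, ← h1 (3 * z)]
        congr 1
        unfold Tz
        have e : (2 : ℤ) ^ (a + 1) * z + c = 2 * (2 ^ a * z) + c := by ring
        have e2 : (2 : ℤ) ^ a * (3 * z) = 3 * (2 ^ a * z) := by ring
        rw [e, e2, if_neg (by omega)]
        generalize (2 : ℤ) ^ a * z = y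
        omega
      · rw [Function.iterate_succ_apply, hc]
        refine h2.trans ?_
        have h3 : |(3 * c + 1) / 2| ≤ 2 * |c| := by
          rcases abs_cases c with h4 | h4 <;> rcases abs_cases ((3 * c + 1) / 2) with h5 | h5 <;> omega
        have h4 : (0 : ℤ) < 2 ^ a := by positivity
        have h5 : (2 : ℤ) ^ a * |(3 * c + 1) / 2| ≤ 2 ^ a * (2 * |c|) := mul_le_mul_of_nonneg_left h3 h4.le
        rw [pow_succ]
        linarith

/-- the neighbours have merged -/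
theorem nbr_of_MA {T v B : ℕ} (hB : 6 * B + 1 ≤ v) {m0 ρ : ℤ} (hρ : |ρ| ≤ 3 ^ B) (h : MA T v m0)
    {a a' b b' : ℕ} (ha : a' ≤ B) (hb : b ≤ B) (hb' : b' ≤ B) {m : ℤ}
    (hm : |2 ^ a * 3 ^ b * m - 2 ^ a' * 3 ^ b' * (3 ^ B * m0 + ρ)| ≤ 4 ^ B) :
    (Tz 1)^[T + a'] m = (Tz 1)^[T + a] (3 ^ B * m0 + ρ) := by
  set x : ℤ := 3 ^ B * m0 + ρ with hx
  set r : ℤ := 2 ^ a * 3 ^ b * m - 2 ^ a' * 3 ^ b' * x with hr
  have h3B : (3 : ℤ) ^ B = 3 ^ b * 3 ^ (B - b) := by rw [← pow_add]; congr 1; omega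
  obtain ⟨c, hc⟩ : ∃ c : ℤ, 2 ^ a' * 3 ^ b' * ρ + r = 3 ^ b * c := by
    refine ⟨2 ^ a * m - 2 ^ a' * 3 ^ b' * 3 ^ (B - b) * m0, ?_⟩
    rw [hr, hx, h3B]; ring
  have h3b : (0 : ℤ) < 3 ^ b := by positivity
  have hY : 2 ^ a * m = 2 ^ a' * (3 ^ (b' + (B - b)) * m0) + c := by
    apply mul_left_cancel₀ h3b.ne'
    rw [mul_add, ← hc, hr, hx, h3B, pow_add]; ring
  have h2B : (0 : ℤ) < 2 ^ B := by positivity
  have h3B' : (0 : ℤ) < 3 ^ B := by positivity
  have hcb : |c| ≤ 2 * 18 ^ B := by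
    have h1 : |c| ≤ |3 ^ b * c| := by
      rw [abs_mul, abs_of_pos h3b]
      have : (1 : ℤ) ≤ 3 ^ b := one_le_pow₀ (by norm_num)
      nlinarith [abs_nonneg c]
    rw [← hc] at h1
    have h2 : |2 ^ a' * 3 ^ b' * ρ + r| ≤ |2 ^ a' * 3 ^ b' * ρ| + |r| := abs_add_le _ _
    have h3 : |2 ^ a' * 3 ^ b' * ρ| ≤ 18 ^ B := by
      rw [abs_mul, abs_of_pos (by positivity)]
      have e : (18 : ℤ) ^ B = 2 ^ B * 3 ^ B * 3 ^ B := by rw [← mul_pow, ← mul_pow]; norm_num
      rw [e]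
      apply mul_le_mul _ hρ (abs_nonneg _) (by positivity)
      exact mul_le_mul (pow_le_pow_right₀ (by norm_num) ha) (pow_le_pow_right₀ (by norm_num) hb')
        (by positivity) h2B.le
    have h4 : (4 : ℤ) ^ B ≤ 18 ^ B := pow_le_pow_left₀ (by norm_num) (by norm_num) B
    linarith
  obtain ⟨⟨o, ho, h1⟩, h2⟩ := shift a' c
  have h5 : (Tz 1)^[a'] (2 ^ a * m) = ev (o + (b' + (B - b)), (Tz 1)^[a'] c) m0 := by
    rw [hY, h1]
    unfold ev
    simp only
    rw [pow_add 3 o]; ring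
  have h6 : ((o + (b' + (B - b)), (Tz 1)^[a'] c) : ℕ × ℤ) ∈ Qg v := by
    rw [mem_Qg]
    refine ⟨by simp only; omega, ?_⟩
    simp only
    have h7 : (2 : ℤ) ^ a' ≤ 2 ^ B := pow_le_pow_right₀ (by norm_num) ha
    have h8 : (2 : ℤ) ^ a' * |c| ≤ 2 ^ B * (2 * 18 ^ B) :=
      mul_le_mul h7 hcb (abs_nonneg _) h2B.le
    have e : (2 : ℤ) ^ B * (2 * 18 ^ B) = 2 * 36 ^ B := by
      have : (36 : ℤ) ^ B = 2 ^ B * 18 ^ B := by rw [← mul_pow]; norm_num
      rw [this]; ring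
    have h9 : (36 : ℤ) ^ B ≤ 64 ^ B := pow_le_pow_left₀ (by norm_num) (by norm_num) B
    have h10 : 2 * (64 : ℤ) ^ B ≤ 2 ^ v := by
      have e2 : 2 * (64 : ℤ) ^ B = 2 ^ (6 * B + 1) := by
        rw [show (64 : ℤ) = 2 ^ 6 by norm_num, ← pow_mul, pow_succ]; ring
      rw [e2]
      exact pow_le_pow_right₀ (by norm_num) hB
    linarith
  have h7 : ((B, ρ) : ℕ × ℤ) ∈ Qg v := by
    rw [mem_Qg]
    refine ⟨by simp only; omega, ?_⟩
    simp only
    refine hρ.trans ?_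
    calc (3 : ℤ) ^ B ≤ 4 ^ B := pow_le_pow_left₀ (by norm_num) (by norm_num) B
      _ = 2 ^ (2 * B) := by rw [pow_mul]; norm_num
      _ ≤ 2 ^ v := pow_le_pow_right₀ (by norm_num) (by omega)
  have h8 := h _ h6
  have h9 := h _ h7
  rw [← h5, ← Function.iterate_add_apply] at h8
  have e9 : ev ((B, ρ) : ℕ × ℤ) m0 = x := by unfold ev; rfl
  rw [e9] at h9
  have h10 : (Tz 1)^[T + a'] (2 ^ a * m) = (Tz 1)^[T] x := h8.trans h9.symm
  have h11 := congrArg (fun y => (Tz 1)^[a] y) h10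
  rw [← Function.iterate_add_apply, ← Function.iterate_add_apply, add_comm a (T + a'),
    Function.iterate_add_apply (Tz 1) (T + a') a, add_comm a T] at h11
  have h12 : (Tz 1)^[a] (2 ^ a * m) = m := by
    have : ∀ (a : ℕ) (m : ℤ), (Tz 1)^[a] (2 ^ a * m) = m := by
      intro a
      induction a with
      | zero => intro m; simp
      | succ a ih =>
        intro m
        rw [Function.iterate_succ_apply]
        have e : Tz 1 (2 ^ (a + 1) * m) = 2 ^ a * m := by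
          unfold Tz
          have e : (2 : ℤ) ^ (a + 1) * m = 2 * (2 ^ a * m) := by ring
          rw [e, if_pos (by omega)]
          omega
        rw [e, ih]
    exact this a m
  rw [h12] at h11
  exact h11

/-- the choice of the parameter `m` in terms of `s` -/
theorem choose_m2 (m0 : ℕ) : ∀ᶠ s : ℕ in atTop, ∃ m ≥ m0, 2 * (4 ^ m * m ^ 30) ≤ s / 4 ∧
    ∀ z w : ℝ, 0 ≤ z → z ≤ s → 0.3 * s ≤ w → √ z / (Real.log w) ^ 16 ≤ 2 ^ m / 128 := by
  have hy : ∀ᶠ y : ℕ in atTop, 8 * y ^ 30 * 4 ^ m0 ≤ 2 ^ y := by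
    have h1 : Tendsto (fun n : ℕ => (n : ℝ) ^ 30 / 2 ^ n) atTop (nhds 0) :=
      tendsto_pow_const_div_const_pow_of_one_lt 30 (by norm_num)
    filter_upwards [h1.eventually (gt_mem_nhds (show (0 : ℝ) < 1 / (8 * 4 ^ m0) by positivity))] with y hy
    rw [div_lt_div_iff₀ (by positivity) (by positivity)] at hy
    have : ((8 * y ^ 30 * 4 ^ m0 : ℕ) : ℝ) ≤ ((2 ^ y : ℕ) : ℝ) := by
      push_cast
      linarith
    exact_mod_cast this
  have hlog : Tendsto (fun s : ℕ => Real.log s) atTop atTop :=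
    Real.tendsto_log_atTop.comp tendsto_natCast_atTop_atTop
  filter_upwards [tendsto_natlog.eventually hy, hlog.eventually_ge_atTop (3 * 10 ^ 10),
    eventually_ge_atTop 100, tendsto_natlog.eventually (eventually_ge_atTop 4)] with s h1 h2 h3 h4
  set y := Nat.log 2 s with hydef
  have hs2 : 2 ^ y ≤ s := Nat.pow_log_le_self 2 (by omega)
  have hypos : 0 < 8 * y ^ 30 := by positivity
  set d := s / (8 * y ^ 30) with hd
  have hd0 : 4 ^ m0 ≤ d := by
    rw [hd, Nat.le_div_iff_mul_le hypos]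
    calc 4 ^ m0 * (8 * y ^ 30) = 8 * y ^ 30 * 4 ^ m0 := by ring
      _ ≤ 2 ^ y := h1
      _ ≤ s := hs2
  have hdpos : d ≠ 0 := by
    have : 0 < 4 ^ m0 := by positivity
    omega
  set m := Nat.log 4 d with hm
  have hm1 : 4 ^ m ≤ d := Nat.pow_log_le_self 4 hdpos
  have hm2 : d < 4 ^ (m + 1) := Nat.lt_pow_succ_log_self (by norm_num) d
  have hds : d * (8 * y ^ 30) ≤ s := Nat.div_mul_le_self s _
  have hmy : m ≤ y := by
    rw [hydef]
    apply (Nat.le_log_iff_pow_le (by norm_num) (by omega)).2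
    calc 2 ^ m ≤ 4 ^ m := Nat.pow_le_pow_left (by norm_num) m
      _ ≤ d := hm1
      _ ≤ d * (8 * y ^ 30) := Nat.le_mul_of_pos_right d hypos
      _ ≤ s := hds
  refine ⟨m, (Nat.le_log_iff_pow_le (by norm_num) hdpos).2 hd0, ?_, ?_⟩
  · rw [Nat.le_div_iff_mul_le (by norm_num)]
    calc 2 * (4 ^ m * m ^ 30) * 4 = 4 ^ m * (8 * m ^ 30) := by ring
      _ ≤ d * (8 * y ^ 30) := Nat.mul_le_mul hm1 (Nat.mul_le_mul_left 8 (Nat.pow_le_pow_left hmy 30))
      _ ≤ s := hds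
  · intro z w hz0 hz hw
    have hsr : (100 : ℝ) ≤ s := by exact_mod_cast h3
    have hs0 : (0 : ℝ) < s := by linarith
    set ℓ := Real.log s with hℓ
    have hℓ0 : 0 < ℓ := by linarith
    -- `y ≤ 1.5 ℓ`
    have hyl : (y : ℝ) ≤ 1.5 * ℓ := by
      have h5 : (2 : ℝ) ^ y ≤ s := by exact_mod_cast hs2
      have h6 := Real.log_le_log (by positivity) h5
      rw [Real.log_pow] at h6
      have h7 := Real.log_two_gt_d9
      have h8 : (y : ℝ) * 0.6931471803 ≤ ℓ :=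
        (mul_le_mul_of_nonneg_left h7.le (by positivity)).trans h6
      linarith
    -- `s ≤ 32 y ^ 30 4 ^ m`
    have hs3 : (s : ℝ) ≤ 32 * (y : ℝ) ^ 30 * 4 ^ m := by
      have h5 : s < 4 ^ (m + 1) * (8 * y ^ 30) := by
        rw [hd] at hm2
        exact (Nat.div_lt_iff_lt_mul hypos).1 hm2
      have h6 : s ≤ 32 * y ^ 30 * 4 ^ m := by
        calc s ≤ 4 ^ (m + 1) * (8 * y ^ 30) := h5.le
          _ = 32 * y ^ 30 * 4 ^ m := by ring
      exact_mod_cast h6
    have hsq : √ z ≤ 6 * (y : ℝ) ^ 15 * 2 ^ m := by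
      rw [Real.sqrt_le_left (by positivity)]
      refine (hz.trans hs3).trans ?_
      have e : (6 * (y : ℝ) ^ 15 * 2 ^ m) ^ 2 = 36 * (y : ℝ) ^ 30 * 4 ^ m := by
        rw [mul_pow, mul_pow, ← pow_mul, ← pow_mul, mul_comm m 2, pow_mul (2 : ℝ) 2 m]
        norm_num
      rw [e]
      have : (0 : ℝ) ≤ (y : ℝ) ^ 30 * 4 ^ m := by positivity
      nlinarith
    have hlw : ℓ / 2 ≤ Real.log w := by
      have h5 : √ (s : ℝ) ≤ w := by
        refine le_trans ?_ hw
        rw [Real.sqrt_le_left (by positivity)]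
        nlinarith
      have h6 := Real.log_le_log (Real.sqrt_pos.2 hs0) h5
      rw [Real.log_sqrt hs0.le] at h6
      exact h6
    have hlw0 : 0 < Real.log w := by linarith
    rw [div_le_iff₀ (by positivity)]
    have h5 : (y : ℝ) ^ 15 ≤ (1.5 * ℓ) ^ 15 := pow_le_pow_left₀ (by positivity) hyl 15
    have h6 : (ℓ / 2) ^ 16 ≤ (Real.log w) ^ 16 := pow_le_pow_left₀ (by positivity) hlw 16
    have h2m : (0 : ℝ) < 2 ^ m := by positivity
    calc √ z ≤ 6 * (y : ℝ) ^ 15 * 2 ^ m := hsq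
      _ ≤ 6 * (1.5 * ℓ) ^ 15 * 2 ^ m := by
          apply mul_le_mul_of_nonneg_right _ h2m.le
          linarith
      _ ≤ 2 ^ m / 128 * (ℓ / 2) ^ 16 := by
          have e1 : 6 * (1.5 * ℓ) ^ 15 * 2 ^ m = (6 * 1.5 ^ 15) * (ℓ ^ 15 * 2 ^ m) := by ring
          have e2 : 2 ^ m / 128 * (ℓ / 2) ^ 16 = (1 / 128 / 2 ^ 16 * ℓ) * (ℓ ^ 15 * 2 ^ m) := by ring
          rw [e1, e2]
          apply mul_le_mul_of_nonneg_right _ (by positivity)
          have : (1 / 128 / 2 ^ 16 : ℝ) * (3 * 10 ^ 10) ≤ 1 / 128 / 2 ^ 16 * ℓ :=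
            mul_le_mul_of_nonneg_left h2 (by norm_num)
          refine le_trans ?_ this
          norm_num
      _ ≤ 2 ^ m / 128 * (Real.log w) ^ 16 := mul_le_mul_of_nonneg_left h6 (by positivity)

end Pool.Agent.W38.AF
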