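import Pool.Agent.H33.G.R_seed8.H499R2.CO.R2

/-! Coalescing runs: averages over bit vectors, forms `3 ^ j m + c` and their pairs. -/

set_option autoImplicit false

namespace Pool.Agent.W38.CR

open Finset Pool.Agent.H499R2.CO

/-! ### averages over the bit vectors of length `k` -/

/-- the average of `H` over the lists of length `k` -/
noncomputable def av : ℕ → (List Bool → ℝ) → ℝ
  | 0, H => H []
  | k + 1, H => (av k (fun l => H (false :: l)) + av k (fun l => H (true :: l))) / 2

theorem av_mono {k : ℕ} : ∀ {H G : List Bool → ℝ}, (∀ l, l.length = k → H l ≤ G l) →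
    av k H ≤ av k G := by
  induction k with
  | zero => intro H G h; exact h [] rfl
  | succ k ih =>
    intro H G h
    have h1 := ih (H := fun l => H (false :: l)) (G := fun l => G (false :: l))
      (fun l hl => h _ (by simp [hl]))
    have h2 := ih (H := fun l => H (true :: l)) (G := fun l => G (true :: l))
      (fun l hl => h _ (by simp [hl]))
    simp only [av]
    linarith

theorem av_congr {k : ℕ} {H G : List Bool → ℝ} (h : ∀ l, l.length = k → H l = G l) :
    av k H = av k G :=
  le_antisymm (av_mono fun l hl => (h l hl).le) (av_mono fun l hl => (h l hl).ge)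

theorem av_const (k : ℕ) (c : ℝ) : av k (fun _ => c) = c := by
  induction k with
  | zero => rfl
  | succ k ih => simp only [av]; rw [ih]; ring

theorem av_add (k : ℕ) : ∀ (H G : List Bool → ℝ), av k (fun l => H l + G l) = av k H + av k G := by
  induction k with
  | zero => intro H G; rfl
  | succ k ih => intro H G; simp only [av]; rw [ih, ih]; ring

theorem av_smul (k : ℕ) (c : ℝ) : ∀ (H : List Bool → ℝ), av k (fun l => c * H l) = c * av k H := by
  induction k with
  | zero => intro H; rfl
  | succ k ih => intro H; simp only [av]; rw [ih, ih]; ring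

theorem av_sum (k : ℕ) {ι : Type*} (s : Finset ι) (H : ι → List Bool → ℝ) :
    av k (fun l => ∑ i ∈ s, H i l) = ∑ i ∈ s, av k (H i) := by
  classical
  induction s using Finset.induction_on with
  | empty => simp only [sum_empty]; exact av_const k 0
  | insert a s ha ih =>
    simp only [sum_insert ha]
    rw [av_add, ih]

theorem av_nonneg {k : ℕ} {H : List Bool → ℝ} (h : ∀ l, l.length = k → 0 ≤ H l) : 0 ≤ av k H := by
  rw [← av_const k 0]
  exact av_mono h

theorem av_append (k m : ℕ) : ∀ (H : List Bool → ℝ),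
    av (k + m) H = av k (fun l => av m (fun l' => H (l ++ l'))) := by
  induction k with
  | zero => intro H; simp [av]
  | succ k ih =>
    intro H
    rw [show k + 1 + m = (k + m) + 1 by ring]
    simp only [av]
    rw [ih, ih]
    rfl

/-! ### forms -/

/-- a bit as an integer -/
def bz (b : Bool) : ℤ := if b then 1 else 0

/-- the value at `m = b` of the form `3 ^ j m + c` -/
def vl (b : Bool) (A : ℕ × ℤ) : ℤ := A.2 + 3 ^ A.1 * bz b

/-- one step of the form `3 ^ j m + c`, when the last bit of `m` is `b` -/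
def fs (b : Bool) (A : ℕ × ℤ) : ℕ × ℤ :=
  if vl b A % 2 = 0 then (A.1, vl b A / 2) else (A.1 + 1, (3 * vl b A + 1) / 2)

/-- several steps -/
def fl : List Bool → ℕ × ℤ → ℕ × ℤ
  | [], A => A
  | b :: l, A => fl l (fs b A)

theorem fl_append (l l' : List Bool) : ∀ A, fl (l ++ l') A = fl l' (fl l A) := by
  induction l with
  | nil => intro A; rfl
  | cons b l ih => intro A; simp only [List.cons_append, fl]; exact ih _

theorem fs_level (b : Bool) (A : ℕ × ℤ) : A.1 ≤ (fs b A).1 ∧ (fs b A).1 ≤ A.1 + 1 := by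
  unfold fs
  split_ifs <;> simp

theorem fl_level (l : List Bool) : ∀ A : ℕ × ℤ, A.1 ≤ (fl l A).1 ∧ (fl l A).1 ≤ A.1 + l.length := by
  induction l with
  | nil => intro A; simp [fl]
  | cons b l ih =>
    intro A
    have h1 := fs_level b A
    have h2 := ih (fs b A)
    simp only [fl, List.length_cons]
    omega

/-- the state of a pair of forms -/
def st (A B : ℕ × ℤ) : ℕ × ℤ :=
  if A.1 ≤ B.1 then (B.1 - A.1, B.2 - 3 ^ (B.1 - A.1) * A.2)
  else (A.1 - B.1, A.2 - 3 ^ (A.1 - B.1) * B.2)

/-- functions of the state that do not see the order of the pair -/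
def Ev (F : ℕ × ℤ → ℝ) : Prop := ∀ r : ℤ, F (0, -r) = F (0, r)

theorem st_comm {F : ℕ × ℤ → ℝ} (hF : Ev F) (A B : ℕ × ℤ) : F (st A B) = F (st B A) := by
  unfold st
  rcases lt_trichotomy A.1 B.1 with h | h | h
  · rw [if_pos h.le, if_neg (by omega)]
  · rw [if_pos h.le, if_pos h.ge, h, Nat.sub_self, pow_zero, one_mul, one_mul]
    rw [← hF (B.2 - A.2)]
    congr 2
    ring
  · rw [if_neg (by omega), if_pos h.le]

theorem st_self (A : ℕ × ℤ) : st A A = (0, 0) := by
  unfold st
  simp

theorem st_eq_zero {A B : ℕ × ℤ} : st A B = (0, 0) ↔ A = B := by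
  constructor
  · intro h
    unfold st at h
    split_ifs at h with h1
    · rw [Prod.mk.injEq] at h
      have h2 : A.1 = B.1 := by omega
      have h3 := h.2
      rw [h.1] at h3
      exact Prod.ext h2 (by simp at h3; linarith)
    · rw [Prod.mk.injEq] at h
      omega
  · rintro rfl; exact st_self A

theorem odd3z (i : ℕ) : ∃ m : ℤ, (3 : ℤ) ^ i = 2 * m + 1 := by
  have h : Odd ((3 : ℤ) ^ i) := Odd.pow (by decide)
  exact h

theorem vl_diff {A B : ℕ × ℤ} (h : A.1 ≤ B.1) (b : Bool) :
    B.2 - 3 ^ (B.1 - A.1) * A.2 = vl b B - 3 ^ (B.1 - A.1) * vl b A := by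
  unfold vl
  have e : (3 : ℤ) ^ B.1 = 3 ^ (B.1 - A.1) * 3 ^ A.1 := by
    rw [← pow_add]; congr 1; omega
  rw [e]; ring

/-- one step of a pair, in the right order -/
theorem st_fs {A B : ℕ × ℤ} (h : A.1 ≤ B.1) (b : Bool) :
    st (fs b A) (fs b B) = step (st A B) (decide (vl b A % 2 = 1)) := by
  have hst : st A B = (B.1 - A.1, vl b B - 3 ^ (B.1 - A.1) * vl b A) := by
    unfold st
    rw [if_pos h, vl_diff h b]
  rw [hst]
  set i := B.1 - A.1 with hi
  set x := vl b A with hx
  set y := vl b B with hy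
  obtain ⟨m, hm⟩ := odd3z i
  have hxx : (3 : ℤ) ^ i * x = 2 * (m * x) + x := by rw [hm]; ring
  rcases Int.emod_two_eq_zero_or_one x with h1 | h1 <;> rcases Int.emod_two_eq_zero_or_one y with h2 | h2
  · -- both even
    have e1 : fs b A = (A.1, x / 2) := by unfold fs; rw [← hx, if_pos h1]
    have e2 : fs b B = (B.1, y / 2) := by unfold fs; rw [← hy, if_pos h2]
    have hr : (y - 3 ^ i * x) % 2 = 0 := by omega
    rw [e1, e2, decide_eq_false (by omega), step_ef hr]
    unfold st
    rw [if_pos h]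
    simp only
    rw [← hi]
    congr 1
    obtain ⟨x', hx'⟩ : ∃ x', x = 2 * x' := ⟨x / 2, by omega⟩
    obtain ⟨y', hy'⟩ : ∃ y', y = 2 * y' := ⟨y / 2, by omega⟩
    have e3 : y - 3 ^ i * x = 2 * (y' - 3 ^ i * x') := by rw [hx', hy']; ring
    rw [e3, hx', hy', Int.mul_ediv_cancel_left _ (by norm_num), Int.mul_ediv_cancel_left _ (by norm_num),
      Int.mul_ediv_cancel_left _ (by norm_num)]
  · -- `x` even, `y` odd
    have e1 : fs b A = (A.1, x / 2) := by unfold fs; rw [← hx, if_pos h1]
    have e2 : fs b B = (B.1 + 1, (3 * y + 1) / 2) := by unfold fs; rw [← hy, if_neg (by omega)]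
    have hr : (y - 3 ^ i * x) % 2 = 1 := by omega
    rw [e1, e2, decide_eq_false (by omega)]
    unfold st
    simp only
    rw [if_pos (by omega)]
    obtain ⟨x', hx'⟩ : ∃ x', x = 2 * x' := ⟨x / 2, by omega⟩
    obtain ⟨y', hy'⟩ : ∃ y', y = 2 * y' + 1 := ⟨y / 2, by omega⟩
    have e3 : B.1 + 1 - A.1 = i + 1 := by omega
    have e4 : (3 * y + 1) / 2 = 3 * y' + 2 := by omega
    have e5 : x / 2 = x' := by omega
    have e6 : (3 * (y - 3 ^ i * x) + 1) / 2 = 3 * y' + 2 - 3 ^ (i + 1) * x' := by
      have : 3 * (y - 3 ^ i * x) + 1 = 2 * (3 * y' + 2 - 3 ^ (i + 1) * x') := by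
        rw [hx', hy', pow_succ]; ring
      rw [this, Int.mul_ediv_cancel_left _ (by norm_num)]
    rw [e3, e4, e5]
    rcases Nat.eq_zero_or_pos i with h0 | h0
    · rw [h0] at hr e6 ⊢
      rw [step_0f hr, e6]
    · obtain ⟨i', hi'⟩ : ∃ i', i = i' + 1 := ⟨i - 1, by omega⟩
      rw [hi'] at hr e6 ⊢
      rw [step_sf hr, e6]
  · -- `x` odd, `y` even
    have e1 : fs b A = (A.1 + 1, (3 * x + 1) / 2) := by unfold fs; rw [← hx, if_neg (by omega)]
    have e2 : fs b B = (B.1, y / 2) := by unfold fs; rw [← hy, if_pos h2]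
    have hr : (y - 3 ^ i * x) % 2 = 1 := by omega
    rw [e1, e2, decide_eq_true h1]
    obtain ⟨x', hx'⟩ : ∃ x', x = 2 * x' + 1 := ⟨x / 2, by omega⟩
    obtain ⟨y', hy'⟩ : ∃ y', y = 2 * y' := ⟨y / 2, by omega⟩
    have e4 : (3 * x + 1) / 2 = 3 * x' + 2 := by omega
    have e5 : y / 2 = y' := by omega
    rw [e4, e5]
    rcases Nat.eq_zero_or_pos i with h0 | h0
    · rw [h0] at hr ⊢
      rw [step_0t hr]
      unfold st
      simp only
      rw [if_neg (by omega)]
      have e3 : A.1 + 1 - B.1 = 1 := by omega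
      rw [e3, pow_one]
      congr 1
      have : 1 - 3 * (y - 3 ^ 0 * x) = 2 * (3 * x' + 2 - 3 * y') := by rw [hx', hy']; ring
      rw [this, Int.mul_ediv_cancel_left _ (by norm_num)]
    · obtain ⟨i', hi'⟩ : ∃ i', i = i' + 1 := ⟨i - 1, by omega⟩
      rw [hi'] at hr ⊢
      rw [step_st hr]
      unfold st
      simp only
      rw [if_pos (by omega)]
      have e3 : B.1 - (A.1 + 1) = i' := by omega
      rw [e3]
      congr 1
      obtain ⟨m', hm'⟩ := odd3z i'
      have : y - 3 ^ (i' + 1) * x - 3 ^ i' = 2 * (y' - 3 ^ i' * (3 * x' + 2)) := by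
        rw [hx', hy', pow_succ]; ring
      rw [this, Int.mul_ediv_cancel_left _ (by norm_num)]
  · -- both odd
    have e1 : fs b A = (A.1 + 1, (3 * x + 1) / 2) := by unfold fs; rw [← hx, if_neg (by omega)]
    have e2 : fs b B = (B.1 + 1, (3 * y + 1) / 2) := by unfold fs; rw [← hy, if_neg (by omega)]
    have hr : (y - 3 ^ i * x) % 2 = 0 := by omega
    rw [e1, e2, decide_eq_true h1, step_et hr]
    unfold st
    simp only
    rw [if_pos (by omega)]
    have e3 : B.1 + 1 - (A.1 + 1) = i := by omega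
    rw [e3]
    congr 1
    obtain ⟨x', hx'⟩ : ∃ x', x = 2 * x' + 1 := ⟨x / 2, by omega⟩
    obtain ⟨y', hy'⟩ : ∃ y', y = 2 * y' + 1 := ⟨y / 2, by omega⟩
    have e4 : (3 * x + 1) / 2 = 3 * x' + 2 := by omega
    have e5 : (3 * y + 1) / 2 = 3 * y' + 2 := by omega
    rw [e4, e5]
    have : 3 * (y - 3 ^ i * x) + 1 - 3 ^ i = 2 * (3 * y' + 2 - 3 ^ i * (3 * x' + 2)) := by
      rw [hx', hy']; ring
    rw [this, Int.mul_ediv_cancel_left _ (by norm_num)]

/-- the two values of the bit exchange the parities -/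
theorem avg_two {F : ℕ × ℤ → ℝ} {A B : ℕ × ℤ} (h : A.1 ≤ B.1) :
    F (st (fs false A) (fs false B)) + F (st (fs true A) (fs true B)) = 2 * P F (st A B) := by
  rw [st_fs h, st_fs h]
  unfold P
  obtain ⟨m, hm⟩ := odd3z A.1
  have e0 : vl false A = A.2 := by simp [vl, bz]
  have e1 : vl true A = A.2 + (2 * m + 1) := by simp [vl, bz, hm]
  rw [e0, e1]
  rcases Int.emod_two_eq_zero_or_one A.2 with h1 | h1
  · rw [decide_eq_false (by omega), decide_eq_true (by omega)]; ring
  · rw [decide_eq_true h1, decide_eq_false (by omega)]; ring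

theorem pair_avg {F : ℕ × ℤ → ℝ} (hF : Ev F) (A B : ℕ × ℤ) :
    F (st (fs false A) (fs false B)) + F (st (fs true A) (fs true B)) = 2 * P F (st A B) := by
  rcases le_total A.1 B.1 with h | h
  · exact avg_two h
  · rw [st_comm hF (fs false A), st_comm hF (fs true A), avg_two h]
    have : P F (st B A) = P F (st A B) := by
      rcases Nat.lt_or_ge B.1 A.1 with h' | h'
      · have : st B A = st A B := by
          unfold st
          rw [if_pos h, if_neg (by omega)]
        rw [this]
      · -- equal levels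
        have h1 := avg_two (F := F) h'
        have h2 := avg_two (F := F) h
        rw [st_comm hF (fs false A), st_comm hF (fs true A)] at h1
        linarith
    rw [this]

theorem Ev_P {F : ℕ × ℤ → ℝ} (hF : Ev F) : Ev (P F) := by
  intro r
  unfold P
  rcases Int.emod_two_eq_zero_or_one r with h | h
  · have h' : (-r) % 2 = 0 := by omega
    rw [step_ef h, step_et h, step_ef h', step_et h']
    obtain ⟨r', hr'⟩ : ∃ r', r = 2 * r' := ⟨r / 2, by omega⟩
    have e1 : -r / 2 = -r' := by omega
    have e2 : r / 2 = r' := by omega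
    have e3 : (3 * -r + 1 - 3 ^ 0) / 2 = -(3 * r') := by omega
    have e4 : (3 * r + 1 - 3 ^ 0) / 2 = 3 * r' := by omega
    rw [e1, e2, e3, e4, hF, hF]
  · have h' : (-r) % 2 = 1 := by omega
    rw [step_0f h, step_0t h, step_0f h', step_0t h']
    have e1 : (3 * -r + 1) / 2 = (1 - 3 * r) / 2 := by congr 1; ring
    have e2 : (1 - 3 * -r) / 2 = (3 * r + 1) / 2 := by congr 1; ring
    rw [e1, e2]; ring

theorem Ev_iter {F : ℕ × ℤ → ℝ} (hF : Ev F) (k : ℕ) : Ev (P^[k] F) := by
  induction k with
  | zero => exact hF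
  | succ k ih => rw [Function.iterate_succ_apply']; exact Ev_P ih

/-- averages of functions of a pair -/
theorem av_pair {F : ℕ × ℤ → ℝ} (hF : Ev F) (k : ℕ) : ∀ A B : ℕ × ℤ,
    av k (fun l => F (st (fl l A) (fl l B))) = (P^[k] F) (st A B) := by
  induction k with
  | zero => intro A B; rfl
  | succ k ih =>
    intro A B
    simp only [av, fl]
    rw [ih, ih, pair_avg (Ev_iter hF k), Function.iterate_succ_apply']
    ring

theorem Ev_q (k : ℕ) : Ev (q step (0, 0) k) := by
  induction k with
  | zero =>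
    intro r
    by_cases h : r = 0
    · rw [h, neg_zero]
    · rw [q_zero_ne step (0, 0) (by simpa using h), q_zero_ne step (0, 0) (by simpa using h)]
  | succ k ih =>
    intro r
    by_cases h : r = 0
    · rw [h, neg_zero]
    · rw [q_succ step (0, 0) (by simpa using h), q_succ step (0, 0) (by simpa using h)]
      exact Ev_P ih r

/-- `1` when the forms differ, `0` when they agree -/
noncomputable def nq (A B : ℕ × ℤ) : ℝ := if A = B then 0 else 1

theorem nq_self (A : ℕ × ℤ) : nq A A = 0 := if_pos rfl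

theorem nq_ne {A B : ℕ × ℤ} (h : A ≠ B) : nq A B = 1 := if_neg h

theorem nq_nonneg (A B : ℕ × ℤ) : 0 ≤ nq A B := by
  unfold nq; split_ifs <;> norm_num

theorem nq_le_one (A B : ℕ × ℤ) : nq A B ≤ 1 := by
  unfold nq; split_ifs <;> norm_num

/-- probability that two forms have not merged -/
theorem av_ne (k : ℕ) : ∀ A B : ℕ × ℤ,
    av k (fun l => nq (fl l A) (fl l B)) = q step (0, 0) k (st A B) := by
  induction k with
  | zero =>
    intro A B
    change nq A B = _
    by_cases h : A = B
    · subst h; rw [nq_self, st_self, q_o]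
    · rw [nq_ne h, q_zero_ne step (0, 0) (fun hc => h (st_eq_zero.1 hc))]
  | succ k ih =>
    intro A B
    change (av k (fun l => nq (fl l (fs false A)) (fl l (fs false B))) +
      av k (fun l => nq (fl l (fs true A)) (fl l (fs true B)))) / 2 = _
    rw [ih, ih]
    by_cases h : A = B
    · subst h
      rw [st_self, st_self, st_self, q_o, q_o]; norm_num
    · rw [q_succ step (0, 0) (fun hc => h (st_eq_zero.1 hc))]
      have := pair_avg (Ev_q k) A B
      unfold P at this
      rw [this]; ring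

end Pool.Agent.W38.CR
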