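import Pool.Agent.H33.G.R_seed8.W38.CRa

/-! Coalescing runs: the number of different forms decreases (first phase). -/

set_option autoImplicit false

namespace Pool.Agent.W38.CR

open Finset Pool.Agent.H499R2.CO

/-- the forms after the bits `l` -/
def im (l : List Bool) (Q : Finset (ℕ × ℤ)) : Finset (ℕ × ℤ) := Q.image (fl l)

theorem im_append (l l' : List Bool) (Q : Finset (ℕ × ℤ)) : im (l ++ l') Q = im l' (im l Q) := by
  unfold im
  rw [image_image]
  congr 1
  funext A
  exact fl_append l l' A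

theorem card_im_le (l : List Bool) (Q : Finset (ℕ × ℤ)) : #(im l Q) ≤ #Q := card_image_le

/-- sum over pairs of the sizes of the offsets -/
noncomputable def Phi (Q : Finset (ℕ × ℤ)) : ℝ := ∑ A ∈ Q, ∑ B ∈ Q, pw (st A B)

theorem Phi_nonneg (Q : Finset (ℕ × ℤ)) : 0 ≤ Phi Q :=
  sum_nonneg fun _ _ => sum_nonneg fun _ _ => pw_nonneg _

theorem sum_image_le' {α β : Type*} [DecidableEq β] (s : Finset α) (f : α → β) {g : β → ℝ}
    (hg : ∀ x, 0 ≤ g x) : ∑ x ∈ s.image f, g x ≤ ∑ x ∈ s, g (f x) := by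
  classical
  induction s using Finset.induction_on with
  | empty => simp
  | insert a s ha ih =>
    rw [image_insert, sum_insert ha]
    by_cases h : f a ∈ s.image f
    · rw [insert_eq_of_mem h]
      have := hg (f a)
      linarith
    · rw [sum_insert h]
      linarith

theorem Phi_im (l : List Bool) (Q : Finset (ℕ × ℤ)) :
    Phi (im l Q) ≤ ∑ A ∈ Q, ∑ B ∈ Q, pw (st (fl l A) (fl l B)) := by
  unfold Phi im
  refine (sum_image_le' Q (fl l) (g := fun A => ∑ B ∈ Q.image (fl l), pw (st A B))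
    (fun A => sum_nonneg fun _ _ => pw_nonneg _)).trans ?_
  apply sum_le_sum
  intro A _
  exact sum_image_le' Q (fl l) (g := fun B => pw (st (fl l A) B)) (fun _ => pw_nonneg _)

theorem Ev_pw : Ev pw := by
  intro r
  unfold pw w
  push_cast
  rw [abs_neg]

theorem P_iter_pw (k : ℕ) (s : ℕ × ℤ) : (P^[k] pw) s ≤ 0.98 ^ k * pw s + 37.5 := by
  have h := P_iter_lin (b := 0) le_rfl k 0 1 (by norm_num) s
  have e : (fun s : ℕ × ℤ => (0 : ℝ) + 0 * (s.1 : ℝ) ^ 2 + 1 * pw s) = pw := by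
    funext s; ring
  rw [e] at h
  have h2 : (0 : ℝ) ≤ 0.98 ^ k := by positivity
  linarith

theorem av_Phi (k : ℕ) (Q : Finset (ℕ × ℤ)) :
    av k (fun l => Phi (im l Q)) ≤ 0.98 ^ k * Phi Q + 37.5 * (#Q : ℝ) ^ 2 := by
  refine (av_mono fun l _ => Phi_im l Q).trans ?_
  rw [av_sum]
  have h1 : ∀ A ∈ Q, av k (fun l => ∑ B ∈ Q, pw (st (fl l A) (fl l B))) ≤
      ∑ B ∈ Q, (0.98 ^ k * pw (st A B) + 37.5) := by
    intro A _
    rw [av_sum]
    apply sum_le_sum
    intro B _
    rw [av_pair Ev_pw]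
    exact P_iter_pw k _
  refine (sum_le_sum h1).trans (le_of_eq ?_)
  unfold Phi
  rw [mul_sum]
  have : ∀ A ∈ Q, ∑ B ∈ Q, (0.98 ^ k * pw (st A B) + 37.5) =
      0.98 ^ k * ∑ B ∈ Q, pw (st A B) + 37.5 * #Q := by
    intro A _
    rw [sum_add_distrib, mul_sum, sum_const, nsmul_eq_mul]
    ring
  rw [sum_congr rfl this, sum_add_distrib, sum_const, nsmul_eq_mul]
  ring

/-- the number of forms, through a representative -/
theorem card_rep (l : List Bool) (Q : Finset (ℕ × ℤ)) (A : ℕ × ℤ) :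
    (#(im l Q) : ℝ) ≤ 1 + ∑ B ∈ Q, nq (fl l A) (fl l B) := by
  classical
  have h1 : im l Q ⊆ insert (fl l A) ((Q.filter (fun B => fl l A ≠ fl l B)).image (fl l)) := by
    intro B' hB'
    unfold im at hB'
    rw [mem_image] at hB'
    obtain ⟨B, hB, rfl⟩ := hB'
    rw [mem_insert]
    by_cases h : fl l A = fl l B
    · left; exact h.symm
    · right
      exact mem_image_of_mem _ (mem_filter.2 ⟨hB, h⟩)
  have h2 := (card_le_card h1).trans (card_insert_le _ _)
  have h3 := card_image_le (s := Q.filter (fun B => fl l A ≠ fl l B)) (f := fl l)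
  have h4 : #(im l Q) ≤ #(Q.filter (fun B => fl l A ≠ fl l B)) + 1 := by omega
  have h5 : (#(Q.filter (fun B => fl l A ≠ fl l B)) : ℝ) = ∑ B ∈ Q, nq (fl l A) (fl l B) := by
    rw [card_filter]
    push_cast
    apply sum_congr rfl
    intro B _
    by_cases h : fl l A = fl l B
    · rw [if_neg (not_not.2 h)]; unfold nq; rw [if_pos h]
    · rw [if_pos h, nq_ne h]
  have h6 : (#(im l Q) : ℝ) ≤ #(Q.filter (fun B => fl l A ≠ fl l B)) + 1 := by exact_mod_cast h4
  linarith

theorem av_card_rep (k : ℕ) (Q : Finset (ℕ × ℤ)) (A : ℕ × ℤ) :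
    av k (fun l => (#(im l Q) : ℝ)) ≤ 1 + ∑ B ∈ Q, q step (0, 0) k (st A B) := by
  refine (av_mono fun l _ => card_rep l Q A).trans (le_of_eq ?_)
  rw [av_add, av_const, av_sum]
  congr 1
  apply sum_congr rfl
  intro B _
  exact av_ne k A B

/-- Lyapunov function -/
noncomputable def Lam (Q : Finset (ℕ × ℤ)) : ℝ := (#Q : ℝ) ^ 2 + Phi Q / 1000

theorem Lam_nonneg (Q : Finset (ℕ × ℤ)) : 0 ≤ Lam Q := by
  unfold Lam
  have := Phi_nonneg Q
  positivity

/-- decrease of the number of forms when the offsets are small -/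
theorem card_step {L k : ℕ} (hL1 : 1 ≤ L) (Q : Finset (ℕ × ℤ)) (hL : ∀ A ∈ Q, A.1 < L)
    (hPhi : Phi Q ≤ 4000 * (#Q : ℝ) ^ 2)
    (hq : ∀ r : ℤ, w r ≤ 64000 * (L : ℝ) ^ 2 → q step (0, 0) k (0, r) ≤ 1 / 4) :
    av k (fun l => (#(im l Q) : ℝ)) ≤ L + 0.75 * #Q := by
  classical
  have hLr : (1 : ℝ) ≤ L := by exact_mod_cast hL1
  have hL0 : (0 : ℝ) < L := by linarith
  set D : ℝ := ((#Q : ℕ) : ℝ) with hD
  have hD0 : 0 ≤ D := by positivity
  set Ql : ℕ → Finset (ℕ × ℤ) := fun ℓ => Q.filter (fun A => A.1 = ℓ) with hQl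
  have hunion : ∀ l : List Bool, (#(im l Q) : ℝ) ≤ ∑ ℓ ∈ range L, (#(im l (Ql ℓ)) : ℝ) := by
    intro l
    have h1 : im l Q ⊆ (range L).biUnion (fun ℓ => im l (Ql ℓ)) := by
      intro B' hB'
      unfold im at hB'
      rw [mem_image] at hB'
      obtain ⟨B, hB, rfl⟩ := hB'
      rw [mem_biUnion]
      refine ⟨B.1, mem_range.2 (hL B hB), ?_⟩
      unfold im
      exact mem_image_of_mem _ (mem_filter.2 ⟨hB, rfl⟩)
    have h2 := (card_le_card h1).trans card_biUnion_le
    exact_mod_cast h2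
  have hsum : ∑ ℓ ∈ range L, (#(Ql ℓ) : ℝ) = D := by
    have h1 : Q = (range L).biUnion Ql := by
      ext A
      rw [mem_biUnion]
      constructor
      · intro hA
        exact ⟨A.1, mem_range.2 (hL A hA), mem_filter.2 ⟨hA, rfl⟩⟩
      · rintro ⟨ℓ, _, hA⟩
        exact (mem_filter.1 hA).1
    have h2 : #Q = ∑ ℓ ∈ range L, #(Ql ℓ) := by
      conv_lhs => rw [h1]
      apply card_biUnion
      intro a _ b _ hab
      rw [Function.onFun, disjoint_left]
      intro A hA hA'
      exact hab ((mem_filter.1 hA).2.symm.trans (mem_filter.1 hA').2)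
    rw [hD, h2]; push_cast; rfl
  have hlevel : ∀ ℓ ∈ range L, av k (fun l => (#(im l (Ql ℓ)) : ℝ)) ≤
      1 + (#(Ql ℓ) : ℝ) / 2 + D / (4 * L) := by
    intro ℓ _
    set d : ℝ := ((#(Ql ℓ) : ℕ) : ℝ) with hd
    have hd0 : 0 ≤ d := by positivity
    by_cases hheavy : D ≤ 2 * L * d
    · rcases (Ql ℓ).eq_empty_or_nonempty with he | hne
      · have : av k (fun l => (#(im l (Ql ℓ)) : ℝ)) = 0 := by
          rw [he]
          simp only [im, image_empty, card_empty, Nat.cast_zero]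
          exact av_const k 0
        rw [this]
        positivity
      · have hdpos : 0 < d := by
          rw [hd]; exact_mod_cast card_pos.2 hne
        -- a good representative
        have hex : ∃ A ∈ Ql ℓ, ∑ B ∈ Ql ℓ, pw (st A B) ≤ Phi Q / d := by
          apply exists_le_of_sum_le hne
          have h1 : ∑ A ∈ Ql ℓ, ∑ B ∈ Ql ℓ, pw (st A B) ≤ Phi Q := by
            unfold Phi
            calc ∑ A ∈ Ql ℓ, ∑ B ∈ Ql ℓ, pw (st A B) ≤ ∑ A ∈ Ql ℓ, ∑ B ∈ Q, pw (st A B) := by
                  apply sum_le_sum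
                  intro A _
                  exact sum_le_sum_of_subset_of_nonneg (filter_subset _ _) (fun _ _ _ => pw_nonneg _)
              _ ≤ _ := sum_le_sum_of_subset_of_nonneg (filter_subset _ _)
                  (fun _ _ _ => sum_nonneg fun _ _ => pw_nonneg _)
          rw [sum_const, nsmul_eq_mul, ← hd, mul_div_cancel₀ _ hdpos.ne']
          exact h1
        obtain ⟨A, hA, hAs⟩ := hex
        refine (av_card_rep k (Ql ℓ) A).trans ?_
        have hterm : ∀ B ∈ Ql ℓ, q step (0, 0) k (st A B) ≤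
            1 / 4 + pw (st A B) / (64000 * (L : ℝ) ^ 2) := by
          intro B hB
          have hAl := (mem_filter.1 hA).2
          have hBl := (mem_filter.1 hB).2
          have hst : st A B = (0, B.2 - A.2) := by
            unfold st
            rw [if_pos (by omega), hAl, hBl, Nat.sub_self, pow_zero, one_mul]
          have hpw : pw (st A B) = w (B.2 - A.2) := by rw [hst]; simp [pw]
          by_cases hnear : w (B.2 - A.2) ≤ 64000 * (L : ℝ) ^ 2
          · have h1 := hq _ hnear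
            rw [hst]
            have h2 : 0 ≤ pw (0, B.2 - A.2) / (64000 * (L : ℝ) ^ 2) :=
              div_nonneg (pw_nonneg _) (by positivity)
            linarith
          · push Not at hnear
            have h1 := q_le_one step ((0 : ℕ), (0 : ℤ)) k (st A B)
            have h2 : 1 ≤ pw (st A B) / (64000 * (L : ℝ) ^ 2) := by
              rw [le_div_iff₀ (by positivity), hpw]; linarith
            linarith
        have hs := sum_le_sum hterm
        rw [sum_add_distrib, sum_const, nsmul_eq_mul, ← hd, ← sum_div] at hs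
        have h3 : (∑ B ∈ Ql ℓ, pw (st A B)) / (64000 * (L : ℝ) ^ 2) ≤ d / 4 := by
          rw [div_le_iff₀ (by positivity)]
          refine hAs.trans ?_
          rw [div_le_iff₀ hdpos]
          have h4 : D ^ 2 ≤ (2 * L * d) ^ 2 := pow_le_pow_left₀ hD0 hheavy 2
          calc Phi Q ≤ 4000 * D ^ 2 := hPhi
            _ ≤ 4000 * (2 * L * d) ^ 2 := by linarith
            _ = d / 4 * (64000 * (L : ℝ) ^ 2) * d := by ring
        have h5 : 0 ≤ D / (4 * L) := by positivity
        linarith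
    · push Not at hheavy
      have h1 : av k (fun l => (#(im l (Ql ℓ)) : ℝ)) ≤ d := by
        refine (av_mono (G := fun _ => d) fun l _ => ?_).trans (av_const k d).le
        rw [hd]
        exact_mod_cast card_im_le l (Ql ℓ)
      have h2 : d / 2 ≤ D / (4 * L) := by
        rw [div_le_div_iff₀ (by norm_num) (by positivity)]
        linarith
      linarith
  calc av k (fun l => (#(im l Q) : ℝ)) ≤ av k (fun l => ∑ ℓ ∈ range L, (#(im l (Ql ℓ)) : ℝ)) :=
        av_mono fun l _ => hunion l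
    _ = ∑ ℓ ∈ range L, av k (fun l => (#(im l (Ql ℓ)) : ℝ)) := av_sum k _ _
    _ ≤ ∑ ℓ ∈ range L, (1 + (#(Ql ℓ) : ℝ) / 2 + D / (4 * L)) := sum_le_sum hlevel
    _ = L + D / 2 + L * (D / (4 * L)) := by
        rw [sum_add_distrib, sum_add_distrib, ← sum_div, hsum, sum_const, sum_const, card_range,
          nsmul_eq_mul, nsmul_eq_mul, mul_one]
    _ = L + 0.75 * D := by field_simp; ring

/-- one step of the first phase -/
theorem Lam_step {L k : ℕ} (hL1 : 1 ≤ L) (hk : (0.98 : ℝ) ^ k ≤ 0.01) (Q : Finset (ℕ × ℤ))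
    (hL : ∀ A ∈ Q, A.1 < L)
    (hq : ∀ r : ℤ, w r ≤ 64000 * (L : ℝ) ^ 2 → q step (0, 0) k (0, r) ≤ 1 / 4) :
    av k (fun l => Lam (im l Q)) ≤ 0.84 * Lam Q + 5 * (L : ℝ) ^ 2 := by
  have hPh := av_Phi k Q
  have hP0 := Phi_nonneg Q
  have hPk : (0.98 : ℝ) ^ k * Phi Q ≤ 0.01 * Phi Q := mul_le_mul_of_nonneg_right hk hP0
  have hLr : (0 : ℝ) ≤ (L : ℝ) ^ 2 := by positivity
  have hsplit : av k (fun l => Lam (im l Q)) =
      av k (fun l => (#(im l Q) : ℝ) ^ 2) + av k (fun l => Phi (im l Q)) / 1000 := by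
    unfold Lam
    rw [av_add]
    congr 1
    have : (fun l => Phi (im l Q) / 1000) = fun l => (1 / 1000) * Phi (im l Q) := by
      funext l; ring
    rw [this, av_smul]; ring
  have hD0 : (0 : ℝ) ≤ #Q := by positivity
  rw [hsplit]
  by_cases hgood : Phi Q ≤ 4000 * (#Q : ℝ) ^ 2
  · have h1 := card_step hL1 Q hL hgood hq
    have h2 : av k (fun l => (#(im l Q) : ℝ) ^ 2) ≤ #Q * av k (fun l => (#(im l Q) : ℝ)) := by
      rw [← av_smul]
      apply av_mono
      intro l _
      have h3 : (#(im l Q) : ℝ) ≤ #Q := by exact_mod_cast card_im_le l Q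
      have h4 : (0 : ℝ) ≤ #(im l Q) := by positivity
      nlinarith
    have h3 : (#Q : ℝ) * av k (fun l => (#(im l Q) : ℝ)) ≤ #Q * (L + 0.75 * #Q) :=
      mul_le_mul_of_nonneg_left h1 hD0
    have h4 : (#Q : ℝ) * L ≤ 0.05 * (#Q : ℝ) ^ 2 + 5 * (L : ℝ) ^ 2 := by
      nlinarith [sq_nonneg ((#Q : ℝ) - 10 * L)]
    unfold Lam
    nlinarith
  · push Not at hgood
    have h2 : av k (fun l => (#(im l Q) : ℝ) ^ 2) ≤ (#Q : ℝ) ^ 2 := by
      refine (av_mono (G := fun _ => (#Q : ℝ) ^ 2) fun l _ => ?_).trans (av_const k _).le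
      have h3 : (#(im l Q) : ℝ) ≤ #Q := by exact_mod_cast card_im_le l Q
      exact pow_le_pow_left₀ (by positivity) h3 2
    unfold Lam
    nlinarith

/-- the first phase -/
theorem Lam_iter {L k : ℕ} (hL1 : 1 ≤ L) (hk : (0.98 : ℝ) ^ k ≤ 0.01)
    (hq : ∀ r : ℤ, w r ≤ 64000 * (L : ℝ) ^ 2 → q step (0, 0) k (0, r) ≤ 1 / 4) (s : ℕ) :
    ∀ Q : Finset (ℕ × ℤ), (∀ A ∈ Q, A.1 + s * k < L) →
    av (s * k) (fun l => Lam (im l Q)) ≤ 0.84 ^ s * Lam Q + 31.25 * (1 - 0.84 ^ s) * (L : ℝ) ^ 2 := by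
  induction s with
  | zero =>
    intro Q _
    rw [Nat.zero_mul]
    have e : im [] Q = Q := by
      have : fl [] = fun A => A := by funext A; rfl
      unfold im
      rw [this]; exact image_id
    simp only [av]
    rw [e]
    have := Lam_nonneg Q
    linarith
  | succ s ih =>
    intro Q hQ
    rw [show (s + 1) * k = k + s * k by ring, av_append]
    have h1 : ∀ l : List Bool, l.length = k →
        av (s * k) (fun l' => Lam (im (l ++ l') Q)) ≤
          0.84 ^ s * Lam (im l Q) + 31.25 * (1 - 0.84 ^ s) * (L : ℝ) ^ 2 := by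
      intro l hl
      have h2 : (fun l' => Lam (im (l ++ l') Q)) = fun l' => Lam (im l' (im l Q)) := by
        funext l'; rw [im_append]
      rw [h2]
      apply ih
      intro A hA
      unfold im at hA
      rw [mem_image] at hA
      obtain ⟨B, hB, rfl⟩ := hA
      have h3 := (fl_level l B).2
      have h4 := hQ B hB
      rw [hl] at h3
      have h5 : (s + 1) * k = k + s * k := by ring
      omega
    refine (av_mono h1).trans ?_
    rw [av_add, av_const, av_smul]
    have h2 := Lam_step hL1 hk Q (fun A hA => by have := hQ A hA; omega) hq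
    have h3 : (0.84 : ℝ) ^ s * av k (fun l => Lam (im l Q)) ≤
        0.84 ^ s * (0.84 * Lam Q + 5 * (L : ℝ) ^ 2) :=
      mul_le_mul_of_nonneg_left h2 (by positivity)
    have e : (0.84 : ℝ) ^ s * (0.84 * Lam Q + 5 * (L : ℝ) ^ 2) +
        31.25 * (1 - 0.84 ^ s) * (L : ℝ) ^ 2 =
        0.84 ^ (s + 1) * Lam Q + 31.25 * (1 - 0.84 ^ (s + 1)) * (L : ℝ) ^ 2 := by
      rw [pow_succ]; ring
    linarith

end Pool.Agent.W38.CR
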