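import Pool.Agent.H33.G.R_seed8.W38.CRb

/-! Coalescing runs: second phase. -/

set_option autoImplicit false

namespace Pool.Agent.W38.CR

open Finset Pool.Agent.H499R2.CO

theorem st_fst (A B : ℕ × ℤ) : (st A B).1 = (A.1 - B.1) + (B.1 - A.1) := by
  unfold st
  split_ifs with h
  · simp only; omega
  · simp only; omega

/-- `cosh` of the level difference -/
noncomputable def ch (lam : ℝ) (s : ℕ × ℤ) : ℝ := Real.cosh (lam * s.1)

theorem ch_pos (lam : ℝ) (s : ℕ × ℤ) : 0 < ch lam s := Real.cosh_pos _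

theorem Ev_ch (lam : ℝ) : Ev (ch lam) := fun _ => rfl

theorem P_ch (lam : ℝ) (s : ℕ × ℤ) : P (ch lam) s ≤ Real.cosh lam * ch lam s := by
  obtain ⟨i, r⟩ := s
  have hc1 := Real.one_le_cosh lam
  rcases Int.emod_two_eq_zero_or_one r with h | h
  · unfold P
    rw [step_ef h, step_et h]
    unfold ch
    have := Real.cosh_pos (lam * (i : ℝ))
    nlinarith
  · rcases i with _ | i
    · unfold P
      rw [step_0f h, step_0t h]
      unfold ch
      simp
    · unfold P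
      rw [step_sf h, step_st h]
      unfold ch
      push_cast
      have e1 : lam * ((i : ℝ) + 2) = lam * ((i : ℝ) + 1) + lam := by ring
      have e2 : lam * (i : ℝ) = lam * ((i : ℝ) + 1) - lam := by ring
      rw [e1, e2, Real.cosh_add, Real.cosh_sub]
      apply le_of_eq
      ring

theorem P_iter_ch (lam : ℝ) (k : ℕ) (s : ℕ × ℤ) : (P^[k] (ch lam)) s ≤ Real.cosh lam ^ k * ch lam s := by
  induction k generalizing s with
  | zero => simp
  | succ k ih =>
    rw [Function.iterate_succ_apply']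
    refine (P_mono (G := fun s => Real.cosh lam ^ k * ch lam s) ih s).trans ?_
    have h := P_ch lam s
    have e : P (fun s => Real.cosh lam ^ k * ch lam s) s = Real.cosh lam ^ k * P (ch lam) s := by
      unfold P; ring
    rw [e, pow_succ, mul_assoc]
    exact mul_le_mul_of_nonneg_left h (pow_nonneg (Real.cosh_pos _).le _)

/-- sum of the `cosh` of the level differences with a base form -/
noncomputable def Xi (lam : ℝ) (A0 : ℕ × ℤ) (Q : Finset (ℕ × ℤ)) : ℝ := ∑ A ∈ Q, ch lam (st A0 A)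

theorem Xi_nonneg (lam : ℝ) (A0 : ℕ × ℤ) (Q : Finset (ℕ × ℤ)) : 0 ≤ Xi lam A0 Q :=
  sum_nonneg fun _ _ => (ch_pos _ _).le

theorem av_Xi (lam : ℝ) (k : ℕ) (A0 : ℕ × ℤ) (Q : Finset (ℕ × ℤ)) :
    av k (fun l => Xi lam (fl l A0) (im l Q)) ≤ Real.cosh lam ^ k * Xi lam A0 Q := by
  have h1 : ∀ l : List Bool, l.length = k → Xi lam (fl l A0) (im l Q) ≤
      ∑ A ∈ Q, ch lam (st (fl l A0) (fl l A)) := by
    intro l _
    exact sum_image_le' Q (fl l) (g := fun A => ch lam (st (fl l A0) A)) (fun _ => (ch_pos _ _).le)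
  refine (av_mono h1).trans ?_
  rw [av_sum]
  unfold Xi
  rw [mul_sum]
  apply sum_le_sum
  intro A _
  rw [av_pair (Ev_ch lam)]
  exact P_iter_ch lam k _

theorem out_card {lam : ℝ} (hlam : 0 ≤ lam) (a : ℕ) (A0 : ℕ × ℤ) (Q : Finset (ℕ × ℤ)) :
    (#(Q.filter (fun A => ¬ (st A0 A).1 ≤ a)) : ℝ) ≤ Xi lam A0 Q / Real.cosh (lam * a) := by
  have hc := Real.cosh_pos (lam * (a : ℝ))
  rw [le_div_iff₀ hc]
  unfold Xi
  calc (#(Q.filter (fun A => ¬ (st A0 A).1 ≤ a)) : ℝ) * Real.cosh (lam * a)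
      = ∑ A ∈ Q.filter (fun A => ¬ (st A0 A).1 ≤ a), Real.cosh (lam * a) := by
        rw [sum_const, nsmul_eq_mul]
    _ ≤ ∑ A ∈ Q.filter (fun A => ¬ (st A0 A).1 ≤ a), ch lam (st A0 A) := by
        apply sum_le_sum
        intro A hA
        have h := (mem_filter.1 hA).2
        unfold ch
        rw [Real.cosh_le_cosh, abs_of_nonneg (by positivity), abs_of_nonneg (by positivity)]
        apply mul_le_mul_of_nonneg_left _ hlam
        exact_mod_cast (by omega : a ≤ (st A0 A).1)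
    _ ≤ ∑ A ∈ Q, ch lam (st A0 A) :=
        sum_le_sum_of_subset_of_nonneg (filter_subset _ _) (fun _ _ _ => (ch_pos _ _).le)

/-- one stage of the second phase -/
theorem stage {a g k : ℕ} {p lam Pm : ℝ} (hg : 1 ≤ g) (hp : 0 ≤ p) (hPm : 0 < Pm) (hlam : 0 ≤ lam)
    (hq : ∀ s : ℕ × ℤ, s.1 ≤ g → pw s ≤ Pm → q step (0, 0) k s ≤ p) (A0 : ℕ × ℤ)
    (Q : Finset (ℕ × ℤ)) :
    av k (fun l => (#(im l Q) : ℝ)) ≤ ((2 * a / g + 2 : ℕ) : ℝ) + p * #Q +
      Xi lam A0 Q / Real.cosh (lam * a) + Phi Q / Pm := by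
  classical
  set Qi := Q.filter (fun A => (st A0 A).1 ≤ a) with hQi
  set Qo := Q.filter (fun A => ¬ (st A0 A).1 ≤ a) with hQo
  set C := Qi.image (fun A => A.1 / g) with hC
  set cell : ℕ → Finset (ℕ × ℤ) := fun c => Qi.filter (fun A => A.1 / g = c) with hcell
  set f : ℕ × ℤ → ℝ := fun A => ∑ B ∈ Q, pw (st A B) with hf
  have hf0 : ∀ A, 0 ≤ f A := fun A => sum_nonneg fun _ _ => pw_nonneg _
  have hmaps : ∀ A ∈ Qi, A.1 / g ∈ C := fun A hA => mem_image_of_mem _ hA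
  have hcount : ∀ l : List Bool, (#(im l Q) : ℝ) ≤ #Qo + ∑ c ∈ C, (#(im l (cell c)) : ℝ) := by
    intro l
    have h1 : im l Q ⊆ im l Qo ∪ C.biUnion (fun c => im l (cell c)) := by
      intro B' hB'
      unfold im at hB'
      rw [mem_image] at hB'
      obtain ⟨B, hB, rfl⟩ := hB'
      rw [mem_union, mem_biUnion]
      by_cases h : (st A0 B).1 ≤ a
      · right
        have hBi : B ∈ Qi := mem_filter.2 ⟨hB, h⟩
        exact ⟨B.1 / g, hmaps B hBi, mem_image_of_mem _ (mem_filter.2 ⟨hBi, rfl⟩)⟩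
      · left
        exact mem_image_of_mem _ (mem_filter.2 ⟨hB, h⟩)
    have h2 := (card_le_card h1).trans (card_union_le _ _)
    have h3 := card_biUnion_le (s := C) (t := fun c => im l (cell c))
    have h4 := card_im_le l Qo
    have h5 : #(im l Q) ≤ #Qo + ∑ c ∈ C, #(im l (cell c)) := by omega
    exact_mod_cast h5
  have hCcard : #C ≤ 2 * a / g + 2 := by
    have h1 : C ⊆ Icc ((A0.1 - a) / g) ((A0.1 + a) / g) := by
      intro c hc
      rw [hC, mem_image] at hc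
      obtain ⟨A, hA, rfl⟩ := hc
      have h := (mem_filter.1 hA).2
      rw [st_fst] at h
      rw [mem_Icc]
      exact ⟨Nat.div_le_div_right (by omega), Nat.div_le_div_right (by omega)⟩
    have h2 := card_le_card h1
    rw [Nat.card_Icc] at h2
    have h3 : (A0.1 + a) / g ≤ (A0.1 - a) / g + 2 * a / g + 1 := by
      have h4 : (A0.1 + a) / g ≤ ((A0.1 - a) + 2 * a) / g := Nat.div_le_div_right (by omega)
      refine h4.trans ?_
      have h5 := Nat.add_div (a := A0.1 - a) (b := 2 * a) (c := g) (by omega)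
      rw [h5]
      have key : ∀ x y : ℕ, x + y + (if g ≤ (A0.1 - a) % g + 2 * a % g then 1 else 0) ≤ x + y + 1 := by
        intro x y
        split_ifs <;> omega
      exact key _ _
    have key : ∀ x y z n : ℕ, n ≤ x + 1 - y → x ≤ y + z + 1 → n ≤ z + 2 := by intros; omega
    exact key _ _ _ _ h2 h3
  have hcellav : ∀ c ∈ C, av k (fun l => (#(im l (cell c)) : ℝ)) ≤
      1 + p * (#(cell c) : ℝ) + (∑ A ∈ cell c, f A) / Pm := by
    intro c hc
    rw [hC, mem_image] at hc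
    obtain ⟨A, hA, hAc⟩ := hc
    have hAcell : A ∈ cell c := mem_filter.2 ⟨hA, hAc⟩
    refine (av_card_rep k (cell c) A).trans ?_
    have hterm : ∀ B ∈ cell c, q step (0, 0) k (st A B) ≤ p + pw (st A B) / Pm := by
      intro B hB
      have hBc := (mem_filter.1 hB).2
      have hpwn : 0 ≤ pw (st A B) / Pm := div_nonneg (pw_nonneg _) hPm.le
      by_cases hnear : pw (st A B) ≤ Pm
      · have hlev : (st A B).1 ≤ g := by
          rw [st_fst]
          have h1 := Nat.div_add_mod A.1 g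
          have h2 := Nat.div_add_mod B.1 g
          have h3 := Nat.mod_lt A.1 (show 0 < g by omega)
          have h4 := Nat.mod_lt B.1 (show 0 < g by omega)
          rw [hAc] at h1
          rw [hBc] at h2
          omega
        have := hq _ hlev hnear
        linarith
      · push Not at hnear
        have h1 := q_le_one step ((0 : ℕ), (0 : ℤ)) k (st A B)
        have h2 : 1 ≤ pw (st A B) / Pm := by
          rw [le_div_iff₀ hPm]; linarith
        linarith
    have hs := sum_le_sum hterm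
    rw [sum_add_distrib, sum_const, nsmul_eq_mul, ← sum_div] at hs
    have h3 : (∑ B ∈ cell c, pw (st A B)) ≤ ∑ A ∈ cell c, f A := by
      calc (∑ B ∈ cell c, pw (st A B)) ≤ f A := by
            rw [hf]
            exact sum_le_sum_of_subset_of_nonneg ((filter_subset _ _).trans (filter_subset _ _))
              (fun _ _ _ => pw_nonneg _)
        _ ≤ _ := single_le_sum (fun A _ => hf0 A) hAcell
    have h4 : (∑ B ∈ cell c, pw (st A B)) / Pm ≤ (∑ A ∈ cell c, f A) / Pm :=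
      div_le_div_of_nonneg_right h3 hPm.le
    linarith
  have hfib1 : ∑ c ∈ C, (#(cell c) : ℝ) = #Qi := by
    have h := card_eq_sum_card_fiberwise (s := Qi) (t := C) (f := fun A => A.1 / g)
      (fun A hA => mem_coe.2 (hmaps A (mem_coe.1 hA)))
    rw [h]
    push_cast
    rfl
  have hfib2 : ∑ c ∈ C, ∑ A ∈ cell c, f A = ∑ A ∈ Qi, f A :=
    sum_fiberwise_of_maps_to hmaps f
  have hf2 : ∑ A ∈ Qi, f A ≤ Phi Q := by
    unfold Phi
    exact sum_le_sum_of_subset_of_nonneg (filter_subset _ _) (fun A _ _ => hf0 A)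
  have hQi2 : (#Qi : ℝ) ≤ #Q := by exact_mod_cast card_le_card (filter_subset _ _)
  have hout := out_card hlam a A0 Q
  calc av k (fun l => (#(im l Q) : ℝ)) ≤ av k (fun l => #Qo + ∑ c ∈ C, (#(im l (cell c)) : ℝ)) :=
        av_mono fun l _ => hcount l
    _ = #Qo + ∑ c ∈ C, av k (fun l => (#(im l (cell c)) : ℝ)) := by
        rw [av_add, av_const, av_sum]
    _ ≤ #Qo + ∑ c ∈ C, (1 + p * (#(cell c) : ℝ) + (∑ A ∈ cell c, f A) / Pm) := by
        have := sum_le_sum hcellav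
        linarith
    _ = #Qo + (#C + p * #Qi + (∑ A ∈ Qi, f A) / Pm) := by
        rw [sum_add_distrib, sum_add_distrib, ← mul_sum, hfib1, ← sum_div, hfib2, sum_const,
          nsmul_eq_mul, mul_one]
    _ ≤ _ := by
        have h1 : (#C : ℝ) ≤ ((2 * a / g + 2 : ℕ) : ℝ) := by exact_mod_cast hCcard
        have h2 : p * #Qi ≤ p * #Q := mul_le_mul_of_nonneg_left hQi2 hp
        have h3 : (∑ A ∈ Qi, f A) / Pm ≤ Phi Q / Pm := div_le_div_of_nonneg_right hf2 hPm.le
        linarith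

theorem im_nil (Q : Finset (ℕ × ℤ)) : im [] Q = Q := by
  have : fl [] = fun A => A := by funext A; rfl
  unfold im
  rw [this]; exact image_id

theorem av_Phi' (k : ℕ) (Q : Finset (ℕ × ℤ)) :
    av k (fun l => Phi (im l Q)) ≤ Phi Q + 37.5 * (#Q : ℝ) ^ 2 := by
  have h := av_Phi k Q
  have h1 : (0.98 : ℝ) ^ k ≤ 1 := pow_le_one₀ (by norm_num) (by norm_num)
  have h2 := Phi_nonneg Q
  nlinarith

/-- several stages -/
theorem stage_iter {a g k : ℕ} {p lam Pm : ℝ} (hg : 1 ≤ g) (hp : 0 ≤ p) (hp2 : p ≤ 1 / 2)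
    (hPm : 0 < Pm) (hlam : 0 ≤ lam)
    (hq : ∀ s : ℕ × ℤ, s.1 ≤ g → pw s ≤ Pm → q step (0, 0) k s ≤ p) (s : ℕ) (A0 : ℕ × ℤ)
    (Q : Finset (ℕ × ℤ)) :
    av (s * k) (fun l => (#(im l Q) : ℝ)) ≤ p ^ s * #Q + 2 * (((2 * a / g + 2 : ℕ) : ℝ) +
      Real.cosh lam ^ (s * k) * Xi lam A0 Q / Real.cosh (lam * a) +
      (Phi Q + 37.5 * (#Q : ℝ) ^ 2) / Pm) := by
  have hc1 := Real.one_le_cosh lam
  have hca := Real.cosh_pos (lam * (a : ℝ))
  have hX := Xi_nonneg lam A0 Q
  have hPh := Phi_nonneg Q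
  induction s with
  | zero =>
    rw [Nat.zero_mul]
    simp only [av]
    rw [im_nil, pow_zero, pow_zero, one_mul, one_mul]
    have h1 : 0 ≤ Xi lam A0 Q / Real.cosh (lam * a) := by positivity
    have h2 : 0 ≤ (Phi Q + 37.5 * (#Q : ℝ) ^ 2) / Pm := by positivity
    have h3 : (0 : ℝ) ≤ ((2 * a / g + 2 : ℕ) : ℝ) := by positivity
    linarith
  | succ s ih =>
    have e1 : (s + 1) * k = s * k + k := by ring
    rw [e1, av_append]
    have h1 : ∀ l : List Bool, l.length = s * k → av k (fun l' => (#(im (l ++ l') Q) : ℝ)) ≤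
        ((2 * a / g + 2 : ℕ) : ℝ) + (p * #(im l Q) + ((1 / Real.cosh (lam * a)) * Xi lam (fl l A0) (im l Q) +
          (1 / Pm) * Phi (im l Q))) := by
      intro l _
      have h2 : (fun l' => (#(im (l ++ l') Q) : ℝ)) = fun l' => (#(im l' (im l Q)) : ℝ) := by
        funext l'; rw [im_append]
      rw [h2]
      have := stage (a := a) hg hp hPm hlam hq (fl l A0) (im l Q)
      rw [div_eq_mul_one_div (Xi _ _ _), div_eq_mul_one_div (Phi _)] at this
      linarith
    refine (av_mono h1).trans ?_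
    rw [av_add, av_const, av_add, av_smul, av_add, av_smul, av_smul]
    have h2 := av_Xi lam (s * k) A0 Q
    have h3 := av_Phi' (s * k) Q
    have h4 : (1 / Real.cosh (lam * a)) * av (s * k) (fun l => Xi lam (fl l A0) (im l Q)) ≤
        Real.cosh lam ^ (s * k) * Xi lam A0 Q / Real.cosh (lam * a) := by
      rw [div_eq_mul_one_div (_ * _), mul_comm]
      exact mul_le_mul_of_nonneg_right h2 (by positivity)
    have h5 : (1 / Pm) * av (s * k) (fun l => Phi (im l Q)) ≤ (Phi Q + 37.5 * (#Q : ℝ) ^ 2) / Pm := by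
      rw [div_eq_mul_one_div (_ + _), mul_comm]
      exact mul_le_mul_of_nonneg_right h3 (by positivity)
    have h6 : Real.cosh lam ^ (s * k) * Xi lam A0 Q / Real.cosh (lam * a) ≤
        Real.cosh lam ^ (s * k + k) * Xi lam A0 Q / Real.cosh (lam * a) := by
      apply div_le_div_of_nonneg_right _ hca.le
      apply mul_le_mul_of_nonneg_right _ hX
      exact pow_le_pow_right₀ hc1 (by omega)
    have h8 : 0 ≤ Real.cosh lam ^ (s * k) * Xi lam A0 Q / Real.cosh (lam * a) := by positivity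
    have h9 : 0 ≤ (Phi Q + 37.5 * (#Q : ℝ) ^ 2) / Pm := by positivity
    have h10 : (0 : ℝ) ≤ ((2 * a / g + 2 : ℕ) : ℝ) := by positivity
    set R := ((2 * a / g + 2 : ℕ) : ℝ) + Real.cosh lam ^ (s * k) * Xi lam A0 Q / Real.cosh (lam * a) +
      (Phi Q + 37.5 * (#Q : ℝ) ^ 2) / Pm with hR
    have hR0 : 0 ≤ R := by rw [hR]; linarith
    have h7 : p * av (s * k) (fun l => (#(im l Q) : ℝ)) ≤ p * (p ^ s * #Q + 2 * R) :=
      mul_le_mul_of_nonneg_left ih hp
    have h11 : p * (p ^ s * #Q + 2 * R) ≤ p ^ (s + 1) * #Q + R := by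
      rw [pow_succ]
      nlinarith
    linarith

/-- `1` unless every form of `Q` equals `A0` -/
noncomputable def bad (A0 : ℕ × ℤ) (Q : Finset (ℕ × ℤ)) : ℝ := by
  classical
  exact if ∀ A ∈ Q, A = A0 then 0 else 1

theorem bad_nonneg (A0 : ℕ × ℤ) (Q : Finset (ℕ × ℤ)) : 0 ≤ bad A0 Q := by
  unfold bad; split_ifs <;> norm_num

theorem bad_zero {A0 : ℕ × ℤ} {Q : Finset (ℕ × ℤ)} (h : ∀ A ∈ Q, A = A0) : bad A0 Q = 0 := by
  unfold bad; rw [if_pos h]

theorem bad_one {A0 : ℕ × ℤ} {Q : Finset (ℕ × ℤ)} (h : ¬ ∀ A ∈ Q, A = A0) : bad A0 Q = 1 := by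
  unfold bad; rw [if_neg h]

theorem bad_le (l : List Bool) (A0 : ℕ × ℤ) (Q : Finset (ℕ × ℤ)) :
    bad (fl l A0) (im l Q) ≤ ∑ A ∈ Q, nq (fl l A0) (fl l A) := by
  by_cases h : ∀ A ∈ im l Q, A = fl l A0
  · rw [bad_zero h]
    exact sum_nonneg fun _ _ => nq_nonneg _ _
  · rw [bad_one h]
    push Not at h
    obtain ⟨A', hA', hne⟩ := h
    unfold im at hA'
    rw [mem_image] at hA'
    obtain ⟨A, hA, rfl⟩ := hA'
    rw [← nq_ne (A := fl l A0) (B := fl l A) (fun h => hne h.symm)]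
    exact single_le_sum (f := fun A => nq (fl l A0) (fl l A)) (fun _ _ => nq_nonneg _ _) hA

/-- the last step -/
theorem final {a k : ℕ} {p lam Pm : ℝ} (hp : 0 ≤ p) (hPm : 0 < Pm) (hlam : 0 ≤ lam)
    (hq : ∀ s : ℕ × ℤ, s.1 ≤ a → pw s ≤ Pm → q step (0, 0) k s ≤ p) {A0 : ℕ × ℤ}
    {Q : Finset (ℕ × ℤ)} (hA0 : A0 ∈ Q) :
    av k (fun l => bad (fl l A0) (im l Q)) ≤ p * #Q + Xi lam A0 Q / Real.cosh (lam * a) + Phi Q / Pm := by
  refine (av_mono fun l _ => bad_le l A0 Q).trans ?_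
  rw [av_sum]
  have hca := Real.cosh_pos (lam * (a : ℝ))
  have hterm : ∀ A ∈ Q, av k (fun l => nq (fl l A0) (fl l A)) ≤
      p + ch lam (st A0 A) / Real.cosh (lam * a) + pw (st A0 A) / Pm := by
    intro A _
    rw [av_ne]
    have h1 : 0 ≤ ch lam (st A0 A) / Real.cosh (lam * a) := div_nonneg (ch_pos _ _).le hca.le
    have h2 : 0 ≤ pw (st A0 A) / Pm := div_nonneg (pw_nonneg _) hPm.le
    have h3 := q_le_one step ((0 : ℕ), (0 : ℤ)) k (st A0 A)
    by_cases hl : (st A0 A).1 ≤ a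
    · by_cases hn : pw (st A0 A) ≤ Pm
      · have := hq _ hl hn
        linarith
      · push Not at hn
        have : 1 ≤ pw (st A0 A) / Pm := by rw [le_div_iff₀ hPm]; linarith
        linarith
    · have : 1 ≤ ch lam (st A0 A) / Real.cosh (lam * a) := by
        rw [le_div_iff₀ hca, one_mul]
        unfold ch
        rw [Real.cosh_le_cosh, abs_of_nonneg (by positivity), abs_of_nonneg (by positivity)]
        apply mul_le_mul_of_nonneg_left _ hlam
        exact_mod_cast (by omega : a ≤ (st A0 A).1)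
      linarith
  refine (sum_le_sum hterm).trans ?_
  rw [sum_add_distrib, sum_add_distrib, sum_const, nsmul_eq_mul, ← sum_div, ← sum_div]
  have h1 : ∑ A ∈ Q, pw (st A0 A) ≤ Phi Q := by
    unfold Phi
    exact single_le_sum (f := fun A => ∑ B ∈ Q, pw (st A B))
      (fun A _ => sum_nonneg fun _ _ => pw_nonneg _) hA0
  have h2 := div_le_div_of_nonneg_right h1 hPm.le
  unfold Xi
  linarith

/-- second phase and last step together -/
theorem second {a g k kf S : ℕ} {p pf lam Pm : ℝ} (hg : 1 ≤ g) (hp : 0 ≤ p) (hp2 : p ≤ 1 / 2)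
    (hpf : 0 ≤ pf) (hpf1 : pf ≤ 1) (hPm : 0 < Pm) (hlam : 0 ≤ lam)
    (hq : ∀ s : ℕ × ℤ, s.1 ≤ g → pw s ≤ Pm → q step (0, 0) k s ≤ p)
    (hqf : ∀ s : ℕ × ℤ, s.1 ≤ a → pw s ≤ Pm → q step (0, 0) kf s ≤ pf) {A0 : ℕ × ℤ}
    {Q : Finset (ℕ × ℤ)} (hA0 : A0 ∈ Q) :
    av (S * k + kf) (fun l => bad (fl l A0) (im l Q)) ≤
      pf * p ^ S * #Q + 2 * pf * ((2 * a / g + 2 : ℕ) : ℝ) +
      3 * (Real.cosh lam ^ (S * k) * Xi lam A0 Q / Real.cosh (lam * a) +
      (Phi Q + 37.5 * (#Q : ℝ) ^ 2) / Pm) := by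
  rw [av_append]
  have hca := Real.cosh_pos (lam * (a : ℝ))
  have hX := Xi_nonneg lam A0 Q
  have hPh := Phi_nonneg Q
  have hcl := Real.cosh_pos lam
  have h1 : ∀ l : List Bool, l.length = S * k → av kf (fun l' => bad (fl (l ++ l') A0) (im (l ++ l') Q)) ≤
      pf * #(im l Q) + ((1 / Real.cosh (lam * a)) * Xi lam (fl l A0) (im l Q) +
          (1 / Pm) * Phi (im l Q)) := by
    intro l _
    have h2 : (fun l' => bad (fl (l ++ l') A0) (im (l ++ l') Q)) =
        fun l' => bad (fl l' (fl l A0)) (im l' (im l Q)) := by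
      funext l'; rw [im_append, fl_append]
    rw [h2]
    have := final (a := a) (lam := lam) hpf hPm hlam hqf (A0 := fl l A0) (Q := im l Q)
      (mem_image_of_mem _ hA0)
    rw [div_eq_mul_one_div (Xi _ _ _), div_eq_mul_one_div (Phi _)] at this
    linarith
  refine (av_mono h1).trans ?_
  rw [av_add, av_smul, av_add, av_smul, av_smul]
  have h2 := av_Xi lam (S * k) A0 Q
  have h3 := av_Phi' (S * k) Q
  have h4 : (1 / Real.cosh (lam * a)) * av (S * k) (fun l => Xi lam (fl l A0) (im l Q)) ≤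
      Real.cosh lam ^ (S * k) * Xi lam A0 Q / Real.cosh (lam * a) := by
    rw [div_eq_mul_one_div (_ * _), mul_comm]
    exact mul_le_mul_of_nonneg_right h2 (by positivity)
  have h5 : (1 / Pm) * av (S * k) (fun l => Phi (im l Q)) ≤ (Phi Q + 37.5 * (#Q : ℝ) ^ 2) / Pm := by
    rw [div_eq_mul_one_div (_ + _), mul_comm]
    exact mul_le_mul_of_nonneg_right h3 (by positivity)
  have h6 := stage_iter (a := a) hg hp hp2 hPm hlam hq S A0 Q
  have h8 : 0 ≤ Real.cosh lam ^ (S * k) * Xi lam A0 Q / Real.cosh (lam * a) := by positivity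
  have h9 : 0 ≤ (Phi Q + 37.5 * (#Q : ℝ) ^ 2) / Pm := by positivity
  set R1 := Real.cosh lam ^ (S * k) * Xi lam A0 Q / Real.cosh (lam * a) with hR1
  set R2 := (Phi Q + 37.5 * (#Q : ℝ) ^ 2) / Pm with hR2
  have h7 := mul_le_mul_of_nonneg_left h6 hpf
  have h10 : pf * (2 * (R1 + R2)) ≤ 1 * (2 * (R1 + R2)) :=
    mul_le_mul_of_nonneg_right hpf1 (by linarith)
  have e : pf * (p ^ S * #Q + 2 * (((2 * a / g + 2 : ℕ) : ℝ) + R1 + R2)) =
      pf * p ^ S * #Q + 2 * pf * ((2 * a / g + 2 : ℕ) : ℝ) + pf * (2 * (R1 + R2)) := by ring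
  rw [e] at h7
  linarith

theorem card_le_Lam (Q : Finset (ℕ × ℤ)) : (#Q : ℝ) ≤ Lam Q := by
  unfold Lam
  have h1 := Phi_nonneg Q
  have h2 : (#Q : ℝ) ≤ (#Q : ℝ) ^ 2 := by
    have : #Q ≤ #Q ^ 2 := Nat.le_self_pow (by norm_num) _
    exact_mod_cast this
  linarith

/-- everything together -/
theorem total {L k1 s1 a g k kf S : ℕ} {p pf lam Pm : ℝ} (hL1 : 1 ≤ L) (hk : (0.98 : ℝ) ^ k1 ≤ 0.01)
    (hq1 : ∀ r : ℤ, w r ≤ 64000 * (L : ℝ) ^ 2 → q step (0, 0) k1 (0, r) ≤ 1 / 4)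
    (hg : 1 ≤ g) (hp : 0 ≤ p) (hp2 : p ≤ 1 / 2)
    (hpf : 0 ≤ pf) (hpf1 : pf ≤ 1) (hPm : 0 < Pm) (hlam : 0 ≤ lam)
    (hq : ∀ s : ℕ × ℤ, s.1 ≤ g → pw s ≤ Pm → q step (0, 0) k s ≤ p)
    (hqf : ∀ s : ℕ × ℤ, s.1 ≤ a → pw s ≤ Pm → q step (0, 0) kf s ≤ pf) {A0 : ℕ × ℤ}
    {Q : Finset (ℕ × ℤ)} (hA0 : A0 ∈ Q) (hQ : ∀ A ∈ Q, A.1 + s1 * k1 < L) :
    av (s1 * k1 + (S * k + kf)) (fun l => bad (fl l A0) (im l Q)) ≤
      (0.84 ^ s1 * Lam Q + 31.25 * (L : ℝ) ^ 2) *
        (pf * p ^ S + 3 * (Real.cosh lam ^ (S * k) * Real.cosh (lam * L) / Real.cosh (lam * a)) +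
          3113 / Pm) + 2 * pf * ((2 * a / g + 2 : ℕ) : ℝ) := by
  rw [av_append]
  have hca := Real.cosh_pos (lam * (a : ℝ))
  have hcL := Real.cosh_pos (lam * (L : ℝ))
  have hcl := Real.cosh_pos lam
  set Z := pf * p ^ S + 3 * (Real.cosh lam ^ (S * k) * Real.cosh (lam * L) / Real.cosh (lam * a)) +
          3113 / Pm with hZ
  have hZ0 : 0 ≤ Z := by rw [hZ]; positivity
  have h1 : ∀ l : List Bool, l.length = s1 * k1 →
      av (S * k + kf) (fun l' => bad (fl (l ++ l') A0) (im (l ++ l') Q)) ≤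
      Z * Lam (im l Q) + 2 * pf * ((2 * a / g + 2 : ℕ) : ℝ) := by
    intro l hl
    have h2 : (fun l' => bad (fl (l ++ l') A0) (im (l ++ l') Q)) =
        fun l' => bad (fl l' (fl l A0)) (im l' (im l Q)) := by
      funext l'; rw [im_append, fl_append]
    rw [h2]
    refine (second (a := a) (lam := lam) (S := S) hg hp hp2 hpf hpf1 hPm hlam hq hqf
      (A0 := fl l A0) (Q := im l Q) (mem_image_of_mem _ hA0)).trans ?_
    have hlev : ∀ A ∈ im l Q, A.1 < L := by
      intro A hA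
      unfold im at hA
      rw [mem_image] at hA
      obtain ⟨B, hB, rfl⟩ := hA
      have h3 := (fl_level l B).2
      have h4 := hQ B hB
      rw [hl] at h3
      omega
    have hlev0 := hlev (fl l A0) (mem_image_of_mem _ hA0)
    have hXi : Xi lam (fl l A0) (im l Q) ≤ #(im l Q) * Real.cosh (lam * L) := by
      unfold Xi
      rw [← nsmul_eq_mul]
      apply sum_le_card_nsmul
      intro A hA
      unfold ch
      rw [Real.cosh_le_cosh, abs_of_nonneg (by positivity), abs_of_nonneg (by positivity)]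
      apply mul_le_mul_of_nonneg_left _ hlam
      have := hlev A hA
      have h5 := st_fst (fl l A0) A
      exact_mod_cast (by omega : (st (fl l A0) A).1 ≤ L)
    have hcard := card_le_Lam (im l Q)
    have hcard0 : (0 : ℝ) ≤ #(im l Q) := by positivity
    have hL0 := Lam_nonneg (im l Q)
    have hXi2 : Xi lam (fl l A0) (im l Q) ≤ Lam (im l Q) * Real.cosh (lam * L) :=
      hXi.trans (mul_le_mul_of_nonneg_right hcard hcL.le)
    have h3 : Real.cosh lam ^ (S * k) * Xi lam (fl l A0) (im l Q) / Real.cosh (lam * a) ≤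
        (Real.cosh lam ^ (S * k) * Real.cosh (lam * L) / Real.cosh (lam * a)) * Lam (im l Q) := by
      rw [div_mul_eq_mul_div]
      apply div_le_div_of_nonneg_right _ hca.le
      rw [mul_assoc]
      apply mul_le_mul_of_nonneg_left _ (by positivity)
      linarith
    have h4 : (Phi (im l Q) + 37.5 * (#(im l Q) : ℝ) ^ 2) / Pm ≤ 1037.5 / Pm * Lam (im l Q) := by
      rw [div_mul_eq_mul_div]
      apply div_le_div_of_nonneg_right _ hPm.le
      unfold Lam
      have := Phi_nonneg (im l Q)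
      nlinarith [sq_nonneg (#(im l Q) : ℝ)]
    have h5 : pf * p ^ S * #(im l Q) ≤ pf * p ^ S * Lam (im l Q) :=
      mul_le_mul_of_nonneg_left hcard (by positivity)
    have h6 : 3 * (1037.5 / Pm) ≤ 3113 / Pm := by
      rw [← mul_div_assoc]
      apply div_le_div_of_nonneg_right _ hPm.le
      norm_num
    have h7 : 3 * (1037.5 / Pm) * Lam (im l Q) ≤ 3113 / Pm * Lam (im l Q) :=
      mul_le_mul_of_nonneg_right h6 hL0
    rw [hZ]
    nlinarith
  refine (av_mono h1).trans ?_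
  rw [av_add, av_const, av_smul]
  have h2 := Lam_iter hL1 hk hq1 s1 Q hQ
  have h3 : 31.25 * (1 - 0.84 ^ s1) * (L : ℝ) ^ 2 ≤ 31.25 * (L : ℝ) ^ 2 := by
    have : (0 : ℝ) ≤ 0.84 ^ s1 := by positivity
    have : (0 : ℝ) ≤ (L : ℝ) ^ 2 := by positivity
    nlinarith
  have h4 : Z * av (s1 * k1) (fun l => Lam (im l Q)) ≤
      Z * (0.84 ^ s1 * Lam Q + 31.25 * (L : ℝ) ^ 2) := mul_le_mul_of_nonneg_left (by linarith) hZ0
  linarith

end Pool.Agent.W38.CR
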