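import Pool.Agent.H33.G.R_seed8.H499R2.CO.R2

/-! A quantitative form of the pair coalescence estimate: shifts of size `2 ^ (θ k)` fail to coalesce
within `k` steps with probability `O (√(θ (1 + log (1/θ))))`. -/

set_option autoImplicit false

namespace Pool.Agent.W38.PR

open Finset Filter Topology Pool.Agent.H499R2.CO

theorem q_theta : ∃ C : ℝ, 1 ≤ C ∧ ∀ θ : ℝ, 0 < θ → θ ≤ 1 → ∀ k : ℕ, C ≤ θ * k → ∀ (i : ℕ) (r : ℤ),
    (i : ℝ) ^ 2 ≤ θ * k → |(r : ℝ)| ≤ (2 : ℝ) ^ (θ * k) →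
    q step (0, 0) k (i, r) ≤ C * √ (θ * (1 + Real.log (1 / θ))) := by
  obtain ⟨B, hB, hrate⟩ := rate_FF
  set C : ℝ := 10 ^ 12 + 3 * B with hC
  have hC1 : 1 ≤ C := by rw [hC]; linarith
  have hCbig : (10 : ℝ) ^ 12 ≤ C := by rw [hC]; linarith
  have hC0 : 0 < C := by linarith
  refine ⟨C, hC1, fun θ hθ0 hθ1 k hk i r hi hr => ?_⟩
  set ℓ : ℝ := 1 + Real.log (1 / θ) with hℓ
  have hinv : 1 ≤ 1 / θ := by rw [le_div_iff₀ hθ0]; linarith
  have hlog0 : 0 ≤ Real.log (1 / θ) := Real.log_nonneg hinv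
  have hℓ1 : 1 ≤ ℓ := by rw [hℓ]; linarith
  have hℓθ : ℓ ≤ 1 / θ := by
    have := Real.log_le_sub_one_of_pos (show (0 : ℝ) < 1 / θ by positivity)
    rw [hℓ]; linarith
  set S : ℝ := √ (θ * ℓ) with hS
  have hθℓ0 : 0 ≤ θ * ℓ := by positivity
  have hS0 : 0 ≤ S := Real.sqrt_nonneg _
  have hSS : S ^ 2 = θ * ℓ := Real.sq_sqrt hθℓ0
  have hq1 := q_le_one step ((0 : ℕ), (0 : ℤ)) k (i, r)
  -- the trivial case
  by_cases hθbig : 1 / 1000 < θ
  · refine hq1.trans ?_
    have h1 : (1 / 100 : ℝ) ≤ S := by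
      apply Real.le_sqrt_of_sq_le
      have : θ * 1 ≤ θ * ℓ := mul_le_mul_of_nonneg_left hℓ1 hθ0.le
      linarith
    have h2 : C * (1 / 100) ≤ C * S := mul_le_mul_of_nonneg_left h1 hC0.le
    linarith
  push Not at hθbig
  have hk0 : (0 : ℝ) < k := by
    have h1 : 0 < θ * k := by linarith
    exact (mul_pos_iff_of_pos_left hθ0).1 h1
  have hθS : θ ≤ S ^ 2 := by
    rw [hSS]
    have := mul_le_mul_of_nonneg_left hℓ1 hθ0.le
    linarith
  have hθS' : √ θ ≤ S := Real.sqrt_le_sqrt (by rw [← hSS]; exact hθS)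
  -- `ℓ / k ≤ θ ℓ / C`
  have hkθ : 1 / (k : ℝ) ≤ θ / C := by
    rw [div_le_div_iff₀ hk0 hC0]; linarith
  -- number of blocks
  set b : ℕ := ⌈Real.log (1 / θ) / Real.log 2⌉₊ with hb
  have hl2 := Real.log_two_gt_d9
  have hl2' := Real.log_two_lt_d9
  have hb1 : Real.log (1 / θ) / Real.log 2 ≤ b := Nat.le_ceil _
  have hb2 : (b : ℝ) < Real.log (1 / θ) / Real.log 2 + 1 :=
    Nat.ceil_lt_add_one (by positivity)
  have hb3 : (b : ℝ) ≤ 2 * ℓ := by
    have : Real.log (1 / θ) / Real.log 2 ≤ 2 * Real.log (1 / θ) := by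
      rw [div_le_iff₀ (by linarith)]
      have h1 : Real.log (1 / θ) * 1 ≤ Real.log (1 / θ) * (2 * Real.log 2) :=
        mul_le_mul_of_nonneg_left (by linarith) hlog0
      linarith
    rw [hℓ]; linarith
  have hb4 : (1 / 2 : ℝ) ^ b ≤ θ := by
    have h1 : Real.log (1 / θ) ≤ b * Real.log 2 := by
      rwa [div_le_iff₀ (by linarith)] at hb1
    have h2 : 1 / θ ≤ 2 ^ b := by
      rw [← Real.log_pow] at h1
      exact (Real.log_le_log_iff (by positivity) (by positivity)).1 h1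
    rw [div_pow, one_pow]
    rw [div_le_iff₀ hθ0] at h2
    rw [div_le_iff₀ (by positivity)]
    linarith
  have hbpos : 1 ≤ b := by
    rw [hb, Nat.one_le_ceil_iff]
    apply div_pos _ (by linarith)
    apply Real.log_pos
    rw [lt_div_iff₀ hθ0]; linarith
  have hbr : (1 : ℝ) ≤ b := by exact_mod_cast hbpos
  have hb0 : (0 : ℝ) < b := by linarith
  -- the height
  set z : ℝ := √ ((k : ℝ) / (150000000 * b)) with hz
  have hzz : z ^ 2 = (k : ℝ) / (150000000 * b) := Real.sq_sqrt (by positivity)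
  have hz1 : 1 ≤ z := by
    apply Real.le_sqrt_of_sq_le
    rw [one_pow, le_div_iff₀ (by positivity), one_mul]
    have h1 : ℓ ≤ k / C := by
      have h2 : 1 / θ ≤ k / C := by
        rw [div_le_div_iff₀ hθ0 hC0]; linarith
      exact hℓθ.trans h2
    have h2 : C * ℓ ≤ k := by rw [le_div_iff₀ hC0] at h1; linarith
    have h3 : 10 ^ 12 * ℓ ≤ C * ℓ := mul_le_mul_of_nonneg_right hCbig (by linarith)
    linarith
  have hz0 : 0 < z := by linarith
  set M : ℕ := ⌊z⌋₊ with hM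
  have hM1 : 1 ≤ M := by rw [hM, Nat.one_le_floor_iff]; exact hz1
  have hM2 : (M : ℝ) ≤ z := Nat.floor_le hz0.le
  have hM3 : z / 2 ≤ M := by
    have h1 : z < (M : ℝ) + 1 := Nat.lt_floor_add_one z
    have h2 : (1 : ℝ) ≤ M := by exact_mod_cast hM1
    linarith
  have hMr : (0 : ℝ) < M := by
    have : (1 : ℝ) ≤ M := by exact_mod_cast hM1
    linarith
  set t : ℕ := 49000000 * M ^ 2 * b with ht
  have htk : 3 * t ≤ k := by
    have h1 : (M : ℝ) ^ 2 ≤ z ^ 2 := pow_le_pow_left₀ (by positivity) hM2 2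
    have h2 : (M : ℝ) ^ 2 * (150000000 * b) ≤ k := by
      rw [hzz, le_div_iff₀ (by positivity)] at h1
      exact h1
    have h3 : (3 : ℝ) * t ≤ k := by
      rw [ht]; push_cast
      have h4 : 0 ≤ (M : ℝ) ^ 2 * b := by positivity
      have h5 : 3 * (49000000 * (M : ℝ) ^ 2 * b) = 147000000 * ((M : ℝ) ^ 2 * b) := by ring
      have h6 : (M : ℝ) ^ 2 * (150000000 * b) = 150000000 * ((M : ℝ) ^ 2 * b) := by ring
      rw [h5]; rw [h6] at h2
      linarith
    exact_mod_cast h3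
  -- the first phase
  set u : ℕ := ⌈θ * k⌉₊ with hu
  have hu1 : θ * k ≤ u := Nat.le_ceil _
  have hu2 : (u : ℝ) < θ * k + 1 := Nat.ceil_lt_add_one (by positivity)
  set k1 : ℕ := 35 * u with hk1
  have hk1r : (k1 : ℝ) ≤ 36 * (θ * k) := by
    rw [hk1]; push_cast
    linarith
  have hk1k : 20 * k1 ≤ k := by
    have h1 : (20 : ℝ) * k1 ≤ k := by
      have : 36 * (θ * k) ≤ 36 * (1 / 1000 * k) := by
        apply mul_le_mul_of_nonneg_left _ (by norm_num)
        exact mul_le_mul_of_nonneg_right hθbig hk0.le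
      linarith
    exact_mod_cast h1
  set m : ℕ := k / 3 with hm
  have hkbig : 1000 ≤ k := by
    have h1 : θ * k ≤ 1 * k := mul_le_mul_of_nonneg_right hθ1 hk0.le
    have h2 : (1000 : ℝ) ≤ k := by linarith
    exact_mod_cast h2
  have hm1 : 1 ≤ m := by omega
  have hsum : k1 + (t + m) ≤ k := by omega
  -- the finite set
  set ε : ℝ := B * rho m with hε
  have hε0 : 0 ≤ ε := mul_nonneg hB.le (rho_nonneg m)
  have hF : ∀ m', m ≤ m' → ∀ s ∈ FF, q step (0, 0) m' s ≤ ε := by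
    intro m' hm' s hs
    have h1 : q step (0, 0) m' s ≤ q step (0, 0) m s :=
      (antitone_nat_of_succ_le (f := fun k => q step (0, 0) k s)
        (fun k => q_anti step (0, 0) k s)) hm'
    exact h1.trans (hrate m hm1 s hs)
  have hrho : rho m ≤ 2 * S := by
    have hmr : (k : ℝ) ≤ 4 * m := by
      have : k ≤ 4 * m := by omega
      exact_mod_cast this
    have hmk : (m : ℝ) + 1 ≤ k := by
      have : m + 1 ≤ k := by omega
      exact_mod_cast this
    have hm0 : (0 : ℝ) < m := by linarith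
    unfold rho
    rw [show 2 * S = √ (2 ^ 2 * (θ * ℓ)) by
      rw [Real.sqrt_mul (by norm_num), Real.sqrt_sq (by norm_num)]]
    apply Real.sqrt_le_sqrt
    rw [div_le_iff₀ hm0]
    have h1 : Real.log ((m : ℝ) + 1) ≤ Real.log k := Real.log_le_log (by positivity) hmk
    have h2 : Real.log k = Real.log (θ * k) + Real.log (1 / θ) := by
      rw [← Real.log_mul (by positivity) (by positivity)]
      congr 1; field_simp
    have h3 : Real.log (θ * k) ≤ θ * k - 1 := Real.log_le_sub_one_of_pos (by positivity)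
    have h4 : Real.log (1 / θ) ≤ θ * k * Real.log (1 / θ) := by
      have : (1 : ℝ) ≤ θ * k := by linarith
      exact le_mul_of_one_le_left hlog0 this
    have h5 : Real.log k ≤ θ * ℓ * k := by
      rw [h2, hℓ]
      have e : θ * (1 + Real.log (1 / θ)) * k = θ * k + θ * k * Real.log (1 / θ) := by ring
      rw [e]; linarith
    have h6 : θ * ℓ * k ≤ θ * ℓ * (4 * m) := mul_le_mul_of_nonneg_left hmr hθℓ0
    have h7 : 2 ^ 2 * (θ * ℓ) * (m : ℝ) = θ * ℓ * (4 * m) := by ring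
    rw [h7]
    linarith
  -- hitting
  have h1 : ∀ s : ℕ × ℤ, q step (0, 0) (t + m) s ≤
      (ε + θ + 480123 / M) + 1 / M * (s.1 : ℝ) + 2 / M * pw s := by
    intro s
    have e1 := hit2 hε0 (by omega : 0 < M) hF t s
    have e2 := sv_block hM1 b s
    have e3 := Vp_le s
    have e4 : V s / M ≤ ((s.1 : ℝ) + (pw s + 480048)) / M := by
      apply div_le_div_of_nonneg_right _ hMr.le
      unfold V; linarith
    have e5 : (ε + θ + 480123 / M) + 1 / M * (s.1 : ℝ) + 2 / M * pw s =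
        ε + ((s.1 : ℝ) + (pw s + 480048)) / M + ((θ + 75 / M) + 1 / M * pw s) := by ring
    rw [e5]
    linarith
  set A : ℝ := 7 * √ (θ * k) with hA
  have hθk0 : 0 < θ * k := by positivity
  have hA0 : 0 < A := by rw [hA]; positivity
  have hAA : A ^ 2 = 49 * (θ * k) := by
    rw [hA, mul_pow, Real.sq_sqrt hθk0.le]; norm_num
  have hkA : ((i, r).1 : ℝ) ^ 2 + k1 ≤ A ^ 2 := by
    rw [hAA]
    simp only
    linarith
  have hw : 0.98 ^ k1 * pw (i, r) ≤ 1 := by
    have h1 : w r ≤ 2 ^ u := by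
      unfold w
      have h2 : |(r : ℝ)| ≤ (2 : ℝ) ^ u := by
        refine hr.trans ?_
        rw [← Real.rpow_natCast]
        exact Real.rpow_le_rpow_of_exponent_le (by norm_num) hu1
      have h3 : (1 : ℝ) ≤ 2 ^ u := one_le_pow₀ (by norm_num)
      rw [Real.sqrt_le_left (by positivity)]
      calc |(r : ℝ)| ≤ 2 ^ u := h2
        _ ≤ (2 ^ u) ^ 2 := le_self_pow₀ h3 (by norm_num)
    have h1' : pw (i, r) ≤ 2 ^ u := by
      unfold pw
      have h5 : (11 / 20 : ℝ) ^ i ≤ 1 := pow_le_one₀ (by norm_num) (by norm_num)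
      have h6 := w_nonneg r
      simp only
      exact (mul_le_of_le_one_left h6 h5).trans h1
    have h2 : (0.98 : ℝ) ^ k1 ≤ (1 / 2) ^ u := by
      rw [hk1, pow_mul]
      exact pow_le_pow_left₀ (by positivity) (by norm_num) u
    calc (0.98 : ℝ) ^ k1 * pw (i, r) ≤ (1 / 2) ^ u * 2 ^ u :=
          mul_le_mul h2 h1' (pw_nonneg _) (by positivity)
      _ = 1 := by rw [← mul_pow]; norm_num
  have h2 := q_add_le (t + m) k1 (i, r)
  have h3 := P_iter_mono k1 h1 (i, r)
  have h4 := P_iter_lin2 (show (0 : ℝ) ≤ 1 / M by positivity) (show (0 : ℝ) ≤ 2 / M by positivity)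
    hA0 (ε + θ + 480123 / M) k1 (i, r) hkA
  have h5 : q step (0, 0) k (i, r) ≤ q step (0, 0) (k1 + (t + m)) (i, r) :=
    (antitone_nat_of_succ_le (f := fun k => q step (0, 0) k (i, r))
      (fun k => q_anti step (0, 0) k (i, r))) hsum
  have h6 : q step (0, 0) k (i, r) ≤ ε + θ + (480200 + A) / M := by
    have h7 : 2 / (M : ℝ) * (0.98 ^ k1 * pw (i, r) + 37.5) ≤ 2 / M * 38.5 :=
      mul_le_mul_of_nonneg_left (by linarith) (by positivity)
    have h8 : (ε + θ + 480123 / M) + 1 / M * A + 2 / M * 38.5 = ε + θ + (480200 + A) / M := by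
      ring
    linarith
  refine h6.trans ?_
  -- final estimates
  have hzS : 1 / z ≤ 20000 * √ (ℓ / k) := by
    rw [show (20000 : ℝ) * √ (ℓ / k) = √ (20000 ^ 2 * (ℓ / k)) by
      rw [Real.sqrt_mul (by norm_num), Real.sqrt_sq (by norm_num)]]
    apply Real.le_sqrt_of_sq_le
    rw [div_pow, one_pow, hzz, one_div_div]
    rw [mul_div_assoc']
    apply div_le_div_of_nonneg_right _ hk0.le
    linarith
  have hMz : 1 / (M : ℝ) ≤ 2 / z := by
    rw [div_le_div_iff₀ hMr hz0]; linarith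
  have hsq1 : √ (ℓ / k) ≤ S := by
    apply Real.sqrt_le_sqrt
    rw [div_le_iff₀ hk0]
    have : ℓ * 1 ≤ ℓ * (θ * k) := mul_le_mul_of_nonneg_left (by linarith) (by linarith)
    linarith
  have hsq2 : √ (θ * k) * √ (ℓ / k) = S := by
    rw [← Real.sqrt_mul hθk0.le]
    congr 1
    field_simp
  have hfin : (480200 + A) / M ≤ 5 * 10 ^ 11 * S := by
    have e1 : (480200 + A) / M = (480200 + A) * (1 / M) := by ring
    have e2 : (480200 + A) * (1 / M) ≤ (480200 + A) * (2 * (20000 * √ (ℓ / k))) := by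
      apply mul_le_mul_of_nonneg_left _ (by positivity)
      have : 2 / z = 2 * (1 / z) := by ring
      linarith
    have e3 : A * √ (ℓ / k) = 7 * S := by rw [hA, mul_assoc, hsq2]
    have e4 : (480200 + A) * (2 * (20000 * √ (ℓ / k))) =
        40000 * (480200 * √ (ℓ / k) + A * √ (ℓ / k)) := by ring
    rw [e1]
    refine e2.trans ?_
    rw [e4, e3]
    linarith
  have hθSS : θ ≤ S := by
    have h7 : S ≤ 1 := by
      rw [hS]
      apply Real.sqrt_le_one.2
      have := mul_le_mul_of_nonneg_left hℓθ hθ0.le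
      have e : θ * (1 / θ) = 1 := by field_simp
      linarith
    have h8 : S * S ≤ S * 1 := mul_le_mul_of_nonneg_left h7 hS0
    have h9 : S ^ 2 = S * S := sq S
    linarith
  have hεS : ε ≤ 2 * B * S := by
    rw [hε]
    have := mul_le_mul_of_nonneg_left hrho hB.le
    linarith
  have h8 : C * S = 10 ^ 12 * S + 3 * (B * S) := by rw [hC]; ring
  rw [h8]
  have hBS : 0 ≤ B * S := by positivity
  have h9 : 2 * B * S = 2 * (B * S) := by ring
  rw [h9] at hεS
  linarith

end Pool.Agent.W38.PR
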