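import Pool.Agent.H33.G.R_seed8.H307R2.OP.BT4
import Mathlib.NumberTheory.Chebyshev

/-! Uniform Brun-Titchmarsh upper bound and the lower bound of Chebyshev. -/

set_option autoImplicit false

namespace Pool.Agent.W38.PR

open Finset Filter Topology

theorem half_le (x : ℝ) (hx : 1 ≤ x) : Real.log x ≤ 4 * x ^ (1 / 4 : ℝ) := by
  have h := Real.log_le_rpow_div (by linarith : (0 : ℝ) ≤ x) (by norm_num : (0 : ℝ) < 1 / 4)
  linarith

/-- uniform Brun-Titchmarsh bound -/
theorem bt_unif {a q N : ℕ} (hq : 1 ≤ q) (hN : 2 ≤ N) :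
    (((Finset.range N).filter (fun k => (a + k * q).Prime)).card : ℝ) ≤
      20 * ((q : ℝ) / Nat.totient q) * (N / Real.log N) := by
  have hNr : (2 : ℝ) ≤ N := by exact_mod_cast hN
  have hN0 : (0 : ℝ) < N := by linarith
  have hlog : 0 < Real.log N := Real.log_pos (by linarith)
  set y : ℝ := (N : ℝ) ^ (1 / 8 : ℝ) with hy
  have hy1 : 1 ≤ y := Real.one_le_rpow (by linarith) (by norm_num)
  set R : ℕ := ⌊y⌋₊ with hR
  have hR1 : 1 ≤ R := by rw [hR, Nat.one_le_floor_iff]; exact hy1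
  have hRy : (R : ℝ) ≤ y := Nat.floor_le (by linarith)
  have hyR : y < (R : ℝ) + 1 := Nat.lt_floor_add_one y
  have h := Pool.Agent.H307R2.OP.BT4P.bt_core (a := a) (N := N) hq hR1
  have hqφ : 1 ≤ (q : ℝ) / Nat.totient q := by
    have h1 : (0 : ℝ) < Nat.totient q := by exact_mod_cast Nat.totient_pos.2 hq
    rw [le_div_iff₀ h1, one_mul]
    exact_mod_cast Nat.totient_le q
  set Q : ℝ := (q : ℝ) / Nat.totient q with hQ
  have hQ0 : 0 < Q := by linarith
  have h1 : Real.log N / 8 ≤ Real.log ((R : ℝ) + 1) := by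
    have h2 : Real.log y ≤ Real.log ((R : ℝ) + 1) := Real.log_le_log (by linarith) hyR.le
    rw [hy, Real.log_rpow hN0] at h2
    linarith
  have h2 : Q * N / Real.log ((R : ℝ) + 1) ≤ 8 * (Q * (N / Real.log N)) := by
    have h3 : Q * N / Real.log ((R : ℝ) + 1) ≤ Q * N / (Real.log N / 8) :=
      div_le_div_of_nonneg_left (by positivity) (by positivity) h1
    refine h3.trans (le_of_eq ?_)
    field_simp
  have h3 : (R : ℝ) ^ 4 + (R + 1) ≤ 12 * (N / Real.log N) := by
    have e1 : (R : ℝ) ^ 4 ≤ y ^ 4 := pow_le_pow_left₀ (by positivity) hRy 4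
    have e2 : (R : ℝ) ≤ y ^ 4 := hRy.trans (le_self_pow₀ hy1 (by norm_num))
    have e3 : (1 : ℝ) ≤ y ^ 4 := one_le_pow₀ hy1
    have e4 : y ^ 4 = (N : ℝ) ^ (1 / 2 : ℝ) := by
      rw [hy, ← Real.rpow_natCast, ← Real.rpow_mul hN0.le]; norm_num
    have e5 : Real.log N ≤ 4 * (N : ℝ) ^ (1 / 4 : ℝ) := half_le _ (by linarith)
    have e6 : (N : ℝ) ^ (1 / 4 : ℝ) ≤ (N : ℝ) ^ (1 / 2 : ℝ) :=
      Real.rpow_le_rpow_of_exponent_le (by linarith) (by norm_num)
    have e7 : (N : ℝ) ^ (1 / 2 : ℝ) * (N : ℝ) ^ (1 / 2 : ℝ) = N := by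
      rw [← Real.rpow_add hN0]; norm_num
    have e8 : 0 < (N : ℝ) ^ (1 / 2 : ℝ) := by positivity
    have e9 : (N : ℝ) ^ (1 / 2 : ℝ) ≤ 4 * (N / Real.log N) := by
      rw [mul_div_assoc', le_div_iff₀ hlog]
      calc (N : ℝ) ^ (1 / 2 : ℝ) * Real.log N
          ≤ (N : ℝ) ^ (1 / 2 : ℝ) * (4 * (N : ℝ) ^ (1 / 2 : ℝ)) := by
            apply mul_le_mul_of_nonneg_left _ e8.le
            linarith
        _ = 4 * ((N : ℝ) ^ (1 / 2 : ℝ) * (N : ℝ) ^ (1 / 2 : ℝ)) := by ring
        _ = 4 * N := by rw [e7]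
    rw [e4] at e1 e2 e3
    linarith
  have h4 : 12 * ((N : ℝ) / Real.log N) ≤ 12 * (Q * (N / Real.log N)) := by
    apply mul_le_mul_of_nonneg_left _ (by norm_num)
    exact le_mul_of_one_le_left (by positivity) hqφ
  calc _ ≤ _ := h
    _ ≤ 8 * (Q * (N / Real.log N)) + 12 * (Q * (N / Real.log N)) := by linarith
    _ = _ := by ring

/-- the number of primes up to a real number -/
theorem cheb : ∃ c : ℝ, 0 < c ∧ ∀ X : ℝ, 2 ≤ X → c * (X / Real.log X) ≤ Nat.primeCounting ⌊X⌋₊ := by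
  -- large `X`
  have hev : ∀ᶠ X : ℝ in atTop, X / 4 ≤ (X - 1) * Real.log 2 - Real.log (X + 2) := by
    have h1 := Real.isLittleO_log_id_atTop.bound (show (0 : ℝ) < 1 / 8 by norm_num)
    have h2 : Tendsto (fun X : ℝ => X + 2) atTop atTop := tendsto_atTop_add_const_right _ _ tendsto_id
    filter_upwards [h2.eventually h1, eventually_ge_atTop (10 : ℝ)] with X hX hX10
    rw [Real.norm_of_nonneg (Real.log_nonneg (by linarith)), id, Real.norm_of_nonneg (by linarith)] at hX
    have h3 := Real.log_two_gt_d9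
    nlinarith
  obtain ⟨X0, hX0⟩ := eventually_atTop.1 hev
  set X1 : ℝ := max X0 2 with hX1
  have hX12 : 2 ≤ X1 := le_max_right _ _
  refine ⟨min (1 / 4) (Real.log 2 / X1), ?_, fun X hX => ?_⟩
  · have := Real.log_pos (show (1 : ℝ) < 2 by norm_num)
    exact lt_min (by norm_num) (by positivity)
  have hlog : 0 < Real.log X := Real.log_pos (by linarith)
  have hX0' : 0 < X := by linarith
  by_cases h : X1 ≤ X
  · have h1 := hX0 X ((le_max_left _ _).trans h)
    have h2 := Chebyshev.psi_ge' (x := X) (by linarith)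
    have h3 := Chebyshev.psi_le_primeCounting_mul_log' X
    calc min (1 / 4) (Real.log 2 / X1) * (X / Real.log X) ≤ 1 / 4 * (X / Real.log X) :=
          mul_le_mul_of_nonneg_right (min_le_left _ _) (by positivity)
      _ = (X / 4) / Real.log X := by ring
      _ ≤ _ := by
          rw [div_le_iff₀ hlog]
          linarith
  · push Not at h
    have h1 : (1 : ℝ) ≤ Nat.primeCounting ⌊X⌋₊ := by
      have h2 : 2 ≤ ⌊X⌋₊ := Nat.le_floor (by exact_mod_cast hX)
      have h3 : Nat.primeCounting 2 ≤ Nat.primeCounting ⌊X⌋₊ := Nat.monotone_primeCounting h2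
      have h4 : Nat.primeCounting 2 = 1 := by decide
      have : 1 ≤ Nat.primeCounting ⌊X⌋₊ := by omega
      exact_mod_cast this
    refine le_trans ?_ h1
    have h2 : Real.log 2 ≤ Real.log X := Real.log_le_log (by norm_num) hX
    have hl := Real.log_pos (show (1 : ℝ) < 2 by norm_num)
    calc min (1 / 4) (Real.log 2 / X1) * (X / Real.log X) ≤ Real.log 2 / X1 * (X / Real.log X) :=
          mul_le_mul_of_nonneg_right (min_le_right _ _) (by positivity)
      _ ≤ Real.log 2 / X1 * (X1 / Real.log 2) := by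
          gcongr
      _ = 1 := by field_simp

end Pool.Agent.W38.PR
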