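import Pool.Agent.H33.G.R_seed8.W38.PRa
import Pool.Agent.H33.G.R_seed8.W38.PRb
import Pool.Agent.H33.G.R_seed8.H499R2.CO.E
import Pool.Agent.H33.G.R_seed8.H828R3.GP.Three

/-! Primes whose Collatz orbit stays above `y`: the main estimates. -/

set_option autoImplicit false

namespace Pool.Agent.W38.PR

open Finset Filter Topology Pool.Agent.H499R2.CO
open Classical

/-- primes of a set of integers periodic modulo `2 ^ k` -/
theorem prime_classes {k : ℕ} {X : ℝ} (hX : 2 ≤ X) (hk1 : 1 ≤ k)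
    (hk : (2 : ℝ) ^ k ≤ X ^ (1 / 2 : ℝ)) (P : ℤ → Prop)
    (hP : ∀ x m : ℤ, P (x + m * 2 ^ k) ↔ P x) :
    (#{p ∈ Icc 1 ⌊X⌋₊ | p.Prime ∧ P (p : ℕ)} : ℝ) ≤
      160 * (X / Real.log X) / 2 ^ k * #{a ∈ range (2 ^ k) | P ((a : ℕ) : ℤ)} := by
  set N := ⌊X⌋₊ with hN
  have hX0 : 0 < X := by linarith
  have hL : 0 < Real.log X := Real.log_pos (by linarith)
  have h2k : (0 : ℝ) < 2 ^ k := by positivity
  have hNX : (N : ℝ) ≤ X := Nat.floor_le hX0.le
  have hXX : X ^ (1 / 2 : ℝ) * X ^ (1 / 2 : ℝ) = X := by rw [← Real.rpow_add hX0]; norm_num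
  have hX1 : 1 ≤ X ^ (1 / 2 : ℝ) := Real.one_le_rpow (by linarith) (by norm_num)
  have hdiv : X ^ (1 / 2 : ℝ) ≤ X / 2 ^ k := by
    rw [le_div_iff₀ h2k]
    calc X ^ (1 / 2 : ℝ) * 2 ^ k ≤ X ^ (1 / 2 : ℝ) * X ^ (1 / 2 : ℝ) :=
          mul_le_mul_of_nonneg_left hk (by positivity)
      _ = X := hXX
  set M : ℕ := N / 2 ^ k + 1 with hM
  have hMlow : X / 2 ^ k ≤ M := by
    rw [div_le_iff₀ h2k]
    have h1 : X < (N : ℝ) + 1 := Nat.lt_floor_add_one X
    have h2 : N + 1 ≤ M * 2 ^ k := by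
      have := Nat.lt_div_mul_add (a := N) (show 0 < 2 ^ k by positivity)
      rw [hM, Nat.add_mul, one_mul]
      omega
    have h3 : ((N : ℝ) + 1) ≤ (M : ℝ) * 2 ^ k := by exact_mod_cast h2
    linarith
  have hMup : (M : ℝ) ≤ 2 * (X / 2 ^ k) := by
    have h1 : ((N / 2 ^ k : ℕ) : ℝ) ≤ N / 2 ^ k := by
      have := Nat.cast_div_le (α := ℝ) (m := N) (n := 2 ^ k)
      push_cast at this
      exact this
    have h2 : (N : ℝ) / 2 ^ k ≤ X / 2 ^ k := by gcongr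
    rw [hM]; push_cast
    linarith
  have hM2 : 2 ≤ M := by
    have h1 : 1 ≤ N / 2 ^ k := by
      rw [Nat.one_le_div_iff (by positivity)]
      rw [hN]
      apply Nat.le_floor
      push_cast
      calc (2 : ℝ) ^ k ≤ X ^ (1 / 2 : ℝ) := hk
        _ ≤ X ^ (1 / 2 : ℝ) * X ^ (1 / 2 : ℝ) := le_mul_of_one_le_left (by positivity) hX1
        _ = X := hXX
    omega
  have hlogM : Real.log X / 2 ≤ Real.log M := by
    have h1 : Real.log (X ^ (1 / 2 : ℝ)) ≤ Real.log M :=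
      Real.log_le_log (by positivity) (hdiv.trans hMlow)
    rw [Real.log_rpow hX0] at h1
    linarith
  -- one class
  have hclass : ∀ a ∈ range (2 ^ k), (#{p ∈ Icc 1 N | p.Prime ∧ p % 2 ^ k = a} : ℝ) ≤
      160 * (X / Real.log X) / 2 ^ k := by
    intro a ha
    have h1 := bt_unif (a := a) (q := 2 ^ k) (N := M) Nat.one_le_two_pow hM2
    have h2 : #{p ∈ Icc 1 N | p.Prime ∧ p % 2 ^ k = a} ≤
        ((Finset.range M).filter (fun j => (a + j * 2 ^ k).Prime)).card := by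
      apply card_le_card_of_injOn (fun p => p / 2 ^ k)
      · intro p hp
        rw [mem_coe, mem_filter, mem_Icc] at hp
        rw [mem_coe, mem_filter, mem_range]
        beta_reduce
        refine ⟨?_, ?_⟩
        · rw [hM]
          exact Nat.lt_succ_of_le (Nat.div_le_div_right hp.1.2)
        · have := Nat.mod_add_div p (2 ^ k)
          rw [hp.2.2] at this
          rw [mul_comm, this]
          exact hp.2.1
      · intro p hp p' hp' h
        rw [mem_coe, mem_filter] at hp hp'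
        beta_reduce at h
        rw [← Nat.mod_add_div p (2 ^ k), ← Nat.mod_add_div p' (2 ^ k), hp.2.2, hp'.2.2, h]
    have h3 : ((2 ^ k : ℕ) : ℝ) / Nat.totient (2 ^ k) = 2 := by
      rw [Nat.totient_prime_pow Nat.prime_two hk1]
      obtain ⟨j, rfl⟩ : ∃ j, k = j + 1 := ⟨k - 1, by omega⟩
      have e : j + 1 - 1 = j := by omega
      rw [e]
      push_cast
      rw [pow_succ]
      field_simp
    rw [h3] at h1
    have h4 : (M : ℝ) / Real.log M ≤ 2 * (X / 2 ^ k) / (Real.log X / 2) := by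
      apply div_le_div₀ (by positivity) hMup (by positivity) hlogM
    calc (#{p ∈ Icc 1 N | p.Prime ∧ p % 2 ^ k = a} : ℝ) ≤ _ := by exact_mod_cast h2
      _ ≤ 20 * 2 * ((M : ℝ) / Real.log M) := h1
      _ ≤ 20 * 2 * (2 * (X / 2 ^ k) / (Real.log X / 2)) := by
          apply mul_le_mul_of_nonneg_left h4 (by norm_num)
      _ = 160 * (X / Real.log X) / 2 ^ k := by field_simp; norm_num
  -- the classes
  set A := ({a ∈ range (2 ^ k) | P ((a : ℕ) : ℤ)} : Finset ℕ) with hA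
  have hsub : ({p ∈ Icc 1 N | p.Prime ∧ P (p : ℕ)} : Finset ℕ) ⊆
      A.biUnion (fun a => ({p ∈ Icc 1 N | p.Prime ∧ p % 2 ^ k = a} : Finset ℕ)) := by
    intro p hp
    rw [mem_filter] at hp
    rw [mem_biUnion]
    refine ⟨p % 2 ^ k, ?_, ?_⟩
    · rw [hA, mem_filter, mem_range]
      refine ⟨Nat.mod_lt _ (by positivity), ?_⟩
      have h1 := hP ((p % 2 ^ k : ℕ) : ℤ) ((p / 2 ^ k : ℕ) : ℤ)
      rw [← h1]
      have h2 : ((p % 2 ^ k : ℕ) : ℤ) + ((p / 2 ^ k : ℕ) : ℤ) * 2 ^ k = ((p : ℕ) : ℤ) := by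
        have := Nat.mod_add_div p (2 ^ k)
        have h3 : ((p % 2 ^ k + 2 ^ k * (p / 2 ^ k) : ℕ) : ℤ) = p := by rw [this]
        push_cast at h3 ⊢
        linarith
      rw [h2]
      exact hp.2.2
    · rw [mem_filter]
      exact ⟨hp.1, hp.2.1, rfl⟩
  calc (#{p ∈ Icc 1 N | p.Prime ∧ P (p : ℕ)} : ℝ)
      ≤ ((A.biUnion (fun a => ({p ∈ Icc 1 N | p.Prime ∧ p % 2 ^ k = a} : Finset ℕ))).card : ℝ) := by
        exact_mod_cast card_le_card hsub
    _ ≤ ∑ a ∈ A, (#{p ∈ Icc 1 N | p.Prime ∧ p % 2 ^ k = a} : ℝ) := by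
        exact_mod_cast card_biUnion_le
    _ ≤ ∑ a ∈ A, 160 * (X / Real.log X) / 2 ^ k := by
        apply sum_le_sum
        intro a ha
        exact hclass a (mem_of_mem_filter a ha)
    _ = 160 * (X / Real.log X) / 2 ^ k * #A := by
        rw [sum_const, nsmul_eq_mul]; ring

/-- primes for which the pair with the shift `h` does not coalesce -/
theorem prime_surv {k : ℕ} {X : ℝ} (hX : 2 ≤ X) (hk1 : 1 ≤ k)
    (hk : (2 : ℝ) ^ k ≤ X ^ (1 / 2 : ℝ)) (s : ℕ × ℤ) :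
    (#{p ∈ Icc 1 ⌊X⌋₊ | p.Prime ∧ surv 1 k s (p : ℕ)} : ℝ) ≤
      160 * (X / Real.log X) * q step (0, 0) k s := by
  have h1 := prime_classes hX hk1 hk (surv 1 k s) (fun x m => surv_periodic (by norm_num) k s x m)
  have h2 := count_surv (d := 1) (by norm_num) k s
  have h3 : (#{a ∈ range (2 ^ k) | surv 1 k s ((a : ℕ) : ℤ)} : ℝ) = 2 ^ k * q step (0, 0) k s := by
    rw [← h2, card_filter]
    push_cast
    rfl
  rw [h3] at h1
  refine h1.trans (le_of_eq ?_)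
  have : (0 : ℝ) < 2 ^ k := by positivity
  field_simp

/-- the orbit stays above `y` -/
def St (y : ℝ) (x : ℤ) : Prop := ∀ n : ℕ, y < (((Tz 1)^[n] x : ℤ) : ℝ)

theorem Tz_half {x : ℤ} (hx : 0 < x) : 0 < Tz 1 x ∧ x ≤ 2 * Tz 1 x := by
  unfold Tz
  split_ifs <;> omega

theorem Tz_low (n : ℕ) : ∀ {x : ℤ}, 0 < x → 0 < (Tz 1)^[n] x ∧ x ≤ 2 ^ n * (Tz 1)^[n] x := by
  induction n with
  | zero => intro x hx; simp [hx]
  | succ n ih =>
    intro x hx
    obtain ⟨h1, h2⟩ := Tz_half hx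
    obtain ⟨h3, h4⟩ := ih h1
    rw [Function.iterate_succ_apply]
    refine ⟨h3, ?_⟩
    rw [pow_succ]
    linarith

/-- coalescence carries over the property of staying above `y` -/
theorem St_shift {y : ℝ} {k h : ℕ} {p : ℕ} (hp : 0 < p) (hSt : St y p)
    (hpk : y * 2 ^ k < (p : ℝ)) (hs : ¬ surv 1 k (0, (h : ℤ)) (p : ℕ)) :
    St y ((p + h : ℕ) : ℤ) := by
  obtain ⟨t, htk, ht⟩ := coal (d := 1) (by norm_num) k 0 (h : ℤ) (p : ℤ) hs
  have e : (3 : ℤ) ^ 0 * (p : ℤ) + 1 * (h : ℤ) = ((p + h : ℕ) : ℤ) := by push_cast; ring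
  rw [e] at ht
  intro n
  by_cases hn : t ≤ n
  · obtain ⟨d, rfl⟩ : ∃ d, n = d + t := ⟨n - t, by omega⟩
    rw [Function.iterate_add_apply, ← ht, ← Function.iterate_add_apply]
    exact hSt (d + t)
  · push Not at hn
    obtain ⟨h1, h2⟩ := Tz_low n (x := ((p + h : ℕ) : ℤ)) (by exact_mod_cast (by omega : 0 < p + h))
    have h3 : (((p + h : ℕ) : ℤ) : ℝ) ≤ 2 ^ n * (((Tz 1)^[n] ((p + h : ℕ) : ℤ) : ℤ) : ℝ) := by
      exact_mod_cast h2
    have h4 : (2 : ℝ) ^ n ≤ 2 ^ k := pow_le_pow_right₀ (by norm_num) (by omega)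
    have h5 : (0 : ℝ) < (((Tz 1)^[n] ((p + h : ℕ) : ℤ) : ℤ) : ℝ) := by exact_mod_cast h1
    have h6 : (p : ℝ) ≤ (((p + h : ℕ) : ℤ) : ℝ) := by push_cast; linarith [Nat.cast_nonneg (α := ℝ) h]
    have h7 : y * 2 ^ k < 2 ^ k * (((Tz 1)^[n] ((p + h : ℕ) : ℤ) : ℤ) : ℝ) := by
      calc y * 2 ^ k < (p : ℝ) := hpk
        _ ≤ _ := h6
        _ ≤ _ := h3
        _ ≤ _ := mul_le_mul_of_nonneg_right h4 h5.le
    have h8 : (0 : ℝ) < 2 ^ k := by positivity
    rw [mul_comm] at h7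
    exact lt_of_mul_lt_mul_left h7 h8.le

end Pool.Agent.W38.PR
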