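import Pool.Agent.H33.G.R_seed8.W38.PRc

/-! Primes whose Collatz orbit stays above `y`: the counting argument. -/

set_option autoImplicit false

namespace Pool.Agent.W38.PR

open Finset Filter Topology Pool.Agent.H499R2.CO
open Classical

/-- number of primes with many non-coalescing shifts -/
theorem bad_primes {k H : ℕ} {X Q : ℝ} (hX : 2 ≤ X) (hk1 : 1 ≤ k)
    (hk : (2 : ℝ) ^ k ≤ X ^ (1 / 2 : ℝ)) (hH : 1 ≤ H)
    (hQ : ∀ h ∈ Icc 1 H, q step (0, 0) k (0, ((h : ℕ) : ℤ)) ≤ Q) :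
    (#{p ∈ Icc 1 ⌊X⌋₊ | p.Prime ∧ (H : ℝ) / 2 < #{h ∈ Icc 1 H | surv 1 k (0, ((h : ℕ) : ℤ)) (p : ℕ)}} : ℝ) ≤
      320 * (X / Real.log X) * Q := by
  have hHr : (0 : ℝ) < H := by exact_mod_cast hH
  have hL : 0 < Real.log X := Real.log_pos (by linarith)
  set PP := ({p ∈ Icc 1 ⌊X⌋₊ | p.Prime} : Finset ℕ) with hPP
  set B := ({p ∈ Icc 1 ⌊X⌋₊ | p.Prime ∧ (H : ℝ) / 2 <
    #{h ∈ Icc 1 H | surv 1 k (0, ((h : ℕ) : ℤ)) (p : ℕ)}} : Finset ℕ) with hB
  have hBP : B ⊆ PP := by
    intro p hp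
    rw [hB, mem_filter] at hp
    rw [hPP, mem_filter]
    exact ⟨hp.1, hp.2.1⟩
  have h1 : (#B : ℝ) * (H / 2) ≤ ∑ p ∈ PP, (#{h ∈ Icc 1 H | surv 1 k (0, ((h : ℕ) : ℤ)) (p : ℕ)} : ℝ) := by
    calc (#B : ℝ) * (H / 2) = ∑ p ∈ B, ((H : ℝ) / 2) := by rw [sum_const, nsmul_eq_mul]
      _ ≤ ∑ p ∈ B, (#{h ∈ Icc 1 H | surv 1 k (0, ((h : ℕ) : ℤ)) (p : ℕ)} : ℝ) := by
          apply sum_le_sum
          intro p hp
          rw [hB, mem_filter] at hp
          exact hp.2.2.le
      _ ≤ _ := sum_le_sum_of_subset_of_nonneg hBP (fun _ _ _ => by positivity)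
  have h2 : ∑ p ∈ PP, (#{h ∈ Icc 1 H | surv 1 k (0, ((h : ℕ) : ℤ)) (p : ℕ)} : ℝ) =
      ∑ h ∈ Icc 1 H, (#{p ∈ Icc 1 ⌊X⌋₊ | p.Prime ∧ surv 1 k (0, ((h : ℕ) : ℤ)) (p : ℕ)} : ℝ) := by
    have e1 : ∀ p ∈ PP, (#{h ∈ Icc 1 H | surv 1 k (0, ((h : ℕ) : ℤ)) (p : ℕ)} : ℝ) =
        ∑ h ∈ Icc 1 H, if surv 1 k (0, ((h : ℕ) : ℤ)) (p : ℕ) then (1 : ℝ) else 0 := by
      intro p _
      rw [card_filter]; push_cast; rfl
    rw [sum_congr rfl e1, sum_comm]
    apply sum_congr rfl
    intro h _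
    rw [hPP, ← sum_filter, sum_const, nsmul_eq_mul, mul_one, filter_filter]
  have h3 : ∑ h ∈ Icc 1 H, (#{p ∈ Icc 1 ⌊X⌋₊ | p.Prime ∧ surv 1 k (0, ((h : ℕ) : ℤ)) (p : ℕ)} : ℝ) ≤
      ∑ h ∈ Icc 1 H, 160 * (X / Real.log X) * Q := by
    apply sum_le_sum
    intro h hh
    refine (prime_surv hX hk1 hk (0, ((h : ℕ) : ℤ))).trans ?_
    apply mul_le_mul_of_nonneg_left (hQ h hh)
    have : 0 ≤ X / Real.log X := div_nonneg (by linarith) hL.le
    positivity
  rw [sum_const, nsmul_eq_mul, Nat.card_Icc, Nat.add_sub_cancel] at h3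
  have h4 : (#B : ℝ) * (H / 2) ≤ H * (160 * (X / Real.log X) * Q) := by linarith
  have h5 : (H : ℝ) * (160 * (X / Real.log X) * Q) = (320 * (X / Real.log X) * Q) * (H / 2) := by ring
  rw [h5] at h4
  exact le_of_mul_le_mul_right h4 (by positivity)

/-- primes in an interval -/
theorem interval_primes {H : ℕ} (hH : 2 ≤ H) (j : ℕ) (S : Finset ℕ)
    (hS : ∀ p ∈ S, p.Prime ∧ p / H = j) : (#S : ℝ) ≤ 20 * (H / Real.log H) := by
  have h1 := bt_unif (a := j * H) (q := 1) (N := H) le_rfl hH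
  have h2 : #S ≤ ((Finset.range H).filter (fun i => (j * H + i * 1).Prime)).card := by
    apply card_le_card_of_injOn (fun p => p % H)
    · intro p hp
      obtain ⟨h3, h4⟩ := hS p hp
      rw [mem_coe, mem_filter, mem_range]
      beta_reduce
      refine ⟨Nat.mod_lt _ (by omega), ?_⟩
      have := Nat.div_add_mod p H
      rw [h4] at this
      rw [mul_one, mul_comm, this]
      exact h3
    · intro p hp p' hp' h
      beta_reduce at h
      rw [← Nat.div_add_mod p H, ← Nat.div_add_mod p' H, (hS p hp).2, (hS p' hp').2, h]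
  have h3 : ((1 : ℕ) : ℝ) / Nat.totient 1 = 1 := by simp
  rw [h3, mul_one] at h1
  exact le_trans (by exact_mod_cast h2) h1

/-- blocks: if each prime of `G` is followed by many elements of `E`, then `G` is small -/
theorem block_count {H N : ℕ} (hH : 2 ≤ H) (G : Finset ℕ) (E : ℕ → Prop)
    (hG : ∀ p ∈ G, p.Prime ∧ p ≤ N ∧ (H : ℝ) / 2 ≤ #{h ∈ Icc 1 H | E (p + h)}) :
    (#G : ℝ) ≤ 80 * #{n ∈ Icc 1 (N + 2 * H) | E n} / Real.log H := by
  have hHr : (0 : ℝ) < H := by
    have : 0 < H := by omega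
    exact_mod_cast this
  have hlog : 0 < Real.log H := Real.log_pos (by exact_mod_cast (by omega : 1 < H))
  set J := G.image (fun p => p / H) with hJ
  set T := ({n ∈ Icc 1 (N + 2 * H) | E n} : Finset ℕ) with hT
  -- windows
  set W1 : ℕ → Finset ℕ := fun j => T.filter (fun n => (n - 1) / H = j) with hW1
  set W2 : ℕ → Finset ℕ := fun j => T.filter (fun n => (n - 1) / H = j + 1) with hW2
  have hdis1 : ∑ j ∈ J, #(W1 j) ≤ #T := by
    have : ∑ j ∈ J, #(W1 j) = #(J.biUnion W1) := by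
      rw [card_biUnion]
      intro a _ b _ hab
      rw [Function.onFun, disjoint_left]
      intro n hn hn'
      rw [hW1] at hn hn'
      simp only [mem_filter] at hn hn'
      exact hab (hn.2.symm.trans hn'.2)
    rw [this]
    apply card_le_card
    intro n hn
    rw [mem_biUnion] at hn
    obtain ⟨j, _, hj⟩ := hn
    exact mem_of_mem_filter n hj
  have hdis2 : ∑ j ∈ J, #(W2 j) ≤ #T := by
    have : ∑ j ∈ J, #(W2 j) = #(J.biUnion W2) := by
      rw [card_biUnion]
      intro a _ b _ hab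
      rw [Function.onFun, disjoint_left]
      intro n hn hn'
      rw [hW2] at hn hn'
      simp only [mem_filter] at hn hn'
      have := hn.2.symm.trans hn'.2
      omega
    rw [this]
    apply card_le_card
    intro n hn
    rw [mem_biUnion] at hn
    obtain ⟨j, _, hj⟩ := hn
    exact mem_of_mem_filter n hj
  have hwin : ∀ j ∈ J, (H : ℝ) / 2 ≤ (#(W1 j) : ℝ) + #(W2 j) := by
    intro j hj
    rw [hJ, mem_image] at hj
    obtain ⟨p, hp, rfl⟩ := hj
    obtain ⟨_, hpN, hp2⟩ := hG p hp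
    refine hp2.trans ?_
    have h1 : #{h ∈ Icc 1 H | E (p + h)} ≤ #(W1 (p / H) ∪ W2 (p / H)) := by
      apply card_le_card_of_injOn (fun h => p + h)
      · intro h hh
        rw [mem_coe, mem_filter, mem_Icc] at hh
        rw [mem_coe, mem_union]
        beta_reduce
        have hmem : p + h ∈ T := by
          rw [hT, mem_filter, mem_Icc]
          exact ⟨⟨by omega, by omega⟩, hh.2⟩
        have h2 : p + h - 1 = p + (h - 1) := by omega
        have h3 : (p + h - 1) / H = p / H ∨ (p + h - 1) / H = p / H + 1 := by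
          rw [h2]
          have h4 := Nat.div_add_mod p H
          have h5 := Nat.mod_lt p (show H > 0 by omega)
          have h6 : p + (h - 1) = H * (p / H) + (p % H + (h - 1)) := by omega
          rw [h6, Nat.mul_add_div (by omega)]
          have h7 : (p % H + (h - 1)) / H ≤ 1 := by
            apply Nat.le_of_lt_succ
            rw [Nat.div_lt_iff_lt_mul (by omega)]
            omega
          rcases Nat.le_one_iff_eq_zero_or_eq_one.1 h7 with h8 | h8
          · left; rw [h8, add_zero]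
          · right; rw [h8]
        rcases h3 with h3 | h3
        · left; rw [hW1]; simp only [mem_filter]; exact ⟨hmem, h3⟩
        · right; rw [hW2]; simp only [mem_filter]; exact ⟨hmem, h3⟩
      · intro a _ b _ hab
        beta_reduce at hab
        omega
    have h2 := h1.trans (card_union_le _ _)
    exact_mod_cast h2
  have hJcard : (#J : ℝ) * (H / 2) ≤ 2 * #T := by
    have h1 : (#J : ℝ) * (H / 2) = ∑ j ∈ J, ((H : ℝ) / 2) := by rw [sum_const, nsmul_eq_mul]
    rw [h1]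
    have h2 : ∑ j ∈ J, ((H : ℝ) / 2) ≤ ∑ j ∈ J, ((#(W1 j) : ℝ) + #(W2 j)) := sum_le_sum hwin
    rw [sum_add_distrib] at h2
    have h3 : ∑ j ∈ J, (#(W1 j) : ℝ) ≤ #T := by exact_mod_cast hdis1
    have h4 : ∑ j ∈ J, (#(W2 j) : ℝ) ≤ #T := by exact_mod_cast hdis2
    linarith
  have hGJ : (#G : ℝ) ≤ #J * (20 * (H / Real.log H)) := by
    have h1 : G ⊆ J.biUnion (fun j => G.filter (fun p => p / H = j)) := by
      intro p hp
      rw [mem_biUnion]
      exact ⟨p / H, mem_image_of_mem _ hp, mem_filter.2 ⟨hp, rfl⟩⟩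
    have h2 := (card_le_card h1).trans card_biUnion_le
    have h3 : (#G : ℝ) ≤ ∑ j ∈ J, (#(G.filter (fun p => p / H = j)) : ℝ) := by exact_mod_cast h2
    refine h3.trans ?_
    calc ∑ j ∈ J, (#(G.filter (fun p => p / H = j)) : ℝ) ≤ ∑ j ∈ J, (20 * (H / Real.log H) : ℝ) := by
          apply sum_le_sum
          intro j _
          apply interval_primes hH j
          intro p hp
          rw [mem_filter] at hp
          exact ⟨(hG p hp.1).1, hp.2⟩
      _ = _ := by rw [sum_const, nsmul_eq_mul]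
  have h5 : (#J : ℝ) * (20 * (H / Real.log H)) = (#J * (H / 2)) * (40 / Real.log H) := by
    field_simp; ring
  rw [h5] at hGJ
  refine hGJ.trans ?_
  calc (#J : ℝ) * (H / 2) * (40 / Real.log H) ≤ 2 * #T * (40 / Real.log H) := by
        apply mul_le_mul_of_nonneg_right hJcard (by positivity)
    _ = 80 * #T / Real.log H := by ring

end Pool.Agent.W38.PR
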