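import Pool.Agent.H33.G.R_seed8.W38.PRd

/-! Primes whose Collatz orbit stays above `y`: the main theorem. -/

set_option autoImplicit false

namespace Pool.Agent.W38.PR

open Finset Filter Topology Pool.Agent.H499R2.CO
open Pool.Agent.H319R2 (beta beta_lt)
open Classical

theorem E_count {c : ℝ} (hc0 : 0 < c) (hc : c < 1 - beta) : ∃ C : ℝ, 0 < C ∧ ∀ (N : ℕ) (y : ℝ),
    1 ≤ N → 1 ≤ y → (#{n ∈ Icc 1 N | St y ((n : ℕ) : ℤ)} : ℝ) ≤ C * N / y ^ c := by
  obtain ⟨C, hC, h⟩ := Pool.Agent.H828R3.GP.three odd_one hc0 hc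
  refine ⟨C, hC, fun N y hN hy => ?_⟩
  have hX : (1 : ℝ) ≤ N := by exact_mod_cast hN
  refine le_trans ?_ (h N y hX hy)
  have hfin : {x : ℤ | |(x : ℝ)| ≤ (N : ℝ) ∧
      ∀ n : ℕ, y < |(((Pool.Agent.H499R2.ND.Td 1)^[n] x : ℤ) : ℝ)|}.Finite := by
    apply (Set.finite_Icc (-(N : ℤ)) (N : ℤ)).subset
    rintro x ⟨hx, -⟩
    have h1 := abs_le.1 hx
    rw [Set.mem_Icc]
    constructor
    · have : ((-(N : ℤ) : ℤ) : ℝ) ≤ x := by push_cast; linarith
      exact_mod_cast this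
    · have : (x : ℝ) ≤ ((N : ℤ) : ℝ) := by push_cast; linarith
      exact_mod_cast this
  have hsub : ((({n ∈ Icc 1 N | St y ((n : ℕ) : ℤ)} : Finset ℕ).image (fun n : ℕ => (n : ℤ)) : Finset ℤ) : Set ℤ) ⊆
      {x : ℤ | |(x : ℝ)| ≤ (N : ℝ) ∧
        ∀ n : ℕ, y < |(((Pool.Agent.H499R2.ND.Td 1)^[n] x : ℤ) : ℝ)|} := by
    intro x hx
    rw [mem_coe, mem_image] at hx
    obtain ⟨n, hn, rfl⟩ := hx
    rw [mem_filter, mem_Icc] at hn
    refine ⟨?_, fun m => ?_⟩
    · have : (n : ℝ) ≤ N := by exact_mod_cast hn.1.2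
      simpa using this
    · exact lt_of_lt_of_le (hn.2 m) (le_abs_self _)
  have h1 := Set.ncard_le_ncard hsub hfin
  rw [Set.ncard_coe_finset, card_image_of_injective _ Nat.cast_injective] at h1
  exact_mod_cast h1

theorem log_half {H : ℕ} {t : ℝ} (ht : 10 ≤ t) (hH : H = ⌊(2 : ℝ) ^ t⌋₊) :
    2 ≤ H ∧ (H : ℝ) ≤ (2 : ℝ) ^ t ∧ 0.6 * t ≤ Real.log H := by
  have h2t : (2 : ℝ) ^ (10 : ℝ) ≤ (2 : ℝ) ^ t := Real.rpow_le_rpow_of_exponent_le (by norm_num) ht
  have h10 : (2 : ℝ) ^ (10 : ℝ) = 1024 := by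
    rw [show (10 : ℝ) = ((10 : ℕ) : ℝ) by norm_num, Real.rpow_natCast]; norm_num
  rw [h10] at h2t
  have h0 : (0 : ℝ) < (2 : ℝ) ^ t := by linarith
  have hlow : (2 : ℝ) ^ t / 2 ≤ H := by
    have := Nat.lt_floor_add_one ((2 : ℝ) ^ t)
    rw [hH]
    linarith
  have hHle : (H : ℝ) ≤ (2 : ℝ) ^ t := by rw [hH]; exact Nat.floor_le h0.le
  refine ⟨?_, hHle, ?_⟩
  · have : (2 : ℝ) ≤ H := by linarith
    exact_mod_cast this
  · have h1 : Real.log ((2 : ℝ) ^ t / 2) ≤ Real.log H := Real.log_le_log (by positivity) hlow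
    rw [Real.log_div h0.ne' (by norm_num), Real.log_rpow (by norm_num)] at h1
    have h3 := Real.log_two_gt_d9
    have h4 : (t - 1) * 0.69 ≤ (t - 1) * Real.log 2 :=
      mul_le_mul_of_nonneg_left (by linarith) (by linarith)
    linarith

theorem primes_stay {c : ℝ} (hc0 : 0 < c) (hc : c < 1 - beta) : ∃ C : ℝ, 0 < C ∧ ∀ X y : ℝ,
    2 ≤ X → 1 ≤ y → (#{p ∈ Icc 1 ⌊X⌋₊ | p.Prime ∧ St y ((p : ℕ) : ℤ)} : ℝ) ≤
      C * (X / Real.log X) * (√ (1 + Real.log y) / y ^ (c / 3)) := by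
  obtain ⟨C0, hC0, hE⟩ := E_count hc0 hc
  obtain ⟨Cq, hCq, hq⟩ := q_theta
  have hc1 : c ≤ 1 := by
    have : 0 ≤ beta := by
      unfold beta
      apply div_nonneg _ (Real.log_nonneg (by norm_num))
      apply Real.binEntropy_nonneg
      · exact div_nonneg (Real.log_nonneg (by norm_num)) (Real.log_nonneg (by norm_num))
      · rw [div_le_one (Real.log_pos (by norm_num))]
        exact Real.log_le_log (by norm_num) (by norm_num)
    linarith
  set K : ℝ := 12 / c + 100 * Cq with hK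
  have hKc : 12 / c ≤ K := by rw [hK]; linarith
  have hKq : 100 * Cq ≤ K := by
    have : 0 < 12 / c := by positivity
    rw [hK]; linarith
  have hK0 : 0 < K := by linarith
  refine ⟨C0 * K + 6 + 320 * Cq + 720 * C0, by positivity, fun X y hX hy => ?_⟩
  have hX0 : 0 < X := by linarith
  set L := Real.log X with hL
  have hL0 : 0 < L := Real.log_pos (by linarith)
  have hXL : 0 < X / L := by positivity
  set N := ⌊X⌋₊ with hN
  have hNX : (N : ℝ) ≤ X := Nat.floor_le hX0.le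
  have hN1 : 1 ≤ N := by
    rw [hN, Nat.one_le_floor_iff]; linarith
  have hy0 : 0 < y := by linarith
  have hly : 0 ≤ Real.log y := Real.log_nonneg hy
  set Z : ℝ := y ^ (c / 3) with hZ
  have hZ1 : 1 ≤ Z := Real.one_le_rpow hy (by positivity)
  have hZ0 : 0 < Z := by linarith
  have hZ3 : y ^ c = Z ^ 3 := by
    rw [hZ, ← Real.rpow_natCast, ← Real.rpow_mul hy0.le]; congr 1; push_cast; ring
  have hlZ : Real.log Z = c / 3 * Real.log y := by rw [hZ, Real.log_rpow hy0]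
  set g : ℝ := √ (1 + Real.log y) / Z with hg
  have hsq1 : 1 ≤ √ (1 + Real.log y) := by
    rw [Real.one_le_sqrt]; linarith
  have hgZ : 1 / Z ≤ g := by rw [hg]; gcongr
  have hg0 : 0 < g := lt_of_lt_of_le (by positivity) hgZ
  set Pr := ({p ∈ Icc 1 N | p.Prime ∧ St y ((p : ℕ) : ℤ)} : Finset ℕ) with hPr
  have hsplit : (C0 * K + 6 + 320 * Cq + 720 * C0) * (X / L) * g =
      C0 * K * (X / L) * g + 6 * (X / L) * g + 320 * Cq * (X / L) * g + 720 * C0 * (X / L) * g := by ring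
  have hp1 : 0 ≤ C0 * K * (X / L) * g := by positivity
  have hp2 : 0 ≤ 6 * (X / L) * g := by positivity
  have hp3 : 0 ≤ 320 * Cq * (X / L) * g := by positivity
  have hp4 : 0 ≤ 720 * C0 * (X / L) * g := by positivity
  by_cases hcase : L < K * Z ^ 2
  · -- large `y`
    have h1 : (#Pr : ℝ) ≤ C0 * N / y ^ c := by
      refine le_trans ?_ (hE N y hN1 hy)
      have : Pr ⊆ ({n ∈ Icc 1 N | St y ((n : ℕ) : ℤ)} : Finset ℕ) := by
        intro p hp
        rw [hPr, mem_filter] at hp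
        rw [mem_filter]
        exact ⟨hp.1, hp.2.2⟩
      exact_mod_cast card_le_card this
    have h2 : C0 * N / y ^ c ≤ C0 * K * (X / L) * (1 / Z) := by
      rw [hZ3]
      have e : C0 * K * (X / L) * (1 / Z) = C0 * X * (K * Z ^ 2) / (L * Z ^ 3) := by
        field_simp
      rw [e, div_le_div_iff₀ (by positivity) (by positivity)]
      have h3 : C0 * N ≤ C0 * X := mul_le_mul_of_nonneg_left hNX hC0.le
      calc C0 * N * (L * Z ^ 3) ≤ C0 * X * (L * Z ^ 3) :=
            mul_le_mul_of_nonneg_right h3 (by positivity)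
        _ ≤ C0 * X * (K * Z ^ 2 * Z ^ 3) := by
            apply mul_le_mul_of_nonneg_left _ (by positivity)
            exact mul_le_mul_of_nonneg_right hcase.le (by positivity)
        _ = C0 * X * (K * Z ^ 2) * Z ^ 3 := by ring
    have h3 : C0 * K * (X / L) * (1 / Z) ≤ C0 * K * (X / L) * g :=
      mul_le_mul_of_nonneg_left hgZ (by positivity)
    rw [hsplit]
    linarith
  · push Not at hcase
    have hZ2 : 1 ≤ Z ^ 2 := one_le_pow₀ hZ1
    have hLK : K ≤ L := by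
      have : K * 1 ≤ K * Z ^ 2 := mul_le_mul_of_nonneg_left hZ2 hK0.le
      linarith
    have hL100 : 100 ≤ L := by linarith
    -- `y ≤ X^{1/4}`
    have hyX : Real.log y ≤ L / 4 := by
      have h1 : Real.log Z ≤ Z ^ 2 := by
        have h2 := Real.log_le_sub_one_of_pos hZ0
        nlinarith
      have h2 : K * Real.log Z ≤ L := (mul_le_mul_of_nonneg_left h1 hK0.le).trans hcase
      have h3 : 0 ≤ Real.log Z := Real.log_nonneg hZ1
      have h4 : 12 / c * Real.log Z ≤ L := (mul_le_mul_of_nonneg_right hKc h3).trans h2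
      rw [hlZ] at h4
      have h5 : 12 / c * (c / 3 * Real.log y) = 4 * Real.log y := by field_simp; ring
      linarith
    -- parameters
    have hl2 := Real.log_two_gt_d9
    have hl2' := Real.log_two_lt_d9
    set k : ℕ := ⌊L / (2 * Real.log 2)⌋₊ with hk
    have hk1 : (k : ℝ) ≤ L / (2 * Real.log 2) := Nat.floor_le (by positivity)
    have hk2 : L / (2 * Real.log 2) < k + 1 := Nat.lt_floor_add_one _
    have hk3 : 0.7 * L ≤ k := by
      have h1 : 0.72 * L ≤ L / (2 * Real.log 2) := by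
        rw [le_div_iff₀ (by positivity)]
        nlinarith
      linarith
    have hk4 : (k : ℝ) * Real.log 2 ≤ L / 2 := by
      rw [le_div_iff₀ (by positivity)] at hk1
      linarith
    have hk5 : (2 : ℝ) ^ k ≤ X ^ (1 / 2 : ℝ) := by
      have h1 : Real.log ((2 : ℝ) ^ k) ≤ Real.log (X ^ (1 / 2 : ℝ)) := by
        rw [Real.log_pow, Real.log_rpow hX0]; linarith
      exact (Real.log_le_log_iff (by positivity) (by positivity)).1 h1
    have hkpos : 1 ≤ k := by
      have : (1 : ℝ) ≤ k := by linarith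
      exact_mod_cast this
    set θ : ℝ := 1 / Z ^ 2 with hθ
    have hθ0 : 0 < θ := by positivity
    have hθ1 : θ ≤ 1 := by rw [hθ, div_le_one (by positivity)]; exact hZ2
    have hθL : K ≤ θ * L := by
      rw [hθ, div_mul_eq_mul_div, one_mul, le_div_iff₀ (by positivity)]; exact hcase
    have hθk : 0.7 * (θ * L) ≤ θ * k := by
      have := mul_le_mul_of_nonneg_left hk3 hθ0.le
      linarith
    have hθk10 : 10 ≤ θ * k := by linarith
    set H : ℕ := ⌊(2 : ℝ) ^ (θ * k)⌋₊ with hH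
    obtain ⟨hH2, hHle, hHlog⟩ := log_half hθk10 hH
    have hHX : (H : ℝ) ≤ X ^ (1 / 2 : ℝ) := by
      refine hHle.trans (le_trans ?_ hk5)
      rw [← Real.rpow_natCast]
      apply Real.rpow_le_rpow_of_exponent_le (by norm_num)
      exact mul_le_of_le_one_left (by positivity) hθ1
    have hXX : X ^ (1 / 2 : ℝ) ≤ X := by
      conv_rhs => rw [← Real.rpow_one X]
      exact Real.rpow_le_rpow_of_exponent_le (by linarith) (by norm_num)
    have hlogH : θ * L / 3 ≤ Real.log H := by linarith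
    have hlogH0 : 0 < Real.log H := by
      have : 0 < θ * L / 3 := by positivity
      linarith
    -- the failure probability
    have hQ : ∀ h ∈ Icc 1 H, q step (0, 0) k (0, ((h : ℕ) : ℤ)) ≤ Cq * g := by
      intro h hh
      rw [mem_Icc] at hh
      have h1 : |(((h : ℕ) : ℤ) : ℝ)| ≤ (2 : ℝ) ^ (θ * k) := by
        rw [abs_of_nonneg (by positivity)]
        refine le_trans ?_ hHle
        have : (h : ℝ) ≤ H := by exact_mod_cast hh.2
        push_cast
        exact this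
      have h2 := hq θ hθ0 hθ1 k (by linarith) 0 ((h : ℕ) : ℤ) (by
        have : 0 ≤ θ * (k : ℝ) := by positivity
        simpa using this) h1
      refine h2.trans ?_
      apply mul_le_mul_of_nonneg_left _ (by linarith)
      rw [hg, le_div_iff₀ hZ0]
      have h3 : θ * (1 + Real.log (1 / θ)) * Z ^ 2 ≤ 1 + Real.log y := by
        have h4 : Real.log (1 / θ) = 2 * Real.log Z := by
          rw [hθ, one_div_one_div, Real.log_pow]; norm_num
        have h5 : θ * (1 + Real.log (1 / θ)) * Z ^ 2 = 1 + Real.log (1 / θ) := by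
          rw [hθ]; field_simp
        rw [h5, h4, hlZ]
        have h6 : c / 3 * Real.log y ≤ 1 / 3 * Real.log y :=
          mul_le_mul_of_nonneg_right (by linarith) hly
        linarith
      calc √ (θ * (1 + Real.log (1 / θ))) * Z = √ (θ * (1 + Real.log (1 / θ))) * √ (Z ^ 2) := by
            rw [Real.sqrt_sq hZ0.le]
        _ = √ (θ * (1 + Real.log (1 / θ)) * Z ^ 2) :=
            (Real.sqrt_mul' _ (sq_nonneg Z)).symm
        _ ≤ √ (1 + Real.log y) := Real.sqrt_le_sqrt h3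
    have hbad := bad_primes hX hkpos hk5 (by omega : 1 ≤ H) hQ
    rw [← hN, ← hL] at hbad
    set Bad := ({p ∈ Icc 1 N | p.Prime ∧ (H : ℝ) / 2 <
      #{h ∈ Icc 1 H | surv 1 k (0, ((h : ℕ) : ℤ)) (p : ℕ)}} : Finset ℕ) with hBad
    -- the good primes
    set Gd := ({p ∈ Icc 1 N | p.Prime ∧ St y ((p : ℕ) : ℤ) ∧ X ^ (3 / 4 : ℝ) < (p : ℝ) ∧
      ¬ (H : ℝ) / 2 < #{h ∈ Icc 1 H | surv 1 k (0, ((h : ℕ) : ℤ)) (p : ℕ)}} : Finset ℕ) with hGd
    have hGdE : ∀ p ∈ Gd, p.Prime ∧ p ≤ N ∧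
        (H : ℝ) / 2 ≤ #{h ∈ Icc 1 H | (fun n : ℕ => St y ((n : ℕ) : ℤ)) (p + h)} := by
      intro p hp
      rw [hGd, mem_filter, mem_Icc] at hp
      obtain ⟨⟨hp1, hpN⟩, hpp, hpS, hpX, hpb⟩ := hp
      refine ⟨hpp, hpN, ?_⟩
      push Not at hpb
      have h1 : y * 2 ^ k < (p : ℝ) := by
        refine lt_of_le_of_lt ?_ hpX
        have h2 : y ≤ X ^ (1 / 4 : ℝ) := by
          have : Real.log y ≤ Real.log (X ^ (1 / 4 : ℝ)) := by rw [Real.log_rpow hX0]; linarith
          exact (Real.log_le_log_iff hy0 (by positivity)).1 this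
        calc y * 2 ^ k ≤ X ^ (1 / 4 : ℝ) * X ^ (1 / 2 : ℝ) := by gcongr
          _ = X ^ (3 / 4 : ℝ) := by rw [← Real.rpow_add hX0]; norm_num
      have h2 : ({h ∈ Icc 1 H | ¬ surv 1 k (0, ((h : ℕ) : ℤ)) (p : ℕ)} : Finset ℕ) ⊆
          ({h ∈ Icc 1 H | (fun n : ℕ => St y ((n : ℕ) : ℤ)) (p + h)} : Finset ℕ) := by
        intro h hh
        rw [mem_filter] at hh ⊢
        exact ⟨hh.1, St_shift (by omega) hpS h1 hh.2⟩
      have h3 := card_le_card h2
      have h4 := card_filter_add_card_filter_not (s := Icc 1 H)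
        (fun h : ℕ => surv 1 k (0, ((h : ℕ) : ℤ)) (p : ℕ))
      rw [Nat.card_Icc, Nat.add_sub_cancel] at h4
      have h5 : (#{h ∈ Icc 1 H | surv 1 k (0, ((h : ℕ) : ℤ)) (p : ℕ)} : ℝ) +
          #{h ∈ Icc 1 H | ¬ surv 1 k (0, ((h : ℕ) : ℤ)) (p : ℕ)} = H := by exact_mod_cast h4
      have h6 : (#{h ∈ Icc 1 H | ¬ surv 1 k (0, ((h : ℕ) : ℤ)) (p : ℕ)} : ℝ) ≤
          #{h ∈ Icc 1 H | (fun n : ℕ => St y ((n : ℕ) : ℤ)) (p + h)} := by exact_mod_cast h3
      linarith
    have hG1 := block_count hH2 Gd (fun n : ℕ => St y ((n : ℕ) : ℤ)) hGdE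
    have hG2 := hE (N + 2 * H) y (by omega) hy
    have hG3 : (#Gd : ℝ) ≤ 720 * C0 * (X / L) * (1 / Z) := by
      have h1 : ((N + 2 * H : ℕ) : ℝ) ≤ 3 * X := by push_cast; linarith
      have h2 : (#{n ∈ Icc 1 (N + 2 * H) | St y ((n : ℕ) : ℤ)} : ℝ) ≤ C0 * (3 * X) / Z ^ 3 := by
        refine hG2.trans ?_
        rw [hZ3]
        gcongr
      refine hG1.trans ?_
      calc 80 * (#{n ∈ Icc 1 (N + 2 * H) | St y ((n : ℕ) : ℤ)} : ℝ) / Real.log H
          ≤ 80 * (C0 * (3 * X) / Z ^ 3) / (θ * L / 3) := by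
            apply div_le_div₀ (by positivity) _ (by positivity) hlogH
            apply mul_le_mul_of_nonneg_left h2 (by norm_num)
        _ = 720 * C0 * (X / L) * (1 / Z) := by
            rw [hθ]; field_simp; norm_num
    -- the small primes
    have hsm : ((Icc 1 ⌊X ^ (3 / 4 : ℝ)⌋₊).card : ℝ) ≤ 6 * (X / L) * (1 / Z) := by
      rw [Nat.card_Icc, Nat.add_sub_cancel]
      refine (Nat.floor_le (by positivity)).trans ?_
      have h1 : Real.log Z ≤ L / 12 := by
        rw [hlZ]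
        have h2 : c / 3 * Real.log y ≤ 1 / 3 * Real.log y :=
          mul_le_mul_of_nonneg_right (by linarith) hly
        linarith
      have h2 : L ≤ 6 * X ^ (1 / 6 : ℝ) := by
        have := Real.log_le_rpow_div hX0.le (by norm_num : (0 : ℝ) < 1 / 6)
        rw [← hL] at this
        linarith
      have h3 : Z ≤ X ^ (1 / 12 : ℝ) := by
        have : Real.log Z ≤ Real.log (X ^ (1 / 12 : ℝ)) := by rw [Real.log_rpow hX0]; linarith
        exact (Real.log_le_log_iff hZ0 (by positivity)).1 this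
      have e : 6 * (X / L) * (1 / Z) = 6 * X / (L * Z) := by field_simp
      rw [e, le_div_iff₀ (by positivity)]
      calc X ^ (3 / 4 : ℝ) * (L * Z) ≤ X ^ (3 / 4 : ℝ) * (6 * X ^ (1 / 6 : ℝ) * X ^ (1 / 12 : ℝ)) := by
            gcongr
        _ = 6 * (X ^ (3 / 4 : ℝ) * X ^ (1 / 6 : ℝ) * X ^ (1 / 12 : ℝ)) := by ring
        _ = 6 * X := by
            rw [← Real.rpow_add hX0, ← Real.rpow_add hX0]
            norm_num
    have hcover : Pr ⊆ Icc 1 ⌊X ^ (3 / 4 : ℝ)⌋₊ ∪ (Bad ∪ Gd) := by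
      intro p hp
      rw [hPr, mem_filter, mem_Icc] at hp
      obtain ⟨⟨hp1, hpN⟩, hpp, hpS⟩ := hp
      rw [mem_union, mem_union]
      by_cases h1 : X ^ (3 / 4 : ℝ) < (p : ℝ)
      · right
        by_cases h2 : (H : ℝ) / 2 < #{h ∈ Icc 1 H | surv 1 k (0, ((h : ℕ) : ℤ)) (p : ℕ)}
        · left
          rw [hBad, mem_filter, mem_Icc]
          exact ⟨⟨hp1, hpN⟩, hpp, h2⟩
        · right
          rw [hGd, mem_filter, mem_Icc]
          exact ⟨⟨hp1, hpN⟩, hpp, hpS, h1, h2⟩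
      · left
        push Not at h1
        rw [mem_Icc]
        exact ⟨hp1, Nat.le_floor h1⟩
    have hfin : (#Pr : ℝ) ≤ (Icc 1 ⌊X ^ (3 / 4 : ℝ)⌋₊).card + (#Bad + #Gd) := by
      have h1 := card_le_card hcover
      have h2 := card_union_le (Icc 1 ⌊X ^ (3 / 4 : ℝ)⌋₊) (Bad ∪ Gd)
      have h3 := card_union_le Bad Gd
      have h4 : #Pr ≤ (Icc 1 ⌊X ^ (3 / 4 : ℝ)⌋₊).card + (#Bad + #Gd) := by omega
      exact_mod_cast h4
    have hz1 : 6 * (X / L) * (1 / Z) ≤ 6 * (X / L) * g := mul_le_mul_of_nonneg_left hgZ (by positivity)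
    have hz2 : 720 * C0 * (X / L) * (1 / Z) ≤ 720 * C0 * (X / L) * g :=
      mul_le_mul_of_nonneg_left hgZ (by positivity)
    have hz3 : 320 * (X / L) * (Cq * g) = 320 * Cq * (X / L) * g := by ring
    rw [hz3] at hbad
    rw [hsplit]
    linarith

end Pool.Agent.W38.PR
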